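import Mathlib
import Pool.Agent.R412.RT.A2
import Pool.Agent.R412.RT.B
set_option autoImplicit false

/-! Plancherel inequality for the difference map `(y, z) ↦ (y - z, y^2 - z^2)`. -/

namespace Pool.Agent.K4H66.RV

open MeasureTheory Complex Set Filter Topology
open scoped ENNReal RealInnerProductSpace ComplexConjugate
open Pool.Agent.R412.RT (E ee ee_norm ee_add ee_conj ee_meas ee_cont planch inner_eq)

/-- the difference map -/
noncomputable def Dm (x : E 2) : E 2 := !₂[x 0 - x 1, x 0 ^ 2 - x 1 ^ 2]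

noncomputable def Dmat (x : E 2) : Matrix (Fin 2) (Fin 2) ℝ := !![1, -1; 2 * x 0, -(2 * x 1)]

noncomputable def Dd (x : E 2) : E 2 →L[ℝ] E 2 :=
  LinearMap.toContinuousLinearMap (Matrix.toLin (EuclideanSpace.basisFun (Fin 2) ℝ).toBasis
    (EuclideanSpace.basisFun (Fin 2) ℝ).toBasis (Dmat x))

theorem Dd_det (x : E 2) : (Dd x).det = 2 * (x 0 - x 1) := by
  unfold Dd ContinuousLinearMap.det
  rw [LinearMap.coe_toContinuousLinearMap, LinearMap.det_toLin]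
  unfold Dmat
  rw [Matrix.det_fin_two_of]
  ring

theorem Dd_apply (x v : E 2) (i : Fin 2) : Dd x v i = ∑ j, Dmat x i j * v j := by
  unfold Dd
  rw [LinearMap.coe_toContinuousLinearMap']
  have h := Matrix.toLin_apply (EuclideanSpace.basisFun (Fin 2) ℝ).toBasis
    (EuclideanSpace.basisFun (Fin 2) ℝ).toBasis (Dmat x) v
  rw [h]
  simp only [OrthonormalBasis.coe_toBasis, WithLp.ofLp_sum, WithLp.ofLp_smul, Finset.sum_apply,
    Pi.smul_apply, smul_eq_mul, EuclideanSpace.basisFun_apply, PiLp.single_apply,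
    Matrix.mulVec, dotProduct, mul_ite, mul_one, mul_zero, Finset.sum_ite_eq,
    Finset.mem_univ, if_true]
  rfl

theorem Dm_deriv (x : E 2) : HasFDerivAt Dm (Dd x) x := by
  rw [← hasFDerivWithinAt_univ, hasFDerivWithinAt_euclidean]
  intro i
  rw [hasFDerivWithinAt_univ]
  have h1 : ∀ j : Fin 2, HasFDerivAt (fun y : E 2 => y j) (EuclideanSpace.proj j : E 2 →L[ℝ] ℝ) x :=
    fun j => (EuclideanSpace.proj (𝕜 := ℝ) j).hasFDerivAt
  fin_cases i
  · refine HasFDerivAt.congr_fderiv (f' := (EuclideanSpace.proj 0 : E 2 →L[ℝ] ℝ) -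
      (EuclideanSpace.proj 1 : E 2 →L[ℝ] ℝ)) ((h1 0).sub (h1 1)) ?_
    ext v
    have hR : ((PiLp.proj 2 (fun _ : Fin 2 => ℝ) 0 : E 2 →L[ℝ] ℝ).comp (Dd x)) v =
      ∑ j, Dmat x 0 j * v j := Dd_apply x v 0
    refine Eq.trans ?_ hR.symm
    simp [Fin.sum_univ_two, Dmat]
    ring
  · have h2 : HasFDerivAt (fun y : E 2 => y 0 ^ 2 - y 1 ^ 2)
        ((2 * x 0) • (EuclideanSpace.proj 0 : E 2 →L[ℝ] ℝ) -
          (2 * x 1) • (EuclideanSpace.proj 1 : E 2 →L[ℝ] ℝ)) x := by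
      refine HasFDerivAt.sub ?_ ?_
      · have := (h1 0).pow 2
        simpa using this
      · have := (h1 1).pow 2
        simpa using this
    refine HasFDerivAt.congr_fderiv (f' := ((2 * x 0) • (EuclideanSpace.proj 0 : E 2 →L[ℝ] ℝ) -
          (2 * x 1) • (EuclideanSpace.proj 1 : E 2 →L[ℝ] ℝ))) h2 ?_
    ext v
    have hR : ((PiLp.proj 2 (fun _ : Fin 2 => ℝ) 1 : E 2 →L[ℝ] ℝ).comp (Dd x)) v =
      ∑ j, Dmat x 1 j * v j := Dd_apply x v 1
    refine Eq.trans ?_ hR.symm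
    simp [Fin.sum_univ_two, Dmat]
    ring

/-- off diagonal points -/
def Od : Set (E 2) := {x | x 0 ≠ x 1}

theorem Dm_inj : InjOn Dm Od := by
  intro x hx y hy hxy
  have h0 : x 0 - x 1 = y 0 - y 1 := congrArg (fun v : E 2 => v 0) hxy
  have h1 : x 0 ^ 2 - x 1 ^ 2 = y 0 ^ 2 - y 1 ^ 2 := congrArg (fun v : E 2 => v 1) hxy
  have hx' : x 0 - x 1 ≠ 0 := sub_ne_zero.2 hx
  have h2 : (x 0 - x 1) * (x 0 + x 1) = (x 0 - x 1) * (y 0 + y 1) := by
    calc (x 0 - x 1) * (x 0 + x 1) = x 0 ^ 2 - x 1 ^ 2 := by ring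
      _ = y 0 ^ 2 - y 1 ^ 2 := h1
      _ = (y 0 - y 1) * (y 0 + y 1) := by ring
      _ = _ := by rw [h0]
  have h3 := mul_left_cancel₀ hx' h2
  ext i
  fin_cases i
  · show x 0 = y 0
    linarith
  · show x 1 = y 1
    linarith

theorem cont_coord (i : Fin 2) : Continuous fun x : E 2 => x i := by fun_prop

theorem Dm_meas : Measurable Dm :=
  (continuous_iff_continuousAt.2 fun x => (Dm_deriv x).continuousAt).measurable

theorem Od_meas : MeasurableSet Od :=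
  (isOpen_ne_fun (cont_coord 0) (cont_coord 1)).measurableSet

/-- `E 2` and `ℝ × ℝ` -/
noncomputable def T2 : E 2 ≃ᵐ ℝ × ℝ :=
  (MeasurableEquiv.toLp 2 (Fin 2 → ℝ)).symm.trans MeasurableEquiv.finTwoArrow

theorem T2_apply (x : E 2) : T2 x = (x 0, x 1) := rfl

theorem T2_mp : MeasurePreserving T2 volume volume :=
  (volume_preserving_finTwoArrow ℝ).comp (PiLp.volume_preserving_ofLp (Fin 2))

/-- phase of the difference map -/
def dph (τ p : ℝ × ℝ) : ℝ := (p.1 - p.2) * τ.1 + (p.1 ^ 2 - p.2 ^ 2) * τ.2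

theorem Dm_inner (x t : E 2) : ⟪Dm x, t⟫ = dph (T2 t) (T2 x) := by
  rw [inner_eq, Fin.sum_univ_two, T2_apply, T2_apply]
  rfl

/-- Plancherel inequality for the difference map -/
theorem planR (K : ℝ × ℝ → ℂ) (hK : Integrable K) (hd : ∀ p, p.1 = p.2 → K p = 0) :
    ∫⁻ τ : ℝ × ℝ, ‖∫ p : ℝ × ℝ, ee (dph τ p) * K p‖ₑ ^ 2 ≤
      ∫⁻ p : ℝ × ℝ, ‖K p‖ₑ ^ 2 / ENNReal.ofReal |2 * (p.1 - p.2)| := by
  have hg : Integrable fun x : E 2 => K (T2 x) :=
    (T2_mp.integrable_comp_emb T2.measurableEmbedding).2 hK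
  have h := planch Dm Dm_meas Dd Od Od_meas (fun x _ => (Dm_deriv x).hasFDerivWithinAt) Dm_inj
    (fun x hx => by
      rw [Dd_det]
      exact mul_ne_zero two_ne_zero (sub_ne_zero.2 hx))
    (by
      simp only [Dd_det]
      exact ((continuous_const.mul ((cont_coord 0).sub (cont_coord 1))).abs).measurable)
    (fun x => K (T2 x)) hg (fun x hx => by
      refine hd _ ?_
      rw [T2_apply]
      simpa [Od] using hx)
  have h1 : ∀ t : E 2, ∫ x : E 2, ee ⟪Dm x, t⟫ * K (T2 x) =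
      ∫ p : ℝ × ℝ, ee (dph (T2 t) p) * K p := by
    intro t
    rw [← T2_mp.integral_comp T2.measurableEmbedding]
    simp only [Dm_inner]
  simp_rw [h1] at h
  have h2 : ∫⁻ t : E 2, ‖∫ p : ℝ × ℝ, ee (dph (T2 t) p) * K p‖ₑ ^ 2 =
      ∫⁻ τ : ℝ × ℝ, ‖∫ p : ℝ × ℝ, ee (dph τ p) * K p‖ₑ ^ 2 :=
    T2_mp.lintegral_comp_emb T2.measurableEmbedding
      (fun τ => ‖∫ p : ℝ × ℝ, ee (dph τ p) * K p‖ₑ ^ 2)
  have h3 : ∫⁻ x : E 2, ‖K (T2 x)‖ₑ ^ 2 / ENNReal.ofReal |(Dd x).det| =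
      ∫⁻ p : ℝ × ℝ, ‖K p‖ₑ ^ 2 / ENNReal.ofReal |2 * (p.1 - p.2)| := by
    rw [← T2_mp.lintegral_comp_emb T2.measurableEmbedding
      (fun p : ℝ × ℝ => ‖K p‖ₑ ^ 2 / ENNReal.ofReal |2 * (p.1 - p.2)|)]
    simp only [Dd_det, T2_apply]
  rw [h2, h3] at h
  exact h

end Pool.Agent.K4H66.RV
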