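import Mathlib
import Pool.Agent.K4H66.RV.A1
import Pool.Agent.H438R2.PD.A3
set_option autoImplicit false

/-! The sesquilinear extension estimate for the parabola. -/

namespace Pool.Agent.K4H66.RV

open MeasureTheory Complex Set Filter Topology
open scoped ENNReal RealInnerProductSpace ComplexConjugate
open Pool.Agent.R412.RT (E ee ee_norm ee_add ee_conj ee_meas ee_cont)
open Pool.Agent.H438R2.PD.A3 (jensen_tsum tsum_geo exps)

/-- the sesquilinear extension operator -/
noncomputable def Qf (K : ℝ × ℝ → ℂ) (τ : ℝ × ℝ) : ℂ := ∫ p : ℝ × ℝ, ee (dph τ p) * K p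

/-- dyadic shells around the diagonal -/
def Vk (k : ℕ) : Set (ℝ × ℝ) := {p | (1 / 2 : ℝ) ^ (k + 1) < |p.1 - p.2| ∧ |p.1 - p.2| ≤ (1 / 2) ^ k}

theorem Vk_meas (k : ℕ) : MeasurableSet (Vk k) := by
  have h : Measurable fun p : ℝ × ℝ => |p.1 - p.2| := by fun_prop
  exact (h measurableSet_Ioi).inter (h measurableSet_Iic)

theorem Vk_disj : Pairwise (Function.onFun Disjoint Vk) := by
  have key : ∀ i j : ℕ, i < j → Disjoint (Vk i) (Vk j) := by
    intro i j hij
    rw [Set.disjoint_left]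
    intro p hp hq
    have h1 : (1 / 2 : ℝ) ^ j ≤ (1 / 2) ^ (i + 1) :=
      pow_le_pow_of_le_one (by norm_num) (by norm_num) hij
    have h2 := hp.1
    have h3 := hq.2
    linarith
  intro i j hij
  rcases lt_or_gt_of_ne hij with h | h
  · exact key i j h
  · exact (key j i h).symm

theorem mem_Vk (p : ℝ × ℝ) (h0 : p.1 ≠ p.2) (h1 : |p.1 - p.2| ≤ 1) : p ∈ ⋃ k, Vk k := by
  have hpos : 0 < |p.1 - p.2| := abs_pos.2 (sub_ne_zero.2 h0)
  obtain ⟨n, hn1, hn2⟩ := exists_nat_pow_near_of_lt_one hpos h1 (by norm_num : (0 : ℝ) < 1 / 2)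
    (by norm_num)
  exact mem_iUnion.2 ⟨n, hn1, hn2⟩

theorem diag_null : volume {p : ℝ × ℝ | p.1 = p.2} = 0 := by
  have hm : MeasurableSet {p : ℝ × ℝ | p.1 = p.2} :=
    measurableSet_eq_fun measurable_fst measurable_snd
  rw [Measure.volume_eq_prod, Measure.measure_prod_null hm]
  refine Eventually.of_forall fun x => ?_
  have : Prod.mk x ⁻¹' {p : ℝ × ℝ | p.1 = p.2} = {x} := by
    ext y; simp [eq_comm]
  show volume (Prod.mk x ⁻¹' {p : ℝ × ℝ | p.1 = p.2}) = 0
  rw [this]
  simp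

/-- measure of a band around the diagonal -/
theorem band_meas (A : Set ℝ) (hA : MeasurableSet A) (r : ℝ) :
    MeasurableSet {p : ℝ × ℝ | p.1 ∈ A ∧ |p.1 - p.2| ≤ r} := by
  have h : Measurable fun p : ℝ × ℝ => |p.1 - p.2| := by fun_prop
  exact (measurable_fst hA).inter (h measurableSet_Iic)

theorem band (A : Set ℝ) (hA : MeasurableSet A) (r : ℝ) :
    volume {p : ℝ × ℝ | p.1 ∈ A ∧ |p.1 - p.2| ≤ r} ≤ ENNReal.ofReal (2 * r) * volume A := by
  have hm := band_meas A hA r
  rw [Measure.volume_eq_prod, Measure.prod_apply hm]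
  calc ∫⁻ x, volume (Prod.mk x ⁻¹' {p : ℝ × ℝ | p.1 ∈ A ∧ |p.1 - p.2| ≤ r})
      ≤ ∫⁻ x, A.indicator (fun _ => ENNReal.ofReal (2 * r)) x := by
        refine lintegral_mono fun x => ?_
        by_cases hx : x ∈ A
        · rw [indicator_of_mem hx]
          calc volume (Prod.mk x ⁻¹' {p : ℝ × ℝ | p.1 ∈ A ∧ |p.1 - p.2| ≤ r})
              ≤ volume (Icc (x - r) (x + r)) := by
                refine measure_mono ?_
                rintro y ⟨-, hy⟩
                rw [abs_le] at hy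
                constructor <;> linarith [hy.1, hy.2]
            _ = ENNReal.ofReal (2 * r) := by
                rw [Real.volume_Icc]
                congr 1
                ring
        · have : Prod.mk x ⁻¹' {p : ℝ × ℝ | p.1 ∈ A ∧ |p.1 - p.2| ≤ r} = ∅ := by
            ext y
            simp only [mem_preimage, mem_empty_iff_false, iff_false]
            exact fun h => hx h.1
          rw [this]
          simp
    _ = ENNReal.ofReal (2 * r) * volume A := by
        rw [lintegral_indicator hA, setLIntegral_const]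

/-- hypotheses on the kernel -/
structure Ker (A : Set ℝ) (K : ℝ × ℝ → ℂ) : Prop where
  meas : Measurable K
  bd : ∀ p, ‖K p‖ ≤ 1
  supp : ∀ p, K p ≠ 0 → p.1 ∈ A ∧ p.2 ∈ A

theorem Ker.int {A : Set ℝ} (hA : MeasurableSet A) (hA1 : A ⊆ Icc (-(1 / 2)) (1 / 2))
    {K : ℝ × ℝ → ℂ} (hK : Ker A K) : Integrable K := by
  have h1 : volume A ≠ ∞ := by
    have := measure_mono (μ := volume) hA1
    rw [Real.volume_Icc] at this
    exact ne_top_of_le_ne_top ENNReal.ofReal_ne_top this
  have h2 : volume (A ×ˢ A) ≠ ∞ := by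
    rw [Measure.volume_eq_prod, Measure.prod_prod]
    exact ENNReal.mul_ne_top h1 h1
  have h3 : Integrable ((A ×ˢ A).indicator fun _ : ℝ × ℝ => (1 : ℝ)) := by
    rw [integrable_indicator_iff (hA.prod hA)]
    exact integrableOn_const h2
  refine h3.mono' hK.meas.aestronglyMeasurable (Eventually.of_forall fun p => ?_)
  by_cases hp : p ∈ A ×ˢ A
  · rw [indicator_of_mem hp]
    exact hK.bd p
  · rw [indicator_of_notMem hp]
    have : K p = 0 := by
      by_contra hne
      exact hp (hK.supp p hne)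
    rw [this, norm_zero]

theorem Qf_sum {A : Set ℝ} (hA : MeasurableSet A) (hA1 : A ⊆ Icc (-(1 / 2)) (1 / 2))
    {K : ℝ × ℝ → ℂ} (hK : Ker A K) (τ : ℝ × ℝ) :
    ‖Qf K τ‖ₑ ≤ ∑' k, ‖Qf ((Vk k).indicator K) τ‖ₑ := by
  have hi : Integrable fun p : ℝ × ℝ => ee (dph τ p) * K p := by
    refine (hK.int hA hA1).bdd_mul (c := 1) ?_ (Eventually.of_forall fun x => (ee_norm _).le)
    refine (ee_meas.comp ?_).aestronglyMeasurable
    unfold dph
    fun_prop
  have h1 : Qf K τ = ∑' k, Qf ((Vk k).indicator K) τ := by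
    unfold Qf
    have h2 : ∫ p in ⋃ k, Vk k, ee (dph τ p) * K p = ∫ p, ee (dph τ p) * K p := by
      refine setIntegral_eq_integral_of_ae_compl_eq_zero ?_
      have h3 : ∀ᵐ p : ℝ × ℝ, p ∉ {p : ℝ × ℝ | p.1 = p.2} := measure_eq_zero_iff_ae_notMem.1 diag_null
      filter_upwards [h3] with p hp hpV
      have : K p = 0 := by
        by_contra hne
        obtain ⟨ha, hb⟩ := hK.supp p hne
        refine hpV (mem_Vk p hp ?_)
        have ha' := hA1 ha
        have hb' := hA1 hb
        rw [abs_le]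
        constructor <;> linarith [ha'.1, ha'.2, hb'.1, hb'.2]
      rw [this, mul_zero]
    rw [← h2, integral_iUnion Vk_meas Vk_disj hi.integrableOn]
    congr 1
    ext k
    rw [← integral_indicator (Vk_meas k)]
    congr 1
    ext p
    by_cases hp : p ∈ Vk k
    · rw [indicator_of_mem hp, indicator_of_mem hp]
    · rw [indicator_of_notMem hp, indicator_of_notMem hp, mul_zero]
  rw [h1]
  exact enorm_tsum_le_tsum_enorm

theorem Qf_meas (K : ℝ × ℝ → ℂ) (hK : Measurable K) : Measurable (Qf K) := by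
  have : StronglyMeasurable (Function.uncurry fun (τ p : ℝ × ℝ) => ee (dph τ p) * K p) := by
    refine Measurable.stronglyMeasurable (Measurable.mul (ee_meas.comp ?_)
      (hK.comp measurable_snd))
    unfold dph
    fun_prop
  exact this.integral_prod_right.measurable

theorem shell_le {A : Set ℝ} (hA : MeasurableSet A) {K : ℝ × ℝ → ℂ} (hK : Ker A K) (k : ℕ) :
    ∫⁻ p, ‖(Vk k).indicator K p‖ₑ ≤ ENNReal.ofReal (2 * (1 / 2) ^ k) * volume A := by
  refine le_trans ?_ (band A hA ((1 / 2) ^ k))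
  have hm := band_meas A hA ((1 / 2) ^ k)
  rw [← lintegral_indicator_one hm]
  refine lintegral_mono fun p => ?_
  by_cases hp : p ∈ Vk k
  · rw [indicator_of_mem hp]
    by_cases hz : K p = 0
    · rw [hz, enorm_zero]; exact zero_le
    · rw [indicator_of_mem (show p ∈ {p : ℝ × ℝ | p.1 ∈ A ∧ |p.1 - p.2| ≤ (1 / 2) ^ k} from
        ⟨(hK.supp p hz).1, hp.2⟩)]
      rw [← ofReal_norm, Pi.one_apply, ← ENNReal.ofReal_one]
      exact ENNReal.ofReal_le_ofReal (hK.bd p)
  · rw [indicator_of_notMem hp, enorm_zero]; exact zero_le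

theorem shell_sup {A : Set ℝ} (hA : MeasurableSet A) {K : ℝ × ℝ → ℂ} (hK : Ker A K) (k : ℕ)
    (τ : ℝ × ℝ) : ‖Qf ((Vk k).indicator K) τ‖ₑ ≤ ENNReal.ofReal (2 * (1 / 2) ^ k) * volume A := by
  unfold Qf
  refine (enorm_integral_le_lintegral_enorm _).trans (le_trans (lintegral_mono fun p => ?_)
    (shell_le hA hK k))
  rw [enorm_mul, ← ofReal_norm (ee _), ee_norm, ENNReal.ofReal_one, one_mul]

theorem shell_two {A : Set ℝ} (hA : MeasurableSet A) (hA1 : A ⊆ Icc (-(1 / 2)) (1 / 2))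
    {K : ℝ × ℝ → ℂ} (hK : Ker A K) (k : ℕ) :
    ∫⁻ τ, ‖Qf ((Vk k).indicator K) τ‖ₑ ^ 2 ≤ 2 * volume A := by
  have h0 : (0 : ℝ) < (1 / 2) ^ k := by positivity
  have h1 := planR ((Vk k).indicator K) ((hK.int hA hA1).indicator (Vk_meas k)) (fun p hp => by
    refine indicator_of_notMem (fun h => ?_) _
    have h2 := h.1
    rw [hp, sub_self, abs_zero] at h2
    have : (0 : ℝ) < (1 / 2) ^ (k + 1) := by positivity
    linarith)
  refine h1.trans ?_
  calc ∫⁻ p : ℝ × ℝ, ‖(Vk k).indicator K p‖ₑ ^ 2 / ENNReal.ofReal |2 * (p.1 - p.2)|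
      ≤ ∫⁻ p : ℝ × ℝ, ENNReal.ofReal (((1 / 2) ^ k)⁻¹) * ‖(Vk k).indicator K p‖ₑ := by
        refine lintegral_mono fun p => ?_
        by_cases hp : p ∈ Vk k
        · rw [indicator_of_mem hp]
          have h3 : (1 / 2 : ℝ) ^ k ≤ |2 * (p.1 - p.2)| := by
            rw [abs_mul, abs_of_pos (by norm_num : (0 : ℝ) < 2)]
            have := hp.1
            rw [pow_succ] at this
            linarith
          have h4 : ‖K p‖ₑ ≤ 1 := by
            rw [← ofReal_norm, ← ENNReal.ofReal_one]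
            exact ENNReal.ofReal_le_ofReal (hK.bd p)
          calc ‖K p‖ₑ ^ 2 / ENNReal.ofReal |2 * (p.1 - p.2)|
              ≤ (1 * ‖K p‖ₑ) / ENNReal.ofReal ((1 / 2) ^ k) := by
                rw [sq]
                gcongr
            _ = _ := by
                rw [one_mul, ENNReal.div_eq_inv_mul, ENNReal.ofReal_inv_of_pos h0]
        · rw [indicator_of_notMem hp, enorm_zero]
          simp
    _ = ENNReal.ofReal (((1 / 2) ^ k)⁻¹) * ∫⁻ p : ℝ × ℝ, ‖(Vk k).indicator K p‖ₑ := by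
        rw [lintegral_const_mul]
        exact (hK.meas.indicator (Vk_meas k)).enorm
    _ ≤ ENNReal.ofReal (((1 / 2) ^ k)⁻¹) * (ENNReal.ofReal (2 * (1 / 2) ^ k) * volume A) := by
        gcongr
        exact shell_le hA hK k
    _ = 2 * volume A := by
        rw [← mul_assoc, ← ENNReal.ofReal_mul (by positivity)]
        congr 1
        rw [show (((1 / 2 : ℝ) ^ k)⁻¹) * (2 * (1 / 2) ^ k) = 2 by field_simp]
        norm_num

theorem shell_s {A : Set ℝ} (hA : MeasurableSet A) (hA1 : A ⊆ Icc (-(1 / 2)) (1 / 2))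
    {K : ℝ × ℝ → ℂ} (hK : Ker A K) (s : ℝ) (hs : 2 < s) (k : ℕ) :
    ∫⁻ τ, ‖Qf ((Vk k).indicator K) τ‖ₑ ^ s ≤
      (ENNReal.ofReal (2 * (1 / 2) ^ k) * volume A) ^ (s - 2) * (2 * volume A) := by
  have hm : Measurable (Qf ((Vk k).indicator K)) := Qf_meas _ (hK.meas.indicator (Vk_meas k))
  calc ∫⁻ τ, ‖Qf ((Vk k).indicator K) τ‖ₑ ^ s
      ≤ ∫⁻ τ, (ENNReal.ofReal (2 * (1 / 2) ^ k) * volume A) ^ (s - 2) *
          ‖Qf ((Vk k).indicator K) τ‖ₑ ^ 2 := by
        refine lintegral_mono fun τ => ?_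
        have e1 : ‖Qf ((Vk k).indicator K) τ‖ₑ ^ s =
            ‖Qf ((Vk k).indicator K) τ‖ₑ ^ (s - 2) * ‖Qf ((Vk k).indicator K) τ‖ₑ ^ 2 := by
          rw [← ENNReal.rpow_natCast, ← ENNReal.rpow_add_of_nonneg _ _ (by linarith) (by norm_num)]
          congr 1
          push_cast
          ring
        rw [e1]
        have e2 := ENNReal.rpow_le_rpow (shell_sup hA hK k τ) (by linarith : 0 ≤ s - 2)
        gcongr
    _ = (ENNReal.ofReal (2 * (1 / 2) ^ k) * volume A) ^ (s - 2) *
          ∫⁻ τ, ‖Qf ((Vk k).indicator K) τ‖ₑ ^ 2 := by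
        rw [lintegral_const_mul]
        exact hm.enorm.pow_const 2
    _ ≤ _ := by
        gcongr
        exact shell_two hA hA1 hK k

/-- **The sesquilinear estimate.** -/
theorem VP (s : ℝ) (hs : 2 < s) : ∃ C : ℝ≥0∞, C ≠ ∞ ∧ ∀ (A : Set ℝ), MeasurableSet A →
    A ⊆ Icc (-(1 / 2)) (1 / 2) → ∀ K : ℝ × ℝ → ℂ, Ker A K →
    ∫⁻ τ, ‖Qf K τ‖ₑ ^ s ≤ C * volume A ^ (s - 1) := by
  set e : ℝ := (s - 2) / (2 * (s - 1)) with he
  have he0 : 0 < e := div_pos (by linarith) (by linarith)
  set r : ℝ := (1 / 2 : ℝ) ^ e with hr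
  have hr0 : 0 < r := Real.rpow_pos_of_pos (by norm_num) _
  have hr1 : r < 1 := Real.rpow_lt_one (by norm_num) (by norm_num) he0
  set ρ : ℝ := (1 / 2 : ℝ) ^ ((s - 2) / 2) with hρ
  have hρ0 : 0 < ρ := Real.rpow_pos_of_pos (by norm_num) _
  have hρ1 : ρ < 1 := Real.rpow_lt_one (by norm_num) (by norm_num) (by linarith)
  set c : ℕ → ℝ≥0∞ := fun k => ENNReal.ofReal (r ^ k) with hc
  have hc0 : ∀ k, c k ≠ 0 := fun k => by
    rw [hc]
    simp only [ne_eq, ENNReal.ofReal_eq_zero, not_le]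
    positivity
  have hc1 : ∀ k, c k ≠ ∞ := fun k => ENNReal.ofReal_ne_top
  have hcs : ∑' k, c k = ENNReal.ofReal ((1 - r)⁻¹) := tsum_geo r hr0.le hr1
  refine ⟨(∑' k, c k) ^ (s - 1) * (ENNReal.ofReal ((1 - ρ)⁻¹) * (2 ^ (s - 2) * 2)), ?_, ?_⟩
  · rw [hcs]
    refine ENNReal.mul_ne_top (ENNReal.rpow_ne_top_of_nonneg (by linarith) ENNReal.ofReal_ne_top)
      (ENNReal.mul_ne_top ENNReal.ofReal_ne_top (ENNReal.mul_ne_top
        (ENNReal.rpow_ne_top_of_nonneg (by linarith) (by norm_num)) (by norm_num)))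
  intro A hA hA1 K hK
  have hm : ∀ k, Measurable (Qf ((Vk k).indicator K)) := fun k =>
    Qf_meas _ (hK.meas.indicator (Vk_meas k))
  calc ∫⁻ τ, ‖Qf K τ‖ₑ ^ s ≤ ∫⁻ τ, (∑' k, c k) ^ (s - 1) *
        ∑' k, c k ^ (1 - s) * ‖Qf ((Vk k).indicator K) τ‖ₑ ^ s := by
        refine lintegral_mono fun τ => ?_
        refine le_trans ?_ (jensen_tsum s (by linarith) _ c hc0 hc1)
        exact ENNReal.rpow_le_rpow (Qf_sum hA hA1 hK τ) (by linarith)
    _ = (∑' k, c k) ^ (s - 1) * ∑' k, c k ^ (1 - s) *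
        ∫⁻ τ, ‖Qf ((Vk k).indicator K) τ‖ₑ ^ s := by
        rw [lintegral_const_mul]
        · congr 1
          rw [lintegral_tsum]
          · congr 1
            ext k
            rw [lintegral_const_mul]
            exact (hm k).enorm.pow_const _
          · intro k
            exact (((hm k).enorm.pow_const _).const_mul _).aemeasurable
        · exact Measurable.tsum fun k => ((hm k).enorm.pow_const _).const_mul _
    _ ≤ (∑' k, c k) ^ (s - 1) * ∑' k, ENNReal.ofReal (ρ ^ k) *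
        ((2 ^ (s - 2) * 2) * volume A ^ (s - 1)) := by
        refine mul_le_mul_right (ENNReal.tsum_le_tsum fun k => ?_) _
        have h1 := shell_s hA hA1 hK s hs k
        calc c k ^ (1 - s) * ∫⁻ τ, ‖Qf ((Vk k).indicator K) τ‖ₑ ^ s
            ≤ c k ^ (1 - s) * ((ENNReal.ofReal (2 * (1 / 2) ^ k) * volume A) ^ (s - 2) *
              (2 * volume A)) := by gcongr
          _ = (c k ^ (1 - s) * ENNReal.ofReal ((1 / 2) ^ k) ^ (s - 2)) *
              ((2 ^ (s - 2) * 2) * (volume A ^ (s - 2) * volume A)) := by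
              rw [ENNReal.ofReal_mul (by norm_num), ENNReal.mul_rpow_of_nonneg _ _ (by linarith),
                ENNReal.mul_rpow_of_nonneg _ _ (by linarith),
                show ENNReal.ofReal 2 = 2 by norm_num]
              ring
          _ = ENNReal.ofReal (ρ ^ k) * ((2 ^ (s - 2) * 2) * volume A ^ (s - 1)) := by
              have e2 : c k ^ (1 - s) * ENNReal.ofReal ((1 / 2) ^ k) ^ (s - 2) =
                  ENNReal.ofReal (ρ ^ k) := by
                rw [hc]
                simp only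
                rw [ENNReal.ofReal_rpow_of_pos (by positivity),
                  ENNReal.ofReal_rpow_of_pos (by positivity),
                  ← ENNReal.ofReal_mul (by positivity)]
                congr 1
                exact exps s hs k
              have e3 : volume A ^ (s - 2) * volume A = volume A ^ (s - 1) := by
                nth_rw 2 [← ENNReal.rpow_one (volume A)]
                rw [← ENNReal.rpow_add_of_nonneg _ _ (by linarith) (by norm_num)]
                congr 1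
                ring
              rw [e2, e3]
    _ = _ := by
        rw [ENNReal.tsum_mul_right, tsum_geo ρ hρ0.le hρ1]
        ring

end Pool.Agent.K4H66.RV
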