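import Mathlib
import Pool.Agent.K4H66.RV.A2
import Pool.Agent.R412.RT.T1
set_option autoImplicit false

/-! The extension estimate for kernels with a bounded Hilbert space factorization. -/

namespace Pool.Agent.K4H66.RV

open MeasureTheory Complex Set Filter Topology
open scoped ENNReal RealInnerProductSpace ComplexConjugate
open Pool.Agent.R412.RT (E ee ee_norm ee_add ee_conj ee_meas ee_cont)
open Pool.Agent.R412.RH (planch1)

/-- the extension operator of the parabola -/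
noncomputable def Pf (u : ℝ → ℂ) (α t : ℝ) : ℂ := ∫ x, ee (x * α + x ^ 2 * t) * u x

/-- a vector of functions, bounded by one in `ℓ^2`, supported in `A` -/
structure Vec {ι : Type} [Fintype ι] (A : Set ℝ) (u : ι → ℝ → ℂ) : Prop where
  meas : ∀ i, Measurable (u i)
  bd : ∀ x, ∑ i, ‖u i x‖ ^ 2 ≤ 1
  supp : ∀ i x, u i x ≠ 0 → x ∈ A

variable {ι : Type} [Fintype ι]

theorem volA {A : Set ℝ} (hA1 : A ⊆ Icc (-(1 / 2)) (1 / 2)) : volume A ≤ 1 := by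
  have := measure_mono (μ := volume) hA1
  rw [Real.volume_Icc] at this
  refine this.trans (le_of_eq ?_)
  norm_num

theorem Vec.one {A : Set ℝ} {u : ι → ℝ → ℂ} (hu : Vec A u) (i : ι) (x : ℝ) : ‖u i x‖ ≤ 1 := by
  have h1 : ‖u i x‖ ^ 2 ≤ ∑ i, ‖u i x‖ ^ 2 :=
    Finset.single_le_sum (f := fun i => ‖u i x‖ ^ 2) (fun j _ => by positivity) (Finset.mem_univ i)
  have h2 := h1.trans (hu.bd x)
  have h3 := norm_nonneg (u i x)
  nlinarith

theorem Vec.int {A : Set ℝ} (hA : MeasurableSet A) (hA1 : A ⊆ Icc (-(1 / 2)) (1 / 2))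
    {u : ι → ℝ → ℂ} (hu : Vec A u) (i : ι) : Integrable (u i) := by
  have h3 : Integrable (A.indicator fun _ : ℝ => (1 : ℝ)) := by
    rw [integrable_indicator_iff hA]
    exact integrableOn_const (ne_top_of_le_ne_top ENNReal.one_ne_top (volA hA1))
  refine h3.mono' (hu.meas i).aestronglyMeasurable (Eventually.of_forall fun p => ?_)
  by_cases hp : p ∈ A
  · rw [indicator_of_mem hp]
    exact hu.one i p
  · rw [indicator_of_notMem hp]
    have : u i p = 0 := by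
      by_contra hne
      exact hp (hu.supp i p hne)
    rw [this, norm_zero]

theorem ph_int (u : ℝ → ℂ) (hu : Integrable u) (α t : ℝ) :
    Integrable fun x => ee (x * α + x ^ 2 * t) * u x := by
  refine hu.bdd_mul (c := 1) ?_ (Eventually.of_forall fun x => (ee_norm _).le)
  exact (ee_meas.comp (by fun_prop)).aestronglyMeasurable

theorem Pf_meas (u : ℝ → ℂ) (hu : Measurable u) : Measurable fun τ : ℝ × ℝ => Pf u τ.1 τ.2 := by
  have : StronglyMeasurable (Function.uncurry fun (τ : ℝ × ℝ) (x : ℝ) =>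
      ee (x * τ.1 + x ^ 2 * τ.2) * u x) := by
    refine Measurable.stronglyMeasurable (Measurable.mul (ee_meas.comp ?_)
      (hu.comp measurable_snd))
    fun_prop
  exact this.integral_prod_right.measurable

/-- the kernel -/
noncomputable def Kr (u : ι → ℝ → ℂ) (p : ℝ × ℝ) : ℂ := ∑ i, u i p.1 * conj (u i p.2)

theorem Kr_ker {A : Set ℝ} {u : ι → ℝ → ℂ} (hu : Vec A u) : Ker A (Kr u) := by
  refine ⟨?_, ?_, ?_⟩
  · unfold Kr
    refine Finset.measurable_sum _ fun i _ => ?_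
    exact ((hu.meas i).comp measurable_fst).mul
      (Complex.continuous_conj.measurable.comp ((hu.meas i).comp measurable_snd))
  · intro p
    unfold Kr
    have h1 : ∀ i, ‖u i p.1 * conj (u i p.2)‖ ≤ (‖u i p.1‖ ^ 2 + ‖u i p.2‖ ^ 2) / 2 := by
      intro i
      rw [norm_mul, RCLike.norm_conj]
      nlinarith [sq_nonneg (‖u i p.1‖ - ‖u i p.2‖)]
    calc ‖∑ i, u i p.1 * conj (u i p.2)‖ ≤ ∑ i, ‖u i p.1 * conj (u i p.2)‖ := norm_sum_le _ _
      _ ≤ ∑ i, (‖u i p.1‖ ^ 2 + ‖u i p.2‖ ^ 2) / 2 := Finset.sum_le_sum fun i _ => h1 i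
      _ = (∑ i, ‖u i p.1‖ ^ 2 + ∑ i, ‖u i p.2‖ ^ 2) / 2 := by
          rw [← Finset.sum_div, Finset.sum_add_distrib]
      _ ≤ 1 := by linarith [hu.bd p.1, hu.bd p.2]
  · intro p hp
    unfold Kr at hp
    obtain ⟨i, -, hi⟩ := Finset.exists_ne_zero_of_sum_ne_zero hp
    constructor
    · exact hu.supp i _ (left_ne_zero_of_mul hi)
    · refine hu.supp i _ fun h => ?_
      rw [h, map_zero, mul_zero] at hi
      exact hi rfl

theorem Qf_Kr {A : Set ℝ} (hA : MeasurableSet A) (hA1 : A ⊆ Icc (-(1 / 2)) (1 / 2))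
    {u : ι → ℝ → ℂ} (hu : Vec A u) (τ : ℝ × ℝ) :
    Qf (Kr u) τ = ((∑ i, ‖Pf (u i) τ.1 τ.2‖ ^ 2 : ℝ) : ℂ) := by
  have h1 : ∀ i, ∫ p : ℝ × ℝ, ee (dph τ p) * (u i p.1 * conj (u i p.2)) =
      ((‖Pf (u i) τ.1 τ.2‖ ^ 2 : ℝ) : ℂ) := by
    intro i
    have h2 : ∀ p : ℝ × ℝ, ee (dph τ p) * (u i p.1 * conj (u i p.2)) =
        (ee (p.1 * τ.1 + p.1 ^ 2 * τ.2) * u i p.1) *
          conj (ee (p.2 * τ.1 + p.2 ^ 2 * τ.2) * u i p.2) := by
      intro p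
      rw [map_mul, ee_conj]
      have : dph τ p = (p.1 * τ.1 + p.1 ^ 2 * τ.2) + -(p.2 * τ.1 + p.2 ^ 2 * τ.2) := by
        unfold dph; ring
      rw [this, ee_add]
      ring
    simp_rw [h2]
    rw [Measure.volume_eq_prod, integral_prod_mul
      (fun x => ee (x * τ.1 + x ^ 2 * τ.2) * u i x)
      (fun x => conj (ee (x * τ.1 + x ^ 2 * τ.2) * u i x)), integral_conj]
    show Pf (u i) τ.1 τ.2 * conj (Pf (u i) τ.1 τ.2) = _
    rw [Complex.mul_conj, Complex.normSq_eq_norm_sq]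
  unfold Qf Kr
  simp_rw [Finset.mul_sum]
  rw [integral_finsetSum, Complex.ofReal_sum]
  · exact Finset.sum_congr rfl fun i _ => h1 i
  · intro i _
    have h3 : Integrable fun p : ℝ × ℝ => u i p.1 * conj (u i p.2) := by
      rw [Measure.volume_eq_prod]
      have h4 : Integrable fun x => conj (u i x) :=
        ((hu.int hA hA1 i).norm).mono' (Complex.continuous_conj.measurable.comp
          (hu.meas i)).aestronglyMeasurable (Eventually.of_forall fun x => by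
          simp [RCLike.norm_conj])
      exact Integrable.mul_prod (hu.int hA hA1 i) h4
    refine h3.bdd_mul (c := 1) ?_ (Eventually.of_forall fun x => (ee_norm _).le)
    refine (ee_meas.comp ?_).aestronglyMeasurable
    unfold dph
    fun_prop

/-- the square function -/
noncomputable def Sq (u : ι → ℝ → ℂ) (α t : ℝ) : ℝ≥0∞ := ∑ i, ‖Pf (u i) α t‖ₑ ^ 2

theorem Sq_meas {A : Set ℝ} {u : ι → ℝ → ℂ} (hu : Vec A u) :
    Measurable fun τ : ℝ × ℝ => Sq u τ.1 τ.2 := by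
  unfold Sq
  exact Finset.measurable_sum _ fun i _ => (Pf_meas _ (hu.meas i)).enorm.pow_const 2

theorem Sq_eq {A : Set ℝ} (hA : MeasurableSet A) (hA1 : A ⊆ Icc (-(1 / 2)) (1 / 2))
    {u : ι → ℝ → ℂ} (hu : Vec A u) (τ : ℝ × ℝ) : Sq u τ.1 τ.2 = ‖Qf (Kr u) τ‖ₑ := by
  rw [Qf_Kr hA hA1 hu, ← ofReal_norm, Complex.norm_real, Real.norm_of_nonneg
    (Finset.sum_nonneg fun i _ => by positivity), ENNReal.ofReal_sum_of_nonneg
    (fun i _ => by positivity)]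
  unfold Sq
  refine Finset.sum_congr rfl fun i _ => ?_
  rw [← ofReal_norm, ENNReal.ofReal_pow (norm_nonneg _)]

theorem Sq_one {A : Set ℝ} (hA : MeasurableSet A) (hA1 : A ⊆ Icc (-(1 / 2)) (1 / 2))
    {u : ι → ℝ → ℂ} (hu : Vec A u) (t : ℝ) : ∫⁻ α, Sq u α t ≤ volume A := by
  unfold Sq
  have hm : ∀ i, Measurable fun α => ‖Pf (u i) α t‖ₑ ^ 2 := fun i =>
    ((Pf_meas _ (hu.meas i)).comp (measurable_id.prodMk measurable_const)).enorm.pow_const 2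
  rw [lintegral_finsetSum _ fun i _ => hm i]
  have h1 : ∀ i, ∫⁻ α, ‖Pf (u i) α t‖ₑ ^ 2 ≤ ∫⁻ x, ‖u i x‖ₑ ^ 2 := by
    intro i
    have hi : Integrable fun x => ee (x ^ 2 * t) * u i x := by
      refine (hu.int hA hA1 i).bdd_mul (c := 1) ?_ (Eventually.of_forall fun x => (ee_norm _).le)
      exact (ee_meas.comp (by fun_prop)).aestronglyMeasurable
    have h := planch1 _ hi
    calc ∫⁻ α, ‖Pf (u i) α t‖ₑ ^ 2 = ∫⁻ β : ℝ, ‖∫ x, ee (x * β) * (ee (x ^ 2 * t) * u i x)‖ₑ ^ 2 := by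
          refine lintegral_congr fun α => ?_
          unfold Pf
          simp_rw [← mul_assoc, ← ee_add]
      _ ≤ ∫⁻ x, ‖ee (x ^ 2 * t) * u i x‖ₑ ^ 2 := h
      _ = ∫⁻ x, ‖u i x‖ₑ ^ 2 := by
          refine lintegral_congr fun x => ?_
          rw [enorm_mul, ← ofReal_norm (ee _), ee_norm, ENNReal.ofReal_one, one_mul]
  calc ∑ i, ∫⁻ α, ‖Pf (u i) α t‖ₑ ^ 2 ≤ ∑ i, ∫⁻ x, ‖u i x‖ₑ ^ 2 :=
        Finset.sum_le_sum fun i _ => h1 i
    _ = ∫⁻ x, ∑ i, ‖u i x‖ₑ ^ 2 := by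
        rw [lintegral_finsetSum]
        exact fun i _ => (hu.meas i).enorm.pow_const 2
    _ ≤ ∫⁻ x, A.indicator 1 x := by
        refine lintegral_mono fun x => ?_
        by_cases hx : x ∈ A
        · rw [indicator_of_mem hx, Pi.one_apply, ← ENNReal.ofReal_one]
          refine le_trans (le_of_eq ?_) (ENNReal.ofReal_le_ofReal (hu.bd x))
          rw [ENNReal.ofReal_sum_of_nonneg (fun i _ => by positivity)]
          refine Finset.sum_congr rfl fun i _ => ?_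
          rw [← ofReal_norm, ENNReal.ofReal_pow (norm_nonneg _)]
        · rw [indicator_of_notMem hx]
          refine le_of_eq (Finset.sum_eq_zero fun i _ => ?_)
          have : u i x = 0 := by
            by_contra hne
            exact hx (hu.supp i x hne)
          rw [this, enorm_zero]
          norm_num
    _ = volume A := lintegral_indicator_one hA

theorem half_mul (x : ℝ≥0∞) (q : ℝ) (hq : 3 < q) :
    x ^ (1 / 2 : ℝ) * x ^ ((q - 1) / 2) = x ^ (q / 2) := by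
  rw [← ENNReal.rpow_add_of_nonneg _ _ (by norm_num) (by linarith)]
  congr 1
  ring

theorem half_two (x : ℝ≥0∞) : (x ^ (1 / 2 : ℝ)) ^ (2 : ℝ) = x := by
  rw [← ENNReal.rpow_mul]
  norm_num

theorem half_two' (x : ℝ≥0∞) : (x ^ (1 / 2 : ℝ)) ^ 2 = x := by
  rw [← ENNReal.rpow_two, half_two]

theorem half_q (x : ℝ≥0∞) (q : ℝ) : (x ^ ((q - 1) / 2)) ^ (2 : ℝ) = x ^ (q - 1) := by
  rw [← ENNReal.rpow_mul]
  congr 1
  ring

theorem cs_half (f : ℝ → ℝ≥0∞) (hf : Measurable f) (q : ℝ) (hq : 3 < q) :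
    (∫⁻ α, f α ^ (q / 2)) ^ 2 ≤ (∫⁻ α, f α) * ∫⁻ α, f α ^ (q - 1) := by
  have h2 := ENNReal.lintegral_mul_le_Lp_mul_Lq (volume : Measure ℝ) (p := 2) (q := 2)
      (Real.HolderConjugate.two_two) (f := fun α => f α ^ (1 / 2 : ℝ))
      (g := fun α => f α ^ ((q - 1) / 2)) (hf.pow_const _).aemeasurable
      (hf.pow_const _).aemeasurable
  have e1 : ∫⁻ α, f α ^ (q / 2) = ∫⁻ α, ((fun α => f α ^ (1 / 2 : ℝ)) *
      fun α => f α ^ ((q - 1) / 2)) α := by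
    refine lintegral_congr fun α => ?_
    exact (half_mul (f α) q hq).symm
  have e2 : ∫⁻ α, (f α ^ (1 / 2 : ℝ)) ^ (2 : ℝ) = ∫⁻ α, f α :=
    lintegral_congr fun α => half_two (f α)
  have e3 : ∫⁻ α, (f α ^ ((q - 1) / 2)) ^ (2 : ℝ) = ∫⁻ α, f α ^ (q - 1) :=
    lintegral_congr fun α => half_q (f α) q
  rw [← e1, e2, e3] at h2
  refine (pow_le_pow_left' h2 2).trans (le_of_eq ?_)
  rw [mul_pow, half_two', half_two']

theorem Sq_meas1 {A : Set ℝ} {u : ι → ℝ → ℂ} (hu : Vec A u) (t : ℝ) :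
    Measurable fun α => Sq u α t :=
  (Sq_meas hu).comp (g := fun τ : ℝ × ℝ => Sq u τ.1 τ.2) (f := fun α : ℝ => (α, t)) (by fun_prop)

theorem mx0 (x : ℝ≥0∞) (q : ℝ) (hq : 3 < q) : x * x ^ (q - 1 - 1) = x ^ (q - 1) := by
  nth_rw 1 [← ENNReal.rpow_one x]
  rw [← ENNReal.rpow_add_of_nonneg _ _ (by norm_num) (by linarith)]
  congr 1
  ring

theorem mx1 (q : ℝ) (hq : 3 < q) (A : Set ℝ)
    (u : ι → ℝ → ℂ) (hA : MeasurableSet A) (hA1 : A ⊆ Icc (-(1 / 2)) (1 / 2)) (hu : Vec A u)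
    (t : ℝ) :
    (∫⁻ α, Sq u α t ^ (q / 2)) ^ 2 ≤ volume A * ∫⁻ α, Sq u α t ^ (q - 1) := by
  have h1 := cs_half (fun α => Sq u α t) (Sq_meas1 hu t) q hq
  refine h1.trans ?_
  exact mul_le_mul_left (Sq_one hA hA1 hu t) _

theorem mx2 (q : ℝ) (A : Set ℝ)
    (u : ι → ℝ → ℂ) (hu : Vec A u) :
    ∫⁻ t, volume A * ∫⁻ α, Sq u α t ^ (q - 1) =
      volume A * ∫⁻ τ : ℝ × ℝ, Sq u τ.1 τ.2 ^ (q - 1) := by
  have hm := (Sq_meas hu).pow_const (q - 1)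
  rw [lintegral_const_mul]
  · congr 1
    rw [Measure.volume_eq_prod, lintegral_prod_symm _ hm.aemeasurable]
  · exact (hm.comp measurable_swap).lintegral_prod_right'

theorem mx3 (q : ℝ) (A : Set ℝ)
    (u : ι → ℝ → ℂ) (hA : MeasurableSet A) (hA1 : A ⊆ Icc (-(1 / 2)) (1 / 2)) (hu : Vec A u) :
    ∫⁻ τ : ℝ × ℝ, Sq u τ.1 τ.2 ^ (q - 1) = ∫⁻ τ : ℝ × ℝ, ‖Qf (Kr u) τ‖ₑ ^ (q - 1) := by
  refine lintegral_congr fun τ => ?_
  rw [Sq_eq hA hA1 hu]

/-- mixed norm estimate -/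
theorem mixed (q : ℝ) (hq : 3 < q) : ∃ C : ℝ≥0∞, C ≠ ∞ ∧ ∀ (ι : Type) [Fintype ι] (A : Set ℝ)
    (u : ι → ℝ → ℂ), MeasurableSet A → A ⊆ Icc (-(1 / 2)) (1 / 2) → Vec A u →
    ∫⁻ t, (∫⁻ α, Sq u α t ^ (q / 2)) ^ 2 ≤ C * volume A ^ (q - 1) := by
  obtain ⟨C, hC, h⟩ := VP (q - 1) (by linarith)
  refine ⟨C, hC, ?_⟩
  intro ι _ A u hA hA1 hu
  have h5 := h A hA hA1 (Kr u) (Kr_ker hu)
  refine (lintegral_mono (fun t => mx1 q hq A u hA hA1 hu t)).trans ?_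
  rw [mx2 q A u hu, mx3 q A u hA hA1 hu]
  refine (mul_le_mul_right h5 _).trans (le_of_eq ?_)
  rw [← mx0 (volume A) q hq]
  ring

/-- phase of the paraboloid; the frequency is `ω = (t, (α, β))` -/
def pph (ω : ℝ × (ℝ × ℝ)) (p : ℝ × ℝ) : ℝ :=
  p.1 * ω.2.1 + p.2 * ω.2.2 + (p.1 ^ 2 + p.2 ^ 2) * ω.1

/-- the extension operator of the paraboloid -/
noncomputable def Ef (F : ℝ × ℝ → ℂ) (ω : ℝ × (ℝ × ℝ)) : ℂ := ∫ p : ℝ × ℝ, ee (pph ω p) * F p

theorem Ef_meas (F : ℝ × ℝ → ℂ) (hF : Measurable F) : Measurable (Ef F) := by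
  have : StronglyMeasurable (Function.uncurry fun (ω : ℝ × (ℝ × ℝ)) (p : ℝ × ℝ) =>
      ee (pph ω p) * F p) := by
    refine Measurable.stronglyMeasurable (Measurable.mul (ee_meas.comp ?_)
      (hF.comp measurable_snd))
    unfold pph
    fun_prop
  exact this.integral_prod_right.measurable

theorem pph_int (F : ℝ × ℝ → ℂ) (hF : Integrable F) (ω : ℝ × (ℝ × ℝ)) :
    Integrable fun p => ee (pph ω p) * F p := by
  refine hF.bdd_mul (c := 1) ?_ (Eventually.of_forall fun x => (ee_norm _).le)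
  refine (ee_meas.comp ?_).aestronglyMeasurable
  unfold pph
  fun_prop

theorem Ef_le (F : ℝ × ℝ → ℂ) (ω : ℝ × (ℝ × ℝ)) : ‖Ef F ω‖ₑ ≤ ∫⁻ p, ‖F p‖ₑ := by
  unfold Ef
  refine (enorm_integral_le_lintegral_enorm _).trans (le_of_eq (lintegral_congr fun p => ?_))
  rw [enorm_mul, ← ofReal_norm (ee _), ee_norm, ENNReal.ofReal_one, one_mul]

theorem Ef_fac {A B : Set ℝ} (hA : MeasurableSet A) (hA1 : A ⊆ Icc (-(1 / 2)) (1 / 2))
    (hB : MeasurableSet B) (hB1 : B ⊆ Icc (-(1 / 2)) (1 / 2))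
    {u v : ι → ℝ → ℂ} (hu : Vec A u) (hv : Vec B v) (ω : ℝ × (ℝ × ℝ)) :
    Ef (fun p => ∑ i, u i p.1 * v i p.2) ω =
      ∑ i, Pf (u i) ω.2.1 ω.1 * Pf (v i) ω.2.2 ω.1 := by
  unfold Ef
  simp_rw [Finset.mul_sum]
  rw [integral_finsetSum]
  · refine Finset.sum_congr rfl fun i _ => ?_
    have h2 : ∀ p : ℝ × ℝ, ee (pph ω p) * (u i p.1 * v i p.2) =
        (ee (p.1 * ω.2.1 + p.1 ^ 2 * ω.1) * u i p.1) *
          (ee (p.2 * ω.2.2 + p.2 ^ 2 * ω.1) * v i p.2) := by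
      intro p
      have : pph ω p = (p.1 * ω.2.1 + p.1 ^ 2 * ω.1) + (p.2 * ω.2.2 + p.2 ^ 2 * ω.1) := by
        unfold pph; ring
      rw [this, ee_add]
      ring
    simp_rw [h2]
    rw [Measure.volume_eq_prod, integral_prod_mul
      (fun x => ee (x * ω.2.1 + x ^ 2 * ω.1) * u i x)
      (fun x => ee (x * ω.2.2 + x ^ 2 * ω.1) * v i x)]
    rfl
  · intro i _
    refine pph_int _ ?_ ω
    rw [Measure.volume_eq_prod]
    exact Integrable.mul_prod (hu.int hA hA1 i) (hv.int hB hB1 i)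

theorem cs_enorm (a b : ι → ℂ) : ‖∑ i, a i * b i‖ₑ ^ 2 ≤ (∑ i, ‖a i‖ₑ ^ 2) * ∑ i, ‖b i‖ₑ ^ 2 := by
  have h1 : ‖∑ i, a i * b i‖ ^ 2 ≤ (∑ i, ‖a i‖ ^ 2) * ∑ i, ‖b i‖ ^ 2 := by
    calc ‖∑ i, a i * b i‖ ^ 2 ≤ (∑ i, ‖a i‖ * ‖b i‖) ^ 2 := by
          gcongr
          refine (norm_sum_le _ _).trans (Finset.sum_le_sum fun i _ => ?_)
          rw [norm_mul]
      _ ≤ _ := Finset.sum_mul_sq_le_sq_mul_sq _ _ _
  have h2 : ∀ c : ι → ℂ, ∑ i, ‖c i‖ₑ ^ 2 = ENNReal.ofReal (∑ i, ‖c i‖ ^ 2) := by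
    intro c
    rw [ENNReal.ofReal_sum_of_nonneg (fun i _ => by positivity)]
    refine Finset.sum_congr rfl fun i _ => ?_
    rw [← ofReal_norm, ENNReal.ofReal_pow (norm_nonneg _)]
  rw [h2, h2, ← ENNReal.ofReal_mul (Finset.sum_nonneg fun i _ => by positivity), ← ofReal_norm,
    ← ENNReal.ofReal_pow (norm_nonneg _)]
  exact ENNReal.ofReal_le_ofReal h1

/-- **extension estimate for kernels with a bounded factorization** -/
theorem facEst (q : ℝ) (hq : 3 < q) : ∃ C : ℝ≥0∞, C ≠ ∞ ∧ ∀ (ι : Type) [Fintype ι] (A B : Set ℝ)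
    (u v : ι → ℝ → ℂ), MeasurableSet A → A ⊆ Icc (-(1 / 2)) (1 / 2) → MeasurableSet B →
    B ⊆ Icc (-(1 / 2)) (1 / 2) → Vec A u → Vec B v →
    ∫⁻ ω, ‖Ef (fun p => ∑ i, u i p.1 * v i p.2) ω‖ₑ ^ q ≤
      C * (volume A * volume B) ^ ((q - 1) / 2) := by
  obtain ⟨C, hC, h⟩ := mixed q hq
  refine ⟨C, hC, fun ι _ A B u v hA hA1 hB hB1 hu hv => ?_⟩
  have hmu := Sq_meas hu
  have hmv := Sq_meas hv
  have h1 : ∀ ω : ℝ × (ℝ × ℝ), ‖Ef (fun p => ∑ i, u i p.1 * v i p.2) ω‖ₑ ^ q ≤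
      Sq u ω.2.1 ω.1 ^ (q / 2) * Sq v ω.2.2 ω.1 ^ (q / 2) := by
    intro ω
    rw [Ef_fac hA hA1 hB hB1 hu hv, ← ENNReal.mul_rpow_of_nonneg _ _ (by linarith)]
    have h2 := cs_enorm (fun i => Pf (u i) ω.2.1 ω.1) (fun i => Pf (v i) ω.2.2 ω.1)
    have h3 := ENNReal.rpow_le_rpow h2 (by linarith : 0 ≤ q / 2)
    refine le_trans (le_of_eq ?_) h3
    rw [← ENNReal.rpow_natCast, ← ENNReal.rpow_mul]
    congr 1
    push_cast
    ring
  have hmF : Measurable fun t => ∫⁻ α, Sq u α t ^ (q / 2) :=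
    ((hmu.pow_const (q / 2)).comp measurable_swap).lintegral_prod_right'
  have hmG : Measurable fun t => ∫⁻ α, Sq v α t ^ (q / 2) :=
    ((hmv.pow_const (q / 2)).comp measurable_swap).lintegral_prod_right'
  have hmuv : Measurable fun ω : ℝ × (ℝ × ℝ) => Sq u ω.2.1 ω.1 ^ (q / 2) *
      Sq v ω.2.2 ω.1 ^ (q / 2) := by
    refine Measurable.mul ?_ ?_
    · exact (hmu.pow_const (q / 2)).comp (g := fun τ : ℝ × ℝ => Sq u τ.1 τ.2 ^ (q / 2))
        (f := fun ω : ℝ × (ℝ × ℝ) => (ω.2.1, ω.1)) (by fun_prop)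
    · exact (hmv.pow_const (q / 2)).comp (g := fun τ : ℝ × ℝ => Sq v τ.1 τ.2 ^ (q / 2))
        (f := fun ω : ℝ × (ℝ × ℝ) => (ω.2.2, ω.1)) (by fun_prop)
  calc ∫⁻ ω, ‖Ef (fun p => ∑ i, u i p.1 * v i p.2) ω‖ₑ ^ q
      ≤ ∫⁻ ω : ℝ × (ℝ × ℝ), Sq u ω.2.1 ω.1 ^ (q / 2) * Sq v ω.2.2 ω.1 ^ (q / 2) :=
        lintegral_mono h1
    _ = ∫⁻ t : ℝ, ∫⁻ η : ℝ × ℝ, Sq u η.1 t ^ (q / 2) * Sq v η.2 t ^ (q / 2) := by
        rw [Measure.volume_eq_prod, lintegral_prod _ hmuv.aemeasurable]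
    _ = ∫⁻ t : ℝ, (∫⁻ α, Sq u α t ^ (q / 2)) * ∫⁻ β, Sq v β t ^ (q / 2) := by
        refine lintegral_congr fun t => ?_
        rw [Measure.volume_eq_prod]
        exact lintegral_prod_mul
          ((Sq_meas1 hu t).pow_const (q / 2)).aemeasurable
          ((Sq_meas1 hv t).pow_const (q / 2)).aemeasurable
    _ ≤ (∫⁻ t, (∫⁻ α, Sq u α t ^ (q / 2)) ^ (2 : ℝ)) ^ (1 / 2 : ℝ) *
        (∫⁻ t, (∫⁻ β, Sq v β t ^ (q / 2)) ^ (2 : ℝ)) ^ (1 / 2 : ℝ) :=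
        ENNReal.lintegral_mul_le_Lp_mul_Lq (volume : Measure ℝ) (Real.HolderConjugate.two_two)
          hmF.aemeasurable hmG.aemeasurable
    _ ≤ (C * volume A ^ (q - 1)) ^ (1 / 2 : ℝ) * (C * volume B ^ (q - 1)) ^ (1 / 2 : ℝ) := by
        have h5 := h ι A u hA hA1 hu
        have h6 := h ι B v hB hB1 hv
        simp only [ENNReal.rpow_two]
        gcongr
    _ = C * (volume A * volume B) ^ ((q - 1) / 2) := by
        rw [← ENNReal.mul_rpow_of_nonneg _ _ (by norm_num),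
          show C * volume A ^ (q - 1) * (C * volume B ^ (q - 1)) =
            C ^ 2 * (volume A ^ (q - 1) * volume B ^ (q - 1)) by ring,
          ← ENNReal.mul_rpow_of_nonneg _ _ (by linarith), ENNReal.mul_rpow_of_nonneg _ _
          (by norm_num), ← ENNReal.rpow_mul, ← ENNReal.rpow_two, ← ENNReal.rpow_mul]
        congr 2
        · norm_num
        · ring

end Pool.Agent.K4H66.RV
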