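import Mathlib
import Pool.Agent.K4H66.RV.A3
set_option autoImplicit false

/-! Factorizable kernels and ladders. -/

namespace Pool.Agent.K4H66.RV

open MeasureTheory Complex Set Filter Topology
open scoped ENNReal RealInnerProductSpace ComplexConjugate

/-- `D` has a factorization of size `κ` -/
def Fac (κ : ℝ) (D : ℝ × ℝ → ℂ) : Prop :=
  ∃ (ι : Type) (_ : Fintype ι) (u v : ι → ℝ → ℂ), (∀ i, Measurable (u i)) ∧
    (∀ i, Measurable (v i)) ∧ (∀ x, ∑ i, ‖u i x‖ ^ 2 ≤ κ) ∧ (∀ y, ∑ i, ‖v i y‖ ^ 2 ≤ κ) ∧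
    ∀ p, D p = ∑ i, u i p.1 * v i p.2

theorem Fac.mono {κ κ' : ℝ} {D : ℝ × ℝ → ℂ} (h : Fac κ D) (hk : κ ≤ κ') : Fac κ' D := by
  obtain ⟨ι, i1, u, v, h1, h2, h3, h4, h5⟩ := h
  exact ⟨ι, i1, u, v, h1, h2, fun x => (h3 x).trans hk, fun y => (h4 y).trans hk, h5⟩

theorem Fac.add {κ κ' : ℝ} {D D' : ℝ × ℝ → ℂ} (h : Fac κ D) (h' : Fac κ' D') :
    Fac (κ + κ') (fun p => D p + D' p) := by
  obtain ⟨ι, i1, u, v, h1, h2, h3, h4, h5⟩ := h
  obtain ⟨ι', i1', u', v', h1', h2', h3', h4', h5'⟩ := h'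
  refine ⟨ι ⊕ ι', inferInstance, Sum.elim u u', Sum.elim v v', ?_, ?_, ?_, ?_, ?_⟩
  · rintro (i | i)
    · exact h1 i
    · exact h1' i
  · rintro (i | i)
    · exact h2 i
    · exact h2' i
  · intro x
    rw [Fintype.sum_sum_type]
    exact add_le_add (h3 x) (h3' x)
  · intro y
    rw [Fintype.sum_sum_type]
    exact add_le_add (h4 y) (h4' y)
  · intro p
    show D p + D' p = _
    rw [Fintype.sum_sum_type, h5, h5']
    rfl

theorem Fac.mul {κ κ' : ℝ} {D D' : ℝ × ℝ → ℂ} (hκ : 0 ≤ κ) (h : Fac κ D) (h' : Fac κ' D') :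
    Fac (κ * κ') (fun p => D p * D' p) := by
  obtain ⟨ι, i1, u, v, h1, h2, h3, h4, h5⟩ := h
  obtain ⟨ι', i1', u', v', h1', h2', h3', h4', h5'⟩ := h'
  refine ⟨ι × ι', inferInstance, fun i x => u i.1 x * u' i.2 x, fun i x => v i.1 x * v' i.2 x,
    ?_, ?_, ?_, ?_, ?_⟩
  · exact fun i => (h1 i.1).mul (h1' i.2)
  · exact fun i => (h2 i.1).mul (h2' i.2)
  · intro x
    rw [Fintype.sum_prod_type]
    simp only [norm_mul, mul_pow]
    rw [← Finset.sum_mul_sum]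
    exact mul_le_mul (h3 x) (h3' x) (Finset.sum_nonneg fun i _ => by positivity) hκ
  · intro y
    rw [Fintype.sum_prod_type]
    simp only [norm_mul, mul_pow]
    rw [← Finset.sum_mul_sum]
    exact mul_le_mul (h4 y) (h4' y) (Finset.sum_nonneg fun i _ => by positivity) hκ
  · intro p
    show D p * D' p = _
    rw [h5, h5', Finset.sum_mul_sum, Fintype.sum_prod_type]
    refine Finset.sum_congr rfl fun i _ => Finset.sum_congr rfl fun j _ => ?_
    ring

theorem Fac.swap {κ : ℝ} {D : ℝ × ℝ → ℂ} (h : Fac κ D) : Fac κ (fun p => D p.swap) := by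
  obtain ⟨ι, i1, u, v, h1, h2, h3, h4, h5⟩ := h
  refine ⟨ι, i1, v, u, h2, h1, h4, h3, fun p => ?_⟩
  show D p.swap = _
  rw [h5]
  refine Finset.sum_congr rfl fun i _ => ?_
  rw [Prod.fst_swap, Prod.snd_swap, mul_comm]

theorem Fac.zero : Fac 0 (fun _ => 0) := by
  refine ⟨Empty, inferInstance, fun _ _ => 0, fun _ _ => 0, by simp, by simp, by simp, by simp,
    by simp⟩

theorem Fac.one : Fac 1 (fun _ => 1) := by
  refine ⟨Unit, inferInstance, fun _ _ => 1, fun _ _ => 1, by simp, by simp, by simp, by simp,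
    by simp⟩

/-- the unit square -/
def Sqr : Set (ℝ × ℝ) := Icc (-(1 / 2)) (1 / 2) ×ˢ Icc (-(1 / 2)) (1 / 2)

theorem Sqr_meas : MeasurableSet Sqr := measurableSet_Icc.prod measurableSet_Icc

/-- a ladder for `F`: approximations with slowly growing factorizations -/
structure Lad (m : ℕ) (C : ℝ) (F : ℝ × ℝ → ℂ) (G : ℕ → ℝ × ℝ → ℂ) : Prop where
  one : 1 ≤ C
  measF : Measurable F
  meas : ∀ n, Measurable (G n)
  bdF : ∀ p, ‖F p‖ ≤ C
  bd : ∀ n p, ‖G n p‖ ≤ C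
  err : ∀ n, ∫⁻ p in Sqr, ‖F p - G n p‖ₑ ^ 2 ≤ ENNReal.ofReal (C ^ 2 * (1 / 2) ^ n)
  fac0 : Fac C (G 0)
  fac : ∀ n : ℕ, Fac (C * ((n : ℝ) + 1) ^ m) (fun p => G (n + 1) p - G n p)

theorem Lad.facG {m : ℕ} {C : ℝ} {F : ℝ × ℝ → ℂ} {G : ℕ → ℝ × ℝ → ℂ} (h : Lad m C F G) (n : ℕ) :
    Fac (C * ((n : ℝ) + 1) ^ (m + 1)) (G n) := by
  have hC : 0 ≤ C := zero_le_one.trans h.one
  induction n with
  | zero =>
    refine h.fac0.mono ?_
    simp
  | succ n ih =>
    have h1 := ih.add (h.fac n)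
    have e1 : (fun p => G n p + (G (n + 1) p - G n p)) = G (n + 1) := by
      ext p; ring
    rw [e1] at h1
    refine h1.mono ?_
    have h2 : (0 : ℝ) ≤ (n : ℝ) + 1 := by positivity
    have h3 : ((n : ℝ) + 1) ^ m ≤ ((n : ℝ) + 1 + 1) ^ m := pow_le_pow_left₀ h2 (by linarith) m
    have h4 : C * ((n : ℝ) + 1) ^ (m + 1) + C * ((n : ℝ) + 1) ^ m =
        C * (((n : ℝ) + 1) ^ m * ((n : ℝ) + 1 + 1)) := by ring
    rw [h4]
    push_cast
    rw [pow_succ ((n : ℝ) + 1 + 1) m]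
    gcongr

theorem Lad.unit : Lad 0 1 (fun _ => 1) (fun _ _ => 1) := by
  refine ⟨le_rfl, measurable_const, fun _ => measurable_const, by simp, by simp, ?_, Fac.one, ?_⟩
  · intro n
    simp
  · intro n
    simp only [sub_self, pow_zero, mul_one]
    exact Fac.zero.mono zero_le_one

theorem Lad.swap {m : ℕ} {C : ℝ} {F : ℝ × ℝ → ℂ} {G : ℕ → ℝ × ℝ → ℂ} (h : Lad m C F G) :
    Lad m C (fun p => F p.swap) (fun n p => G n p.swap) := by
  refine ⟨h.one, h.measF.comp measurable_swap, fun n => (h.meas n).comp measurable_swap,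
    fun p => h.bdF _, fun n p => h.bd n _, ?_, h.fac0.swap, fun n => (h.fac n).swap⟩
  intro n
  refine le_trans (le_of_eq ?_) (h.err n)
  have h1 : MeasurePreserving (Prod.swap : ℝ × ℝ → ℝ × ℝ) volume volume :=
    Measure.measurePreserving_swap
  have h2 := h1.setLIntegral_comp_preimage (s := Sqr) Sqr_meas
    (f := fun p => ‖F p - G n p‖ₑ ^ 2) (((h.measF.sub (h.meas n)).enorm.pow_const 2))
  rw [← h2]
  have h3 : Prod.swap ⁻¹' Sqr = Sqr := by
    ext p
    simp only [Sqr, mem_preimage, mem_prod, Prod.fst_swap, Prod.snd_swap]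
    exact and_comm
  rw [h3]

theorem en2 (a : ℂ) : ‖a‖ₑ ^ 2 = ENNReal.ofReal (‖a‖ ^ 2) := by
  rw [← ofReal_norm, ENNReal.ofReal_pow (norm_nonneg _)]

theorem Lad.mul {m m' : ℕ} {C C' : ℝ} {F F' : ℝ × ℝ → ℂ} {G G' : ℕ → ℝ × ℝ → ℂ}
    (h : Lad m C F G) (h' : Lad m' C' F' G') :
    Lad (m + m' + 1) (2 ^ (m + m' + 2) * (C * C')) (fun p => F p * F' p)
      (fun n p => G n p * G' n p) := by
  have hC := h.one
  have hC' := h'.one
  have hC0 : 0 ≤ C := zero_le_one.trans hC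
  have hC0' : 0 ≤ C' := zero_le_one.trans hC'
  have h2 : (1 : ℝ) ≤ 2 ^ (m + m' + 2) := one_le_pow₀ (by norm_num)
  have h22 : (2 : ℝ) ≤ 2 ^ (m + m' + 2) := by
    calc (2 : ℝ) = 2 ^ 1 := by norm_num
      _ ≤ _ := pow_le_pow_right₀ (by norm_num) (by omega)
  have hCC : C * C' ≤ 2 ^ (m + m' + 2) * (C * C') := le_mul_of_one_le_left (by positivity) h2
  refine ⟨(one_le_mul_of_one_le_of_one_le hC hC').trans hCC, h.measF.mul h'.measF,
    fun n => (h.meas n).mul (h'.meas n), ?_, ?_, ?_, ?_, ?_⟩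
  · intro p
    rw [norm_mul]
    exact (mul_le_mul (h.bdF p) (h'.bdF p) (norm_nonneg _) hC0).trans hCC
  · intro n p
    rw [norm_mul]
    exact (mul_le_mul (h.bd n p) (h'.bd n p) (norm_nonneg _) hC0).trans hCC
  · intro n
    have h3 : ∀ p, ‖F p * F' p - G n p * G' n p‖ₑ ^ 2 ≤
        ENNReal.ofReal (2 * C ^ 2) * ‖F' p - G' n p‖ₑ ^ 2 +
          ENNReal.ofReal (2 * C' ^ 2) * ‖F p - G n p‖ₑ ^ 2 := by
      intro p
      rw [en2, en2, en2, ← ENNReal.ofReal_mul (by positivity), ← ENNReal.ofReal_mul (by positivity),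
        ← ENNReal.ofReal_add (by positivity) (by positivity)]
      refine ENNReal.ofReal_le_ofReal ?_
      have e1 : F p * F' p - G n p * G' n p = F p * (F' p - G' n p) + (F p - G n p) * G' n p := by
        ring
      have h4 : ‖F p * F' p - G n p * G' n p‖ ≤ C * ‖F' p - G' n p‖ + ‖F p - G n p‖ * C' := by
        rw [e1]
        refine (norm_add_le _ _).trans ?_
        rw [norm_mul, norm_mul]
        exact add_le_add (mul_le_mul_of_nonneg_right (h.bdF p) (norm_nonneg _))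
          (mul_le_mul_of_nonneg_left (h'.bd n p) (norm_nonneg _))
      calc ‖F p * F' p - G n p * G' n p‖ ^ 2
          ≤ (C * ‖F' p - G' n p‖ + ‖F p - G n p‖ * C') ^ 2 :=
            pow_le_pow_left₀ (norm_nonneg _) h4 2
        _ ≤ _ := by nlinarith [sq_nonneg (C * ‖F' p - G' n p‖ - ‖F p - G n p‖ * C')]
    calc ∫⁻ p in Sqr, ‖F p * F' p - G n p * G' n p‖ₑ ^ 2
        ≤ ∫⁻ p in Sqr, (ENNReal.ofReal (2 * C ^ 2) * ‖F' p - G' n p‖ₑ ^ 2 +
          ENNReal.ofReal (2 * C' ^ 2) * ‖F p - G n p‖ₑ ^ 2) := lintegral_mono h3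
      _ = ENNReal.ofReal (2 * C ^ 2) * (∫⁻ p in Sqr, ‖F' p - G' n p‖ₑ ^ 2) +
          ENNReal.ofReal (2 * C' ^ 2) * ∫⁻ p in Sqr, ‖F p - G n p‖ₑ ^ 2 := by
          have hm1 : Measurable fun p => ‖F' p - G' n p‖ₑ ^ 2 :=
            (h'.measF.sub (h'.meas n)).enorm.pow_const 2
          have hm2 : Measurable fun p => ‖F p - G n p‖ₑ ^ 2 :=
            (h.measF.sub (h.meas n)).enorm.pow_const 2
          rw [lintegral_add_left (hm1.const_mul _), lintegral_const_mul _ hm1,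
            lintegral_const_mul _ hm2]
      _ ≤ ENNReal.ofReal (2 * C ^ 2) * ENNReal.ofReal (C' ^ 2 * (1 / 2) ^ n) +
          ENNReal.ofReal (2 * C' ^ 2) * ENNReal.ofReal (C ^ 2 * (1 / 2) ^ n) := by
          gcongr
          · exact h'.err n
          · exact h.err n
      _ = ENNReal.ofReal (2 ^ 2 * (C * C') ^ 2 * (1 / 2) ^ n) := by
          rw [← ENNReal.ofReal_mul (by positivity), ← ENNReal.ofReal_mul (by positivity),
            ← ENNReal.ofReal_add (by positivity) (by positivity)]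
          congr 1
          ring
      _ ≤ _ := by
          refine ENNReal.ofReal_le_ofReal (mul_le_mul_of_nonneg_right ?_ (by positivity))
          rw [← mul_pow]
          exact pow_le_pow_left₀ (by positivity)
            (mul_le_mul_of_nonneg_right h22 (by positivity)) 2
  · exact (Fac.mul hC0 h.fac0 h'.fac0).mono hCC
  · intro n
    have h5 := Fac.mul (by positivity) (h.fac n) (h'.facG (n + 1))
    have h6 := Fac.mul (by positivity) (h.facG n) (h'.fac n)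
    have h7 := h5.add h6
    have e2 : (fun p => (G (n + 1) p - G n p) * G' (n + 1) p + G n p * (G' (n + 1) p - G' n p)) =
        fun p => G (n + 1) p * G' (n + 1) p - G n p * G' n p := by
      ext p; ring
    rw [e2] at h7
    refine h7.mono ?_
    have hn : (0 : ℝ) ≤ (n : ℝ) := Nat.cast_nonneg n
    have hb : ((n + 1 : ℕ) : ℝ) + 1 ≤ 2 * ((n : ℝ) + 1) := by push_cast; linarith
    have hb0 : (0 : ℝ) ≤ ((n + 1 : ℕ) : ℝ) + 1 := by positivity
    have h8 : (((n + 1 : ℕ) : ℝ) + 1) ^ (m' + 1) ≤ 2 ^ (m' + 1) * ((n : ℝ) + 1) ^ (m' + 1) := by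
      rw [← mul_pow]
      exact pow_le_pow_left₀ hb0 hb _
    have h9 : (2 : ℝ) ^ (m' + 1) ≤ 2 ^ (m + m' + 1) := pow_le_pow_right₀ (by norm_num) (by omega)
    have h10 : (1 : ℝ) ≤ 2 ^ (m + m' + 1) := one_le_pow₀ (by norm_num)
    calc C * ((n : ℝ) + 1) ^ m * (C' * (((n + 1 : ℕ) : ℝ) + 1) ^ (m' + 1)) +
          C * ((n : ℝ) + 1) ^ (m + 1) * (C' * ((n : ℝ) + 1) ^ m')
        ≤ C * ((n : ℝ) + 1) ^ m * (C' * (2 ^ (m + m' + 1) * ((n : ℝ) + 1) ^ (m' + 1))) +
          2 ^ (m + m' + 1) * (C * ((n : ℝ) + 1) ^ (m + 1) * (C' * ((n : ℝ) + 1) ^ m')) := by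
          refine add_le_add ?_ (le_mul_of_one_le_left (by positivity) h10)
          refine mul_le_mul_of_nonneg_left (mul_le_mul_of_nonneg_left (h8.trans ?_) hC0')
            (by positivity)
          exact mul_le_mul_of_nonneg_right h9 (by positivity)
      _ = 2 ^ (m + m' + 2) * (C * C') * ((n : ℝ) + 1) ^ (m + m' + 1) := by ring

end Pool.Agent.K4H66.RV
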