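import Mathlib
import Pool.Agent.K4H66.RV.A4
set_option autoImplicit false

/-! Quantiles and the ladder of a chain. -/

namespace Pool.Agent.K4H66.RV

open MeasureTheory Complex Set Filter Topology
open scoped ENNReal RealInnerProductSpace ComplexConjugate
open ProbabilityTheory

section quantile

variable (μ : Measure ℝ)

/-- the quantile function -/
noncomputable def quant (τ : ℝ) : ℝ := sInf {s | τ ≤ cdf μ s}

theorem qs_ne {τ : ℝ} (h : τ < 1) : {s | τ ≤ cdf μ s}.Nonempty := by
  have h1 := (tendsto_cdf_atTop μ).eventually (eventually_gt_nhds h)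
  obtain ⟨s, hs⟩ := h1.exists
  exact ⟨s, hs.le⟩

theorem qs_bdd {τ : ℝ} (h : 0 < τ) : BddBelow {s | τ ≤ cdf μ s} := by
  have h1 := (tendsto_cdf_atBot μ).eventually (eventually_lt_nhds h)
  obtain ⟨s, hs⟩ := h1.exists
  refine ⟨s, fun r hr => ?_⟩
  by_contra hlt
  have h2 := monotone_cdf μ (not_le.1 hlt).le
  exact absurd (le_trans hr h2) (not_le.2 hs)

theorem quant_mono {τ τ' : ℝ} (h0 : 0 < τ) (h1 : τ' < 1) (h : τ ≤ τ') :
    quant μ τ ≤ quant μ τ' :=
  csInf_le_csInf (qs_bdd μ h0) (qs_ne μ h1) fun _ hs => le_trans h hs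

theorem quant_lt {τ s : ℝ} (h0 : 0 < τ) (h : s < quant μ τ) : cdf μ s < τ := by
  by_contra hlt
  exact absurd (csInf_le (qs_bdd μ h0) (not_lt.1 hlt)) (not_le.2 h)

theorem quant_le {τ : ℝ} (h1 : τ < 1) : τ ≤ cdf μ (quant μ τ) := by
  have h2 : ContinuousWithinAt (cdf μ) (Ioi (quant μ τ)) (quant μ τ) :=
    ((cdf μ).right_continuous (quant μ τ)).mono Ioi_subset_Ici_self
  refine ge_of_tendsto h2 ?_
  filter_upwards [self_mem_nhdsWithin] with s hs
  obtain ⟨r, hr, hrs⟩ := exists_lt_of_csInf_lt (qs_ne μ h1) hs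
  exact le_trans hr (monotone_cdf μ hrs.le)

theorem quant_left {τ : ℝ} (h0 : 0 < τ) : Function.leftLim (cdf μ) (quant μ τ) ≤ τ := by
  refine le_of_tendsto ((monotone_cdf μ).tendsto_leftLim _) ?_
  filter_upwards [self_mem_nhdsWithin] with s hs
  exact (quant_lt μ h0 hs).le

variable [IsProbabilityMeasure μ]

theorem quant_Iio {τ : ℝ} (h0 : 0 < τ) : μ (Iio (quant μ τ)) ≤ ENNReal.ofReal τ := by
  have h := (cdf μ).measure_Iio (tendsto_cdf_atBot μ) (quant μ τ)
  rw [measure_cdf, sub_zero] at h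
  rw [h]
  exact ENNReal.ofReal_le_ofReal (quant_left μ h0)

theorem quant_Ioi {τ : ℝ} (h1 : τ < 1) : μ (Ioi (quant μ τ)) ≤ ENNReal.ofReal (1 - τ) := by
  have h := (cdf μ).measure_Ioi (tendsto_cdf_atTop μ) (quant μ τ)
  rw [measure_cdf] at h
  rw [h]
  exact ENNReal.ofReal_le_ofReal (by linarith [quant_le μ h1])

theorem quant_Ioo {τ τ' : ℝ} (h0 : 0 < τ') (h1 : τ < 1) :
    μ (Ioo (quant μ τ) (quant μ τ')) ≤ ENNReal.ofReal (τ' - τ) := by
  have h := (cdf μ).measure_Ioo (a := quant μ τ) (b := quant μ τ')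
  rw [measure_cdf] at h
  rw [h]
  exact ENNReal.ofReal_le_ofReal (by linarith [quant_le μ h1, quant_left μ h0])

end quantile

/-- bounded 2-variation, including the size -/
def VarTwo (u : ℝ → ℂ) : Prop := ∀ (n : ℕ) (t : ℕ → ℝ), Monotone t →
  ‖u (t 0)‖ ^ 2 + ∑ i ∈ Finset.range n, ‖u (t (i + 1)) - u (t i)‖ ^ 2 ≤ 1

section ladder

variable (μ : Measure ℝ)

/-- cut points -/
noncomputable def sn (n i : ℕ) : ℝ := quant μ ((i : ℝ) / 2 ^ n)

open Classical in
/-- index of the cell -/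
noncomputable def idx (n : ℕ) (σ : ℝ) : ℕ := Nat.findGreatest (fun i => sn μ n i ≤ σ) (2 ^ n - 1)

theorem idx_le (n : ℕ) (σ : ℝ) : idx μ n σ ≤ 2 ^ n - 1 := Nat.findGreatest_le _

theorem idx_lt (n : ℕ) (σ : ℝ) : idx μ n σ < 2 ^ n := by
  have := idx_le μ n σ
  have h : 0 < 2 ^ n := by positivity
  omega

theorem frac_pos {n i : ℕ} (hi : 1 ≤ i) : (0 : ℝ) < (i : ℝ) / 2 ^ n := by
  have : (1 : ℝ) ≤ i := by exact_mod_cast hi
  positivity

theorem frac_lt {n i : ℕ} (hi : i ≤ 2 ^ n - 1) : (i : ℝ) / 2 ^ n < 1 := by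
  rw [div_lt_one (by positivity)]
  have h : 0 < 2 ^ n := by positivity
  have : i < 2 ^ n := by omega
  exact_mod_cast this

theorem sn_mono {n i j : ℕ} (hi : 1 ≤ i) (hij : i ≤ j) (hj : j ≤ 2 ^ n - 1) :
    sn μ n i ≤ sn μ n j := by
  refine quant_mono μ (frac_pos hi) (frac_lt hj) ?_
  have : (i : ℝ) ≤ j := by exact_mod_cast hij
  gcongr

theorem sn_double (n i : ℕ) : sn μ (n + 1) (2 * i) = sn μ n i := by
  unfold sn
  congr 1
  rw [pow_succ]
  push_cast
  rw [mul_comm (2 : ℝ) (i : ℝ), mul_div_mul_right _ _ (by norm_num : (2 : ℝ) ≠ 0)]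

theorem le_idx {n i : ℕ} {σ : ℝ} (hi : 1 ≤ i) (hi2 : i ≤ 2 ^ n - 1) :
    i ≤ idx μ n σ ↔ sn μ n i ≤ σ := by
  constructor
  · intro h
    have h0 : idx μ n σ ≠ 0 := by omega
    have h1 : sn μ n (idx μ n σ) ≤ σ := by
      classical
      unfold idx at h0 ⊢
      exact Nat.findGreatest_of_ne_zero (P := fun i => sn μ n i ≤ σ) rfl h0
    exact (sn_mono μ hi h (idx_le μ n σ)).trans h1
  · intro h
    classical
    unfold idx
    exact Nat.le_findGreatest hi2 h

theorem idx_half (n : ℕ) (σ : ℝ) : idx μ (n + 1) σ / 2 = idx μ n σ := by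
  have hp : 2 ^ (n + 1) = 2 * 2 ^ n := by rw [pow_succ]; ring
  have hpos : 0 < 2 ^ n := by positivity
  have hA := idx_le μ (n + 1) σ
  have hB := idx_le μ n σ
  have key : ∀ i, 1 ≤ i → i ≤ 2 ^ n - 1 → (i ≤ idx μ (n + 1) σ / 2 ↔ i ≤ idx μ n σ) := by
    intro i h1 h2
    rw [le_idx μ h1 h2, ← sn_double, ← le_idx μ (by omega) (by omega)]
    omega
  have hA2 : idx μ (n + 1) σ / 2 ≤ 2 ^ n - 1 := by omega
  apply le_antisymm
  · rcases Nat.eq_zero_or_pos (idx μ (n + 1) σ / 2) with h | h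
    · rw [h]; exact Nat.zero_le _
    · exact (key _ h hA2).1 le_rfl
  · rcases Nat.eq_zero_or_pos (idx μ n σ) with h | h
    · rw [h]; exact Nat.zero_le _
    · exact (key _ h hB).2 le_rfl

theorem idx_monotone (n : ℕ) : Monotone (idx μ n) := by
  intro σ σ' h
  classical
  unfold idx
  exact Nat.findGreatest_mono (fun i hi => le_trans hi h) le_rfl

theorem idx_meas (n : ℕ) : Measurable (idx μ n) := (idx_monotone μ n).measurable

/-- value attached to a cell -/
noncomputable def cv (H : ℝ → ℝ → ℂ) (n i : ℕ) (y : ℝ) : ℂ := if i = 0 then 0 else H (sn μ n i) y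

theorem cv_double (H : ℝ → ℝ → ℂ) (n i : ℕ) (y : ℝ) : cv μ H (n + 1) (2 * i) y = cv μ H n i y := by
  unfold cv
  rcases Nat.eq_zero_or_pos i with h | h
  · simp [h]
  · rw [if_neg (by omega), if_neg (by omega), sn_double]

theorem sum_odd (f : ℕ → ℝ) (hf : ∀ i, 0 ≤ f i) (M : ℕ) :
    ∑ j ∈ Finset.range M, f (2 * j + 1) ≤ ∑ i ∈ Finset.range (2 * M), f i := by
  induction M with
  | zero => simp
  | succ M ih =>
    rw [Finset.sum_range_succ, show 2 * (M + 1) = 2 * M + 1 + 1 by ring, Finset.sum_range_succ,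
      Finset.sum_range_succ]
    linarith [hf (2 * M)]

theorem sum_half (f : ℕ → ℝ) (M : ℕ) (h : ∀ i, f (2 * i) = 0) :
    ∑ j ∈ Finset.range (2 * M), f j = ∑ i ∈ Finset.range M, f (2 * i + 1) := by
  induction M with
  | zero => simp
  | succ M ih =>
    rw [Finset.sum_range_succ, show 2 * (M + 1) = 2 * M + 1 + 1 by ring, Finset.sum_range_succ,
      Finset.sum_range_succ, ih, h]
    ring

theorem cv_one {H : ℝ → ℝ → ℂ} {y : ℝ} (hH : VarTwo fun s => H s y) (n i : ℕ) :
    ‖cv μ H n i y‖ ≤ 1 := by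
  unfold cv
  split_ifs with h
  · simp
  · have h1 := hH 0 (fun _ => sn μ n i) monotone_const
    simp only [Finset.range_zero, Finset.sum_empty, add_zero] at h1
    have h2 := norm_nonneg (H (sn μ n i) y)
    nlinarith

/-- the increments at the odd cut points -/
theorem inc_le {H : ℝ → ℝ → ℂ} {y : ℝ} (hH : VarTwo fun s => H s y) (n : ℕ) :
    ∑ i ∈ Finset.range (2 ^ n), ‖cv μ H (n + 1) (2 * i + 1) y - cv μ H n i y‖ ^ 2 ≤ 1 := by
  set M := 2 ^ (n + 1) - 1 with hM
  have hp : 2 ^ (n + 1) = 2 * 2 ^ n := by rw [pow_succ]; ring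
  have hpos : 0 < 2 ^ n := by positivity
  have hmono : Monotone fun i : ℕ => sn μ (n + 1) (min (i + 1) M) := by
    intro i j hij
    refine sn_mono μ ?_ ?_ ?_
    · rw [le_min_iff]; omega
    · exact min_le_min (by omega) le_rfl
    · exact min_le_right _ _
  have h1 := hH (M - 1) _ hmono
  obtain ⟨K, hK⟩ : ∃ K, 2 ^ n = K + 1 := ⟨2 ^ n - 1, by omega⟩
  have hM1 : M - 1 = 2 * K := by omega
  rw [hM1] at h1
  refine le_trans ?_ h1
  rw [hK, Finset.sum_range_succ']
  have h0 : ‖cv μ H (n + 1) (2 * 0 + 1) y - cv μ H n 0 y‖ ^ 2 =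
      ‖H (sn μ (n + 1) (min (0 + 1) M)) y‖ ^ 2 := by
    unfold cv
    rw [if_neg (by omega), if_pos rfl, sub_zero, min_eq_left (by omega)]
  rw [h0, add_comm]
  refine add_le_add le_rfl ?_
  refine le_trans ?_ (sum_odd (fun i => ‖H (sn μ (n + 1) (min (i + 1 + 1) M)) y -
    H (sn μ (n + 1) (min (i + 1) M)) y‖ ^ 2) (fun i => by positivity) K)
  refine Finset.sum_le_sum fun i hi => ?_
  rw [Finset.mem_range] at hi
  rw [← cv_double μ H n (i + 1)]
  unfold cv
  rw [if_neg (by omega), if_neg (by omega), min_eq_left (by omega), min_eq_left (by omega)]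
  have e1 : 2 * (i + 1) + 1 = 2 * i + 1 + 1 + 1 := by ring
  have e2 : 2 * (i + 1) = 2 * i + 1 + 1 := by ring
  rw [e1, e2]

/-- the error function -/
noncomputable def er (H : ℝ → ℝ → ℂ) (n : ℕ) (y σ : ℝ) : ℝ≥0∞ :=
  ‖H σ y - cv μ H n (idx μ n σ) y‖ₑ ^ 2

/-- any choice of points in the cells -/
theorem choice_le {H : ℝ → ℝ → ℂ} {y : ℝ} (hH : VarTwo fun s => H s y) (n : ℕ) (c : ℕ → ℝ) :
    ∑ j ∈ Finset.range (2 ^ n), (if idx μ n (c j) = j then ‖H (c j) y - cv μ H n j y‖ ^ 2 else 0) ≤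
      1 := by
  obtain ⟨M, hM⟩ : ∃ M, 2 ^ n = M + 1 := ⟨2 ^ n - 1, by
    have hpos : 0 < 2 ^ n := by positivity
    omega⟩
  -- the modified choice
  set d : ℕ → ℝ := fun j => if idx μ n (c j) = j then c j else
    (if j = 0 then sn μ n 1 else sn μ n j) with hd
  have hd1 : ∀ j, 1 ≤ j → j ≤ M → sn μ n j ≤ d j := by
    intro j h1 h2
    simp only [hd]
    split_ifs with h3 h4
    · exact (le_idx μ h1 (by omega)).1 h3.ge
    · omega
    · exact le_rfl
  have hd2 : ∀ j, j + 1 ≤ M → d j ≤ sn μ n (j + 1) := by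
    intro j h2
    simp only [hd]
    split_ifs with h3 h4
    · by_contra h5
      have h6 := (le_idx μ (by omega) (by omega)).2 (not_le.1 h5).le
      omega
    · rw [h4]
    · exact sn_mono μ (by omega) (by omega) (by omega)
  -- the interlaced sequence
  set t : ℕ → ℝ := fun i => if min i (2 * M) % 2 = 0 then d (min i (2 * M) / 2) else
    sn μ n (min i (2 * M) / 2 + 1) with ht
  have htm : Monotone t := by
    refine monotone_nat_of_le_succ fun i => ?_
    simp only [ht]
    rcases lt_or_ge i (2 * M) with h | h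
    · rw [min_eq_left h.le, min_eq_left (by omega)]
      rcases Nat.mod_two_eq_zero_or_one i with h1 | h1
      · rw [if_pos h1, if_neg (by omega)]
        have : (i + 1) / 2 = i / 2 := by omega
        rw [this]
        exact hd2 _ (by omega)
      · rw [if_neg (by omega), if_pos (by omega)]
        have : (i + 1) / 2 = i / 2 + 1 := by omega
        rw [this]
        exact hd1 _ (by omega) (by omega)
    · rw [min_eq_right h, min_eq_right (by omega)]
  have h1 := hH (2 * M) t htm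
  refine le_trans ?_ h1
  rw [hM, Finset.sum_range_succ', add_comm]
  refine add_le_add ?_ ?_
  · split_ifs with h0
    · have : t 0 = c 0 := by
        simp only [ht, hd]
        rw [Nat.zero_min, if_pos (by norm_num), Nat.zero_div, if_pos h0]
      rw [this]
      unfold cv
      rw [if_pos rfl, sub_zero]
    · positivity
  · refine le_trans ?_ (sum_odd (fun i => ‖H (t (i + 1)) y - H (t i) y‖ ^ 2)
      (fun i => by positivity) M)
    refine Finset.sum_le_sum fun j hj => ?_
    rw [Finset.mem_range] at hj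
    split_ifs with h0
    · have e1 : t (2 * j + 1 + 1) = c (j + 1) := by
        simp only [ht, hd]
        rw [min_eq_left (by omega), if_pos (by omega)]
        have : (2 * j + 1 + 1) / 2 = j + 1 := by omega
        rw [this, if_pos h0]
      have e2 : t (2 * j + 1) = sn μ n (j + 1) := by
        simp only [ht]
        rw [min_eq_left (by omega), if_neg (by omega)]
        have : (2 * j + 1) / 2 = j := by omega
        rw [this]
      rw [e1, e2]
      unfold cv
      rw [if_neg (by omega)]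
    · positivity

theorem sup_le {H : ℝ → ℝ → ℂ} {y : ℝ} (hH : VarTwo fun s => H s y) (n : ℕ) :
    ∑ j ∈ Finset.range (2 ^ n), ⨆ σ : ℝ, (if idx μ n σ = j then er μ H n y σ else 0) ≤ 1 := by
  set a : ℕ → ℝ → ℝ≥0∞ := fun j σ => if idx μ n σ = j then er μ H n y σ else 0 with ha
  have h1 : ∑ j ∈ Finset.range (2 ^ n), ⨆ c : ℕ → ℝ, a j (c j) =
      ⨆ c : ℕ → ℝ, ∑ j ∈ Finset.range (2 ^ n), a j (c j) := by
    refine ENNReal.finsetSum_iSup (f := fun j (c : ℕ → ℝ) => a j (c j)) ?_
    intro c c'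
    classical
    refine ⟨fun j => if a j (c j) ≤ a j (c' j) then c' j else c j, fun j => ?_⟩
    simp only
    split_ifs with h
    · exact ⟨h, le_rfl⟩
    · exact ⟨le_rfl, (not_le.1 h).le⟩
  calc ∑ j ∈ Finset.range (2 ^ n), ⨆ σ : ℝ, a j σ
      ≤ ∑ j ∈ Finset.range (2 ^ n), ⨆ c : ℕ → ℝ, a j (c j) := by
        refine Finset.sum_le_sum fun j _ => ?_
        exact iSup_le fun σ => le_iSup (fun c : ℕ → ℝ => a j (c j)) (fun _ => σ)
    _ = ⨆ c : ℕ → ℝ, ∑ j ∈ Finset.range (2 ^ n), a j (c j) := h1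
    _ ≤ 1 := by
        refine iSup_le fun c => ?_
        have h2 := choice_le μ hH n c
        have h3 : ∑ j ∈ Finset.range (2 ^ n), a j (c j) = ENNReal.ofReal
            (∑ j ∈ Finset.range (2 ^ n), (if idx μ n (c j) = j then
              ‖H (c j) y - cv μ H n j y‖ ^ 2 else 0)) := by
          rw [ENNReal.ofReal_sum_of_nonneg]
          · refine Finset.sum_congr rfl fun j _ => ?_
            simp only [ha]
            split_ifs with h4
            · unfold er
              rw [h4, en2]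
            · rw [ENNReal.ofReal_zero]
          · intro j _
            split_ifs
            · positivity
            · exact le_rfl
        rw [h3, ← ENNReal.ofReal_one]
        exact ENNReal.ofReal_le_ofReal h2

variable [IsProbabilityMeasure μ]

/-- cells without their left end point have small measure -/
theorem cell_small (n j : ℕ) (hj : j < 2 ^ n) :
    μ {σ | idx μ n σ = j ∧ (j ≠ 0 → σ ≠ sn μ n j)} ≤ ENNReal.ofReal ((1 / 2) ^ n) := by
  have h2 : (0 : ℝ) < 2 ^ n := by positivity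
  have hup : ∀ σ, idx μ n σ = j → j + 1 ≤ 2 ^ n - 1 → σ < sn μ n (j + 1) := by
    intro σ h h3
    by_contra h4
    have := (le_idx μ (by omega) h3).2 (not_lt.1 h4)
    omega
  have hlo : ∀ σ, idx μ n σ = j → 1 ≤ j → sn μ n j ≤ σ := fun σ h h3 =>
    (le_idx μ h3 (by omega)).1 h.ge
  rcases Nat.eq_zero_or_pos j with h0 | h0
  · subst h0
    rcases le_or_gt (0 + 1) (2 ^ n - 1) with h3 | h3
    · refine (measure_mono (t := Iio (sn μ n (0 + 1))) fun σ hσ => hup σ hσ.1 h3).trans ?_
      refine (quant_Iio μ (frac_pos (by omega))).trans (ENNReal.ofReal_le_ofReal ?_)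
      push_cast
      simp only [one_div, inv_pow, le_refl]
    · have hn : 2 ^ n = 1 := by omega
      have hn0 : n = 0 := by
        by_contra h
        have := Nat.one_lt_two_pow h
        omega
      subst hn0
      refine (measure_mono (subset_univ _)).trans ?_
      rw [measure_univ]
      simp
  · rcases le_or_gt (j + 1) (2 ^ n - 1) with h3 | h3
    · refine (measure_mono (t := Ioo (sn μ n j) (sn μ n (j + 1))) fun σ hσ => ?_).trans ?_
      · exact ⟨lt_of_le_of_ne (hlo σ hσ.1 h0) (hσ.2 (by omega)).symm, hup σ hσ.1 h3⟩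
      · refine (quant_Ioo μ (frac_pos (by omega)) (frac_lt (by omega))).trans
          (ENNReal.ofReal_le_ofReal ?_)
        push_cast
        rw [← sub_div, add_sub_cancel_left, one_div, one_div, inv_pow]
    · refine (measure_mono (t := Ioi (sn μ n j)) fun σ hσ =>
        lt_of_le_of_ne (hlo σ hσ.1 h0) (hσ.2 (by omega)).symm).trans ?_
      refine (quant_Ioi μ (frac_lt (by omega))).trans (ENNReal.ofReal_le_ofReal ?_)
      have h4 : (j : ℝ) = 2 ^ n - 1 := by
        have h5 : j + 1 = 2 ^ n := by omega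
        have h6 : ((j + 1 : ℕ) : ℝ) = 2 ^ n := by exact_mod_cast h5
        push_cast at h6
        linarith
      rw [h4, sub_div, div_self h2.ne', one_div, one_div, inv_pow]
      linarith

/-- the mean square error -/
theorem err_le {H : ℝ → ℝ → ℂ} {y : ℝ}
    (hH : VarTwo fun s => H s y) (n : ℕ) :
    ∫⁻ σ, er μ H n y σ ∂μ ≤ ENNReal.ofReal ((1 / 2) ^ n) := by
  set O : ℕ → Set ℝ := fun j => {σ | idx μ n σ = j ∧ (j ≠ 0 → σ ≠ sn μ n j)} with hO
  have hOm : ∀ j, MeasurableSet (O j) := by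
    intro j
    have h1 : MeasurableSet {σ | idx μ n σ = j} := (idx_meas μ n) (measurableSet_singleton j)
    have h2 : MeasurableSet {σ : ℝ | j ≠ 0 → σ ≠ sn μ n j} := by
      by_cases h : j = 0
      · have : {σ : ℝ | j ≠ 0 → σ ≠ sn μ n j} = univ := by
          ext σ; simp [h]
        rw [this]
        exact MeasurableSet.univ
      · have : {σ : ℝ | j ≠ 0 → σ ≠ sn μ n j} = {sn μ n j}ᶜ := by
          ext σ; simp [h]
        rw [this]
        exact (measurableSet_singleton _).compl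
    exact h1.inter h2
  set W : ℕ → ℝ≥0∞ := fun j => ⨆ σ : ℝ, (if idx μ n σ = j then er μ H n y σ else 0) with hW
  have h1 : ∀ σ, er μ H n y σ ≤ ∑ j ∈ Finset.range (2 ^ n), (O j).indicator (fun _ => W j) σ := by
    intro σ
    set j := idx μ n σ with hj
    by_cases hσ : σ ∈ O j
    · have h2 : er μ H n y σ ≤ W j := by
        refine le_trans (le_of_eq ?_) (le_iSup (fun σ => if idx μ n σ = j then er μ H n y σ else 0) σ)
        rw [if_pos hj.symm]
      refine h2.trans ?_
      have h3 : (O j).indicator (fun _ => W j) σ = W j := indicator_of_mem hσ _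
      calc W j = (O j).indicator (fun _ => W j) σ := h3.symm
        _ ≤ _ := Finset.single_le_sum (f := fun j => (O j).indicator (fun _ => W j) σ)
          (fun i _ => zero_le) (Finset.mem_range.2 (idx_lt μ n σ))
    · have h4 : j ≠ 0 ∧ σ = sn μ n j := by
        by_contra h
        refine hσ ⟨rfl, fun h5 h6 => h ⟨h5, h6⟩⟩
      have h5 : er μ H n y σ = 0 := by
        unfold er cv
        rw [← hj, if_neg h4.1, ← h4.2, sub_self, enorm_zero]
        norm_num
      rw [h5]
      exact zero_le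
  calc ∫⁻ σ, er μ H n y σ ∂μ
      ≤ ∫⁻ σ, ∑ j ∈ Finset.range (2 ^ n), (O j).indicator (fun _ => W j) σ ∂μ := lintegral_mono h1
    _ = ∑ j ∈ Finset.range (2 ^ n), W j * μ (O j) := by
        rw [lintegral_finsetSum _ fun j _ => measurable_const.indicator (hOm j)]
        refine Finset.sum_congr rfl fun j _ => ?_
        rw [lintegral_indicator (hOm j), setLIntegral_const]
    _ ≤ ∑ j ∈ Finset.range (2 ^ n), W j * ENNReal.ofReal ((1 / 2) ^ n) := by
        refine Finset.sum_le_sum fun j hj => ?_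
        exact mul_le_mul_right (cell_small μ n j (Finset.mem_range.1 hj)) _
    _ = (∑ j ∈ Finset.range (2 ^ n), W j) * ENNReal.ofReal ((1 / 2) ^ n) := by
        rw [Finset.sum_mul]
    _ ≤ 1 * ENNReal.ofReal ((1 / 2) ^ n) := mul_le_mul_left (sup_le μ hH n) _
    _ = _ := one_mul _

end ladder

end Pool.Agent.K4H66.RV
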