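import Mathlib
import Pool.Agent.K4H66.RV.A5
set_option autoImplicit false

/-! Ladders for products of chains. -/

namespace Pool.Agent.K4H66.RV

open MeasureTheory Complex Set Filter Topology
open scoped ENNReal RealInnerProductSpace ComplexConjugate
open ProbabilityTheory

/-- the base interval -/
def Ib : Set ℝ := Icc (-(1 / 2)) (1 / 2)

theorem Ib_meas : MeasurableSet Ib := measurableSet_Icc

theorem Ib_vol : volume Ib = 1 := by
  unfold Ib
  rw [Real.volume_Icc]
  norm_num

theorem vol_Sqr : volume.restrict Sqr = (volume.restrict Ib).prod (volume.restrict Ib) := by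
  rw [Measure.prod_restrict]
  rfl

/-- a chain: bounded 2-variation in the first variable after a rearrangement -/
def IsChain (F : ℝ × ℝ → ℂ) : Prop :=
  ∃ (φ : ℝ → ℝ) (H : ℝ → ℝ → ℂ), Measurable φ ∧ (Measurable fun p : ℝ × ℝ => H p.1 p.2) ∧
    (∀ y, VarTwo fun s => H s y) ∧ ∀ p, F p = H (φ p.1) p.2

theorem chain_lad (F : ℝ × ℝ → ℂ) (hF : IsChain F) : ∃ G, Lad 0 1 F G := by
  obtain ⟨φ, H, hφ, hH, hV, hFe⟩ := hF
  have hI : IsProbabilityMeasure (volume.restrict Ib) := ⟨by
    rw [Measure.restrict_apply_univ, Ib_vol]⟩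
  set μ : Measure ℝ := (volume.restrict Ib).map φ with hμ
  have hP : IsProbabilityMeasure μ := Measure.isProbabilityMeasure_map hφ.aemeasurable
  have hcm : ∀ n i, Measurable fun y => cv μ H n i y := by
    intro n i
    unfold cv
    split_ifs
    · exact measurable_const
    · exact hH.comp (measurable_const.prodMk measurable_id)
  have hone : ∀ s y, ‖H s y‖ ≤ 1 := by
    intro s y
    have h1 := hV y 0 (fun _ => s) monotone_const
    simp only [Finset.range_zero, Finset.sum_empty, add_zero] at h1
    have h2 := norm_nonneg (H s y)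
    nlinarith
  have hFm : Measurable F := by
    have : F = fun p => H (φ p.1) p.2 := funext hFe
    rw [this]
    exact hH.comp ((hφ.comp measurable_fst).prodMk measurable_snd)
  have hsel : ∀ n, Measurable fun p : ℝ × ℝ => idx μ n (φ p.1) := fun n =>
    (idx_meas μ n).comp (hφ.comp measurable_fst)
  have hGm : ∀ n, Measurable fun p : ℝ × ℝ => cv μ H n (idx μ n (φ p.1)) p.2 := by
    intro n
    have h1 : (fun p : ℝ × ℝ => cv μ H n (idx μ n (φ p.1)) p.2) = fun p : ℝ × ℝ =>
        ∑ j ∈ Finset.range (2 ^ n), if idx μ n (φ p.1) = j then cv μ H n j p.2 else 0 := by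
      ext p
      rw [Finset.sum_ite_eq, if_pos (Finset.mem_range.2 (idx_lt μ n _))]
    rw [h1]
    refine Finset.measurable_sum _ fun j _ => ?_
    refine Measurable.ite ((hsel n) (measurableSet_singleton j)) ?_ measurable_const
    exact (hcm n j).comp measurable_snd
  refine ⟨fun n p => cv μ H n (idx μ n (φ p.1)) p.2, le_rfl, hFm, hGm, ?_, ?_, ?_, ?_, ?_⟩
  · intro p
    rw [hFe]
    exact hone _ _
  · intro n p
    exact cv_one μ (hV p.2) n _
  · intro n
    have hme : Measurable fun p : ℝ × ℝ => ‖F p - cv μ H n (idx μ n (φ p.1)) p.2‖ₑ ^ 2 :=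
      (hFm.sub (hGm n)).enorm.pow_const 2
    rw [vol_Sqr, lintegral_prod_symm _ hme.aemeasurable]
    have h1 : ∀ y, ∫⁻ x in Ib, ‖F (x, y) - cv μ H n (idx μ n (φ x)) y‖ₑ ^ 2 ≤
        ENNReal.ofReal ((1 / 2) ^ n) := by
      intro y
      have h2 : Measurable fun σ => er μ H n y σ := by
        have h3 : (fun σ => er μ H n y σ) = fun σ =>
            ‖H σ y - ∑ j ∈ Finset.range (2 ^ n), if idx μ n σ = j then cv μ H n j y else 0‖ₑ ^ 2 := by
          ext σ
          rw [Finset.sum_ite_eq, if_pos (Finset.mem_range.2 (idx_lt μ n _))]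
          rfl
        rw [h3]
        refine (Measurable.enorm ?_).pow_const 2
        refine Measurable.sub ?_ (Finset.measurable_sum _ fun j _ => ?_)
        · exact hH.comp (measurable_id.prodMk measurable_const)
        · exact Measurable.ite ((idx_meas μ n) (measurableSet_singleton j)) measurable_const
            measurable_const
      have h4 := err_le μ (hV y) n
      rw [hμ, lintegral_map h2 hφ] at h4
      refine le_trans (le_of_eq ?_) h4
      refine lintegral_congr fun x => ?_
      rw [hFe]
      rfl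
    calc ∫⁻ y in Ib, ∫⁻ x in Ib, ‖F (x, y) - cv μ H n (idx μ n (φ x)) y‖ₑ ^ 2
        ≤ ∫⁻ _ in Ib, ENNReal.ofReal ((1 / 2) ^ n) := lintegral_mono h1
      _ = ENNReal.ofReal (1 ^ 2 * (1 / 2) ^ n) := by
          rw [setLIntegral_const, Ib_vol, mul_one, one_pow, one_mul]
  · have h1 : (fun p : ℝ × ℝ => cv μ H 0 (idx μ 0 (φ p.1)) p.2) = fun _ => 0 := by
      ext p
      have := idx_le μ 0 (φ p.1)
      have h0 : idx μ 0 (φ p.1) = 0 := by simpa using this
      rw [h0]
      unfold cv
      rw [if_pos rfl]
    rw [h1]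
    exact Fac.zero.mono zero_le_one
  · intro n
    rw [pow_zero, mul_one]
    refine ⟨Fin (2 ^ n), inferInstance,
      fun i x => if idx μ (n + 1) (φ x) = 2 * (i : ℕ) + 1 then 1 else 0,
      fun i y => cv μ H (n + 1) (2 * (i : ℕ) + 1) y - cv μ H n i y, ?_, ?_, ?_, ?_, ?_⟩
    · intro i
      exact Measurable.ite (((idx_meas μ (n + 1)).comp hφ) (measurableSet_singleton _))
        measurable_const measurable_const
    · intro i
      exact (hcm _ _).sub (hcm _ _)
    · intro x
      have h1 : ∀ i : Fin (2 ^ n), ‖(if idx μ (n + 1) (φ x) = 2 * (i : ℕ) + 1 then (1 : ℂ) else 0)‖ ^ 2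
          = if idx μ (n + 1) (φ x) = 2 * (i : ℕ) + 1 then (1 : ℝ) else 0 := by
        intro i
        split_ifs <;> simp
      simp_rw [h1]
      rw [Finset.sum_ite, Finset.sum_const_zero, add_zero, Finset.sum_const, nsmul_eq_mul, mul_one]
      have h2 : (Finset.univ.filter fun i : Fin (2 ^ n) =>
          idx μ (n + 1) (φ x) = 2 * (i : ℕ) + 1).card ≤ 1 := by
        refine Finset.card_le_one.2 fun a ha b hb => ?_
        rw [Finset.mem_filter] at ha hb
        ext
        omega
      exact_mod_cast h2
    · intro y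
      rw [Fin.sum_univ_eq_sum_range (fun i => ‖cv μ H (n + 1) (2 * i + 1) y - cv μ H n i y‖ ^ 2)]
      exact inc_le μ (hV y) n
    · intro p
      simp only
      rw [← idx_half μ n]
      set j := idx μ (n + 1) (φ p.1) with hj
      have hjlt : j < 2 ^ (n + 1) := idx_lt μ (n + 1) _
      have hp : 2 ^ (n + 1) = 2 * 2 ^ n := by rw [pow_succ]; ring
      rcases Nat.mod_two_eq_zero_or_one j with h0 | h0
      · have h1 : j = 2 * (j / 2) := by omega
        have h2 : cv μ H (n + 1) j p.2 = cv μ H n (j / 2) p.2 := by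
          conv_lhs => rw [h1]
          exact cv_double μ H n (j / 2) p.2
        rw [h2, sub_self]
        symm
        refine Finset.sum_eq_zero fun i _ => ?_
        rw [if_neg (by omega), zero_mul]
      · have hlt : j / 2 < 2 ^ n := by omega
        rw [Finset.sum_eq_single (⟨j / 2, hlt⟩ : Fin (2 ^ n))]
        · have h1 : j = 2 * (j / 2) + 1 := by omega
          simp only
          rw [if_pos h1, one_mul, ← h1]
        · intro b _ hb
          rw [if_neg, zero_mul]
          intro h2
          apply hb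
          ext
          simp only
          omega
        · intro h
          exact absurd (Finset.mem_univ _) h

/-- products of chains and transposed chains have ladders -/
theorem prod_lad (m : ℕ) : ∃ C : ℝ, ∀ F : Fin m → ℝ × ℝ → ℂ,
    (∀ j, IsChain (F j) ∨ IsChain fun p => F j p.swap) → ∃ G, Lad m C (fun p => ∏ j, F j p) G := by
  induction m with
  | zero =>
    refine ⟨1, fun F _ => ⟨fun _ _ => 1, ?_⟩⟩
    have h := Lad.unit
    simpa using h
  | succ m ih =>
    obtain ⟨C, hC⟩ := ih
    refine ⟨2 ^ (0 + m + 2) * (1 * C), fun F hF => ?_⟩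
    obtain ⟨G, hG⟩ := hC (fun j => F j.succ) fun j => hF j.succ
    have h0 : ∃ G0, Lad 0 1 (F 0) G0 := by
      rcases hF 0 with h | h
      · exact chain_lad _ h
      · obtain ⟨G1, hG1⟩ := chain_lad _ h
        have h2 := hG1.swap
        have e1 : (fun p : ℝ × ℝ => F 0 p.swap.swap) = F 0 := by
          ext p
          simp
        rw [e1] at h2
        exact ⟨_, h2⟩
    obtain ⟨G0, hG0⟩ := h0
    have h3 := hG0.mul hG
    refine ⟨fun n p => G0 n p * G n p, ?_⟩
    have e2 : (fun p => ∏ j, F j p) = fun p => F 0 p * ∏ j : Fin m, F j.succ p := by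
      ext p
      rw [Fin.prod_univ_succ]
    rw [e2]
    have e3 : 0 + m + 1 = m + 1 := by ring
    rw [e3] at h3
    exact h3

end Pool.Agent.K4H66.RV
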