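import Mathlib
import Pool.Agent.K4H66.RV.A6
set_option autoImplicit false

/-! The estimate for bounded weights. -/

namespace Pool.Agent.K4H66.RV

open MeasureTheory Complex Set Filter Topology
open scoped ENNReal RealInnerProductSpace ComplexConjugate
open Pool.Agent.R412.RT (ee ee_norm ee_add ee_conj ee_meas ee_cont)

variable {ι : Type} [Fintype ι]

/-- the weight `∑ h_i(x) k_i(y)` -/
noncomputable def Wf (h k : ι → ℝ → ℂ) (p : ℝ × ℝ) : ℂ := ∑ i, h i p.1 * k i p.2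

theorem Wf_meas {h k : ι → ℝ → ℂ} (hh : ∀ i, Measurable (h i)) (hk : ∀ i, Measurable (k i)) :
    Measurable (Wf h k) := by
  unfold Wf
  exact Finset.measurable_sum _ fun i _ => ((hh i).comp measurable_fst).mul
    ((hk i).comp measurable_snd)

theorem cs_norm (a b : ι → ℂ) : ‖∑ i, a i * b i‖ ^ 2 ≤ (∑ i, ‖a i‖ ^ 2) * ∑ i, ‖b i‖ ^ 2 := by
  calc ‖∑ i, a i * b i‖ ^ 2 ≤ (∑ i, ‖a i‖ * ‖b i‖) ^ 2 := by
        gcongr
        refine (norm_sum_le _ _).trans (Finset.sum_le_sum fun i _ => ?_)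
        rw [norm_mul]
    _ ≤ _ := Finset.sum_mul_sq_le_sq_mul_sq _ _ _

variable {A B : Set ℝ} {h k : ι → ℝ → ℂ}

theorem Wf_one (hh : Vec A h) (hk : Vec B k) (p : ℝ × ℝ) : ‖Wf h k p‖ ≤ 1 := by
  have h1 := cs_norm (fun i => h i p.1) (fun i => k i p.2)
  have h2 : (∑ i, ‖h i p.1‖ ^ 2) * ∑ i, ‖k i p.2‖ ^ 2 ≤ 1 * 1 :=
    mul_le_mul (hh.bd p.1) (hk.bd p.2) (Finset.sum_nonneg fun i _ => by positivity) zero_le_one
  have h3 := norm_nonneg (Wf h k p)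
  have h4 : ‖Wf h k p‖ ^ 2 ≤ 1 := by
    refine (h1.trans h2).trans (le_of_eq (one_mul 1))
  nlinarith

theorem Wf_supp (hh : Vec A h) (hk : Vec B k) (p : ℝ × ℝ) (hp : p ∉ A ×ˢ B) : Wf h k p = 0 := by
  unfold Wf
  refine Finset.sum_eq_zero fun i _ => ?_
  by_contra hne
  exact hp ⟨hh.supp i _ (left_ne_zero_of_mul hne), hk.supp i _ (right_ne_zero_of_mul hne)⟩

theorem W_norm_le (hh : Vec A h) (hk : Vec B k) (X : ℝ × ℝ → ℂ) (p : ℝ × ℝ) :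
    ‖Wf h k p * X p‖ ≤ (A ×ˢ B).indicator (fun p => ‖X p‖) p := by
  by_cases hp : p ∈ A ×ˢ B
  · rw [indicator_of_mem hp, norm_mul]
    exact mul_le_of_le_one_left (norm_nonneg _) (Wf_one hh hk p)
  · rw [indicator_of_notMem hp, Wf_supp hh hk p hp, zero_mul, norm_zero]

theorem W_int (hA : MeasurableSet A) (hA1 : A ⊆ Ib) (hB : MeasurableSet B) (hB1 : B ⊆ Ib)
    (hh : Vec A h) (hk : Vec B k) {X : ℝ × ℝ → ℂ} (hX : Measurable X) (c : ℝ)
    (hc : ∀ p, ‖X p‖ ≤ c) : Integrable fun p => Wf h k p * X p := by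
  have hAB : volume (A ×ˢ B) ≠ ∞ := by
    rw [Measure.volume_eq_prod, Measure.prod_prod]
    exact ENNReal.mul_ne_top (ne_top_of_le_ne_top ENNReal.one_ne_top (volA hA1))
      (ne_top_of_le_ne_top ENNReal.one_ne_top (volA hB1))
  have h3 : Integrable ((A ×ˢ B).indicator fun _ : ℝ × ℝ => c) := by
    rw [integrable_indicator_iff (hA.prod hB)]
    exact integrableOn_const hAB
  refine h3.mono' ((Wf_meas hh.meas hk.meas).mul hX).aestronglyMeasurable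
    (Eventually.of_forall fun p => (W_norm_le hh hk X p).trans ?_)
  by_cases hp : p ∈ A ×ˢ B
  · rw [indicator_of_mem hp, indicator_of_mem hp]
    exact hc p
  · rw [indicator_of_notMem hp, indicator_of_notMem hp]

theorem W_L1 (hA : MeasurableSet A) (hA1 : A ⊆ Ib) (hB : MeasurableSet B) (hB1 : B ⊆ Ib)
    (hh : Vec A h) (hk : Vec B k) {X : ℝ × ℝ → ℂ} (hX : Measurable X) :
    ∫⁻ p, ‖Wf h k p * X p‖ₑ ≤ (volume A * volume B) ^ (1 / 2 : ℝ) *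
      (∫⁻ p in Sqr, ‖X p‖ₑ ^ 2) ^ (1 / 2 : ℝ) := by
  have h1 : ∫⁻ p, ‖Wf h k p * X p‖ₑ ≤ ∫⁻ p in Sqr, (A ×ˢ B).indicator (1 : ℝ × ℝ → ℝ≥0∞) p *
      ‖X p‖ₑ := by
    rw [← lintegral_indicator Sqr_meas]
    refine lintegral_mono fun p => ?_
    have h2 := W_norm_le hh hk X p
    by_cases hp : p ∈ A ×ˢ B
    · have hp2 : p ∈ Sqr := ⟨hA1 hp.1, hB1 hp.2⟩
      rw [indicator_of_mem hp] at h2
      rw [indicator_of_mem hp2, indicator_of_mem hp, Pi.one_apply, one_mul, ← ofReal_norm,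
        ← ofReal_norm]
      exact ENNReal.ofReal_le_ofReal h2
    · rw [Wf_supp hh hk p hp, zero_mul, enorm_zero]
      exact zero_le
  have h3 := ENNReal.lintegral_mul_le_Lp_mul_Lq (volume.restrict Sqr) (p := 2) (q := 2)
      (Real.HolderConjugate.two_two) (f := (A ×ˢ B).indicator (1 : ℝ × ℝ → ℝ≥0∞))
      (g := fun p => ‖X p‖ₑ) (measurable_one.indicator (hA.prod hB)).aemeasurable
      hX.enorm.aemeasurable
  refine h1.trans (h3.trans ?_)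
  have h4 : ∫⁻ p in Sqr, (A ×ˢ B).indicator (1 : ℝ × ℝ → ℝ≥0∞) p ^ (2 : ℝ) ≤
      volume A * volume B := by
    calc ∫⁻ p in Sqr, (A ×ˢ B).indicator (1 : ℝ × ℝ → ℝ≥0∞) p ^ (2 : ℝ)
        ≤ ∫⁻ p, (A ×ˢ B).indicator (1 : ℝ × ℝ → ℝ≥0∞) p ^ (2 : ℝ) := setLIntegral_le_lintegral _ _
      _ = ∫⁻ p, (A ×ˢ B).indicator (1 : ℝ × ℝ → ℝ≥0∞) p := by
          refine lintegral_congr fun p => ?_
          by_cases hp : p ∈ A ×ˢ B
          · rw [indicator_of_mem hp]; simp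
          · rw [indicator_of_notMem hp]; simp
      _ = volume A * volume B := by
          rw [lintegral_indicator_one (hA.prod hB), Measure.volume_eq_prod, Measure.prod_prod]
  have h5 : ∫⁻ p in Sqr, ‖X p‖ₑ ^ (2 : ℝ) = ∫⁻ p in Sqr, ‖X p‖ₑ ^ 2 := by
    simp_rw [ENNReal.rpow_two]
  rw [h5]
  gcongr

theorem Ef_add {F F' : ℝ × ℝ → ℂ} (hF : Integrable F) (hF' : Integrable F')
    (ω : ℝ × (ℝ × ℝ)) : Ef (fun p => F p + F' p) ω = Ef F ω + Ef F' ω := by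
  unfold Ef
  simp_rw [mul_add]
  exact integral_add (pph_int F hF ω) (pph_int F' hF' ω)

theorem Ef_sub {F F' : ℝ × ℝ → ℂ} (hF : Integrable F) (hF' : Integrable F')
    (ω : ℝ × (ℝ × ℝ)) : Ef (fun p => F p - F' p) ω = Ef F ω - Ef F' ω := by
  unfold Ef
  simp_rw [mul_sub]
  exact integral_sub (pph_int F hF ω) (pph_int F' hF' ω)

theorem Ef_smul (c : ℂ) (F : ℝ × ℝ → ℂ) (ω : ℝ × (ℝ × ℝ)) :
    Ef (fun p => c * F p) ω = c * Ef F ω := by
  unfold Ef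
  rw [← integral_const_mul]
  congr 1
  ext p
  ring

/-- factorized kernels of size `κ` -/
theorem facEst' (q : ℝ) (hq : 3 < q) : ∃ C : ℝ≥0∞, C ≠ ∞ ∧ ∀ (ι : Type) [Fintype ι] (A B : Set ℝ)
    (h k : ι → ℝ → ℂ) (κ : ℝ) (D : ℝ × ℝ → ℂ), 0 < κ → MeasurableSet A → A ⊆ Ib →
    MeasurableSet B → B ⊆ Ib → Vec A h → Vec B k → Fac κ D →
    ∫⁻ ω, ‖Ef (fun p => Wf h k p * D p) ω‖ₑ ^ q ≤
      C * ENNReal.ofReal κ ^ q * (volume A * volume B) ^ ((q - 1) / 2) := by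
  obtain ⟨C, hC, hE⟩ := facEst q hq
  refine ⟨C, hC, ?_⟩
  intro ι _ A B h k κ D hκ hA hA1 hB hB1 hh hk hD
  obtain ⟨ι', i1, u, v, h1, h2, h3, h4, h5⟩ := hD
  have hs : 0 < Real.sqrt κ := Real.sqrt_pos.2 hκ
  have hs2 : Real.sqrt κ ^ 2 = κ := Real.sq_sqrt hκ.le
  set r : ℂ := (((Real.sqrt κ)⁻¹ : ℝ) : ℂ) with hr
  have hrn : ‖r‖ ^ 2 = κ⁻¹ := by
    rw [hr, Complex.norm_real, Real.norm_of_nonneg (inv_nonneg.2 hs.le), inv_pow, hs2]
  have hrr : (κ : ℂ) * (r * r) = 1 := by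
    rw [hr, ← Complex.ofReal_mul, ← Complex.ofReal_mul, ← mul_inv, Real.mul_self_sqrt hκ.le,
      mul_inv_cancel₀ hκ.ne', Complex.ofReal_one]
  have hvec : ∀ (S : Set ℝ) (g : ι → ℝ → ℂ) (w : ι' → ℝ → ℂ), Vec S g → (∀ i, Measurable (w i)) →
      (∀ x, ∑ i, ‖w i x‖ ^ 2 ≤ κ) → Vec S (fun (i : ι × ι') x => r * (g i.1 x * w i.2 x)) := by
    intro S g w hg hw hwκ
    refine ⟨?_, ?_, ?_⟩
    · intro i
      exact ((hg.meas i.1).mul (hw i.2)).const_mul _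
    · intro x
      rw [Fintype.sum_prod_type]
      simp only [norm_mul, mul_pow, hrn]
      simp_rw [← Finset.mul_sum]
      rw [← Finset.sum_mul]
      calc κ⁻¹ * ((∑ i, ‖g i x‖ ^ 2) * ∑ i, ‖w i x‖ ^ 2) ≤ κ⁻¹ * (1 * κ) := by
            refine mul_le_mul_of_nonneg_left ?_ (inv_nonneg.2 hκ.le)
            exact mul_le_mul (hg.bd x) (hwκ x) (Finset.sum_nonneg fun i _ => by positivity)
              zero_le_one
        _ = 1 := by rw [one_mul, inv_mul_cancel₀ hκ.ne']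
    · intro i x hx
      exact hg.supp i.1 x (left_ne_zero_of_mul (right_ne_zero_of_mul hx))
  have h6 := hE (ι × ι') A B _ _ hA hA1 hB hB1 (hvec A h u hh h1 h3) (hvec B k v hk h2 h4)
  have h7 : (fun p => Wf h k p * D p) = fun p => (κ : ℂ) * ∑ i : ι × ι',
      (r * (h i.1 p.1 * u i.2 p.1)) * (r * (k i.1 p.2 * v i.2 p.2)) := by
    ext p
    unfold Wf
    rw [h5, Finset.sum_mul_sum, Fintype.sum_prod_type, Finset.mul_sum]
    refine Finset.sum_congr rfl fun i _ => ?_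
    rw [Finset.mul_sum]
    refine Finset.sum_congr rfl fun j _ => ?_
    calc h i p.1 * k i p.2 * (u j p.1 * v j p.2)
        = ((κ : ℂ) * (r * r)) * (h i p.1 * k i p.2 * (u j p.1 * v j p.2)) := by
          rw [hrr, one_mul]
      _ = _ := by ring
  rw [h7]
  have h8 : ∀ ω, ‖Ef (fun p => (κ : ℂ) * ∑ i : ι × ι',
      (r * (h i.1 p.1 * u i.2 p.1)) * (r * (k i.1 p.2 * v i.2 p.2))) ω‖ₑ ^ q =
      ENNReal.ofReal κ ^ q * ‖Ef (fun p => ∑ i : ι × ι',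
      (r * (h i.1 p.1 * u i.2 p.1)) * (r * (k i.1 p.2 * v i.2 p.2))) ω‖ₑ ^ q := by
    intro ω
    rw [Ef_smul, enorm_mul, ENNReal.mul_rpow_of_nonneg _ _ (by linarith), ← ofReal_norm (κ : ℂ),
      Complex.norm_real, Real.norm_of_nonneg hκ.le]
  simp_rw [h8]
  have hm : Measurable (Ef (fun p => ∑ i : ι × ι',
      (r * (h i.1 p.1 * u i.2 p.1)) * (r * (k i.1 p.2 * v i.2 p.2)))) := by
    refine Ef_meas _ (Finset.measurable_sum _ fun i _ => Measurable.mul ?_ ?_)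
    · exact (((hh.meas i.1).mul (h1 i.2)).const_mul r).comp measurable_fst
    · exact (((hk.meas i.1).mul (h2 i.2)).const_mul r).comp measurable_snd
  rw [lintegral_const_mul _ (hm.enorm.pow_const q)]
  refine (mul_le_mul_right h6 _).trans (le_of_eq ?_)
  ring

/-- interpolation with the trivial bound -/
theorem interp (q q0 : ℝ) (h0 : 0 ≤ q0) (hq : q0 ≤ q) (f : ℝ × (ℝ × ℝ) → ℂ) (hf : Measurable f)
    (M : ℝ≥0∞) (hM : ∀ ω, ‖f ω‖ₑ ≤ M) :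
    ∫⁻ ω, ‖f ω‖ₑ ^ q ≤ M ^ (q - q0) * ∫⁻ ω, ‖f ω‖ₑ ^ q0 := by
  rw [← lintegral_const_mul _ (hf.enorm.pow_const q0)]
  refine lintegral_mono fun ω => ?_
  have e1 : ‖f ω‖ₑ ^ q = ‖f ω‖ₑ ^ (q - q0) * ‖f ω‖ₑ ^ q0 := by
    rw [← ENNReal.rpow_add_of_nonneg _ _ (by linarith) h0]
    congr 1
    ring
  rw [e1]
  exact mul_le_mul_left (ENNReal.rpow_le_rpow (hM ω) (by linarith)) _

end Pool.Agent.K4H66.RV
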