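import Mathlib
import Pool.Agent.K4H66.RV.A7
set_option autoImplicit false

/-! The estimate for bounded weights, summed over the ladder. -/

namespace Pool.Agent.K4H66.RV

open MeasureTheory Complex Set Filter Topology
open scoped ENNReal RealInnerProductSpace ComplexConjugate
open Pool.Agent.R412.RT (ee ee_norm ee_add ee_conj ee_meas ee_cont)

theorem lp_eq (q : ℝ) (hq : 3 < q) (f : ℝ × (ℝ × ℝ) → ℂ) :
    eLpNorm f (ENNReal.ofReal q) volume = (∫⁻ ω, ‖f ω‖ₑ ^ q) ^ (1 / q) := by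
  rw [eLpNorm_eq_lintegral_rpow_enorm_toReal (by simp; linarith) ENNReal.ofReal_ne_top,
    ENNReal.toReal_ofReal (by linarith)]

theorem one_le_q (q : ℝ) (hq : 3 < q) : (1 : ℝ≥0∞) ≤ ENNReal.ofReal q := by
  rw [← ENNReal.ofReal_one]
  exact ENNReal.ofReal_le_ofReal (by linarith)

theorem step_two {m : ℕ} {C : ℝ} {F : ℝ × ℝ → ℂ} {G : ℕ → ℝ × ℝ → ℂ} (hL : Lad m C F G) (l : ℕ) :
    (∫⁻ p in Sqr, ‖G (l + 1) p - G l p‖ₑ ^ 2) ^ (1 / 2 : ℝ) ≤
      ENNReal.ofReal (2 * C * Real.sqrt (1 / 2) ^ l) := by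
  have hC : 0 ≤ C := zero_le_one.trans hL.one
  have hm : ∀ n, Measurable fun p => ‖F p - G n p‖ₑ ^ 2 := fun n =>
    (hL.measF.sub (hL.meas n)).enorm.pow_const 2
  have h1 : ∀ p, ‖G (l + 1) p - G l p‖ₑ ^ 2 ≤
      2 * ‖F p - G l p‖ₑ ^ 2 + 2 * ‖F p - G (l + 1) p‖ₑ ^ 2 := by
    intro p
    have h2 : ‖G (l + 1) p - G l p‖ ^ 2 ≤ 2 * ‖F p - G l p‖ ^ 2 + 2 * ‖F p - G (l + 1) p‖ ^ 2 := by
      have h3 : ‖G (l + 1) p - G l p‖ ≤ ‖F p - G l p‖ + ‖F p - G (l + 1) p‖ := by
        have e : G (l + 1) p - G l p = (F p - G l p) - (F p - G (l + 1) p) := by ring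
        rw [e]
        exact norm_sub_le _ _
      calc ‖G (l + 1) p - G l p‖ ^ 2 ≤ (‖F p - G l p‖ + ‖F p - G (l + 1) p‖) ^ 2 :=
            pow_le_pow_left₀ (norm_nonneg _) h3 2
        _ ≤ _ := by nlinarith [sq_nonneg (‖F p - G l p‖ - ‖F p - G (l + 1) p‖)]
    rw [en2, en2, en2, show (2 : ℝ≥0∞) = ENNReal.ofReal 2 by norm_num,
      ← ENNReal.ofReal_mul (by norm_num), ← ENNReal.ofReal_mul (by norm_num),
      ← ENNReal.ofReal_add (by positivity) (by positivity)]
    exact ENNReal.ofReal_le_ofReal h2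
  have h4 : ∫⁻ p in Sqr, ‖G (l + 1) p - G l p‖ₑ ^ 2 ≤
      ENNReal.ofReal ((2 * C * Real.sqrt (1 / 2) ^ l) ^ 2) := by
    calc ∫⁻ p in Sqr, ‖G (l + 1) p - G l p‖ₑ ^ 2
        ≤ ∫⁻ p in Sqr, (2 * ‖F p - G l p‖ₑ ^ 2 + 2 * ‖F p - G (l + 1) p‖ₑ ^ 2) :=
          lintegral_mono h1
      _ = 2 * (∫⁻ p in Sqr, ‖F p - G l p‖ₑ ^ 2) + 2 * ∫⁻ p in Sqr, ‖F p - G (l + 1) p‖ₑ ^ 2 := by
          rw [lintegral_add_left ((hm l).const_mul _), lintegral_const_mul _ (hm l),
            lintegral_const_mul _ (hm (l + 1))]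
      _ ≤ 2 * ENNReal.ofReal (C ^ 2 * (1 / 2) ^ l) +
          2 * ENNReal.ofReal (C ^ 2 * (1 / 2) ^ (l + 1)) := by
          gcongr
          · exact hL.err l
          · exact hL.err (l + 1)
      _ = ENNReal.ofReal (2 * (C ^ 2 * (1 / 2) ^ l) + 2 * (C ^ 2 * (1 / 2) ^ (l + 1))) := by
          rw [show (2 : ℝ≥0∞) = ENNReal.ofReal 2 by norm_num,
            ← ENNReal.ofReal_mul (by norm_num), ← ENNReal.ofReal_mul (by norm_num),
            ← ENNReal.ofReal_add (by positivity) (by positivity)]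
      _ ≤ _ := by
          refine ENNReal.ofReal_le_ofReal ?_
          have h5 : (Real.sqrt (1 / 2) ^ l) ^ 2 = (1 / 2) ^ l := by
            rw [← pow_mul, mul_comm, pow_mul, Real.sq_sqrt (by norm_num)]
          have h7 : (1 / 2 : ℝ) ^ (l + 1) = (1 / 2) ^ l * (1 / 2) := pow_succ _ _
          rw [mul_pow, h5, h7]
          have h6 : (0 : ℝ) ≤ C ^ 2 * (1 / 2) ^ l := by positivity
          nlinarith
  calc (∫⁻ p in Sqr, ‖G (l + 1) p - G l p‖ₑ ^ 2) ^ (1 / 2 : ℝ)
      ≤ ENNReal.ofReal ((2 * C * Real.sqrt (1 / 2) ^ l) ^ 2) ^ (1 / 2 : ℝ) := by gcongr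
    _ = _ := by
        rw [ENNReal.ofReal_pow (by positivity), ← ENNReal.rpow_natCast, ← ENNReal.rpow_mul]
        norm_num

/-- one step of the ladder -/
theorem step_lp (q : ℝ) (hq : 3 < q) (m : ℕ) (C : ℝ) (hC : 1 ≤ C) : ∃ K r : ℝ, 0 ≤ K ∧ 0 ≤ r ∧
    r < 1 ∧ ∀ (F : ℝ × ℝ → ℂ) (G : ℕ → ℝ × ℝ → ℂ), Lad m C F G → ∀ (ι : Type) [Fintype ι]
    (A B : Set ℝ) (h k : ι → ℝ → ℂ), MeasurableSet A → A ⊆ Ib → MeasurableSet B → B ⊆ Ib →
    Vec A h → Vec B k → ∀ l : ℕ,
    eLpNorm (Ef fun p => Wf h k p * (G (l + 1) p - G l p)) (ENNReal.ofReal q) volume ≤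
      ENNReal.ofReal (K * (((l : ℝ) + 1) ^ m * r ^ l)) *
        (volume A * volume B) ^ ((q - 1) / (2 * q)) := by
  obtain ⟨C0, hC0, hE⟩ := facEst' ((q + 3) / 2) (by linarith)
  set q0 : ℝ := (q + 3) / 2 with hq0
  have hq0q : q0 < q := by rw [hq0]; linarith
  have hq03 : 3 < q0 := by rw [hq0]; linarith
  set e : ℝ := (q - q0) / q with he
  have he0 : 0 < e := div_pos (by linarith) (by linarith)
  have he1 : e ≤ 1 := (div_le_one (by linarith)).2 (by linarith)
  have hs0 : (0 : ℝ) < Real.sqrt (1 / 2) := Real.sqrt_pos.2 (by norm_num)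
  have hs1 : Real.sqrt (1 / 2) < 1 := by
    rw [Real.sqrt_lt' one_pos]
    norm_num
  refine ⟨(C0 ^ (1 / q)).toReal * (2 * C * C), Real.sqrt (1 / 2) ^ e, by positivity, by positivity,
    Real.rpow_lt_one hs0.le hs1 he0, ?_⟩
  intro F G hL ι _ A B h k hA hA1 hB hB1 hh hk l
  have hCp : 0 < C := by linarith
  set V := volume A * volume B with hV
  have hDm : Measurable fun p => G (l + 1) p - G l p := (hL.meas _).sub (hL.meas _)
  set D : ℝ × ℝ → ℂ := fun p => G (l + 1) p - G l p with hD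
  set κ : ℝ := C * ((l : ℝ) + 1) ^ m with hκ
  have hκ1 : 1 ≤ κ := by
    have : (1 : ℝ) ≤ ((l : ℝ) + 1) ^ m := one_le_pow₀ (by linarith [Nat.cast_nonneg (α := ℝ) l])
    calc (1 : ℝ) = 1 * 1 := by norm_num
      _ ≤ _ := mul_le_mul hC this zero_le_one (by linarith)
  have h1 := hE ι A B h k κ D (by linarith) hA hA1 hB hB1 hh hk (hL.fac l)
  have hM : ∀ ω, ‖Ef (fun p => Wf h k p * D p) ω‖ₑ ≤
      V ^ (1 / 2 : ℝ) * ENNReal.ofReal (2 * C * Real.sqrt (1 / 2) ^ l) := by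
    intro ω
    refine (Ef_le _ ω).trans ((W_L1 hA hA1 hB hB1 hh hk hDm).trans ?_)
    exact mul_le_mul_right (step_two hL l) _
  have hEm : Measurable (Ef fun p => Wf h k p * D p) :=
    Ef_meas _ ((Wf_meas hh.meas hk.meas).mul hDm)
  have h2 := interp q q0 (by linarith) hq0q.le _ hEm _ hM
  rw [lp_eq q hq]
  have hqp : 0 < q := by linarith
  have h3 : ∫⁻ ω, ‖Ef (fun p => Wf h k p * D p) ω‖ₑ ^ q ≤
      (ENNReal.ofReal (2 * C * Real.sqrt (1 / 2) ^ l) ^ (q - q0) *
        (C0 * ENNReal.ofReal κ ^ q0)) * V ^ ((q - 1) / 2) := by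
    refine h2.trans ((mul_le_mul_right h1 _).trans (le_of_eq ?_))
    rw [ENNReal.mul_rpow_of_nonneg _ _ (by linarith), ← ENNReal.rpow_mul]
    have e1 : V ^ (1 / 2 * (q - q0)) * V ^ ((q0 - 1) / 2) = V ^ ((q - 1) / 2) := by
      rw [← ENNReal.rpow_add_of_nonneg _ _ (by nlinarith) (by linarith)]
      congr 1
      ring
    rw [← e1]
    ring
  calc (∫⁻ ω, ‖Ef (fun p => Wf h k p * D p) ω‖ₑ ^ q) ^ (1 / q)
      ≤ ((ENNReal.ofReal (2 * C * Real.sqrt (1 / 2) ^ l) ^ (q - q0) *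
        (C0 * ENNReal.ofReal κ ^ q0)) * V ^ ((q - 1) / 2)) ^ (1 / q) :=
        ENNReal.rpow_le_rpow h3 (by positivity)
    _ = (ENNReal.ofReal (2 * C * Real.sqrt (1 / 2) ^ l) ^ e *
        (C0 ^ (1 / q) * ENNReal.ofReal κ ^ (q0 / q))) * V ^ ((q - 1) / (2 * q)) := by
        have e3 : (q - 1) / 2 * (1 / q) = (q - 1) / (2 * q) := by field_simp
        have e4 : (q - q0) * (1 / q) = e := by rw [he]; ring
        have e5 : q0 * (1 / q) = q0 / q := by ring
        rw [ENNReal.mul_rpow_of_nonneg _ _ (by positivity), ENNReal.mul_rpow_of_nonneg _ _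
          (by positivity), ENNReal.mul_rpow_of_nonneg _ _ (by positivity), ← ENNReal.rpow_mul,
          ← ENNReal.rpow_mul, ← ENNReal.rpow_mul, e3, e4, e5]
    _ ≤ _ := by
        refine mul_le_mul_left ?_ _
        have hb : ENNReal.ofReal κ ^ (q0 / q) ≤ ENNReal.ofReal κ := by
          have h5 : (1 : ℝ≥0∞) ≤ ENNReal.ofReal κ := by
            rw [← ENNReal.ofReal_one]; exact ENNReal.ofReal_le_ofReal hκ1
          calc ENNReal.ofReal κ ^ (q0 / q) ≤ ENNReal.ofReal κ ^ (1 : ℝ) :=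
                ENNReal.rpow_le_rpow_of_exponent_le h5 ((div_le_one hqp).2 hq0q.le)
            _ = _ := ENNReal.rpow_one _
        have ha : ENNReal.ofReal (2 * C * Real.sqrt (1 / 2) ^ l) ^ e ≤
            ENNReal.ofReal (2 * C * (Real.sqrt (1 / 2) ^ e) ^ l) := by
          rw [ENNReal.ofReal_mul (p := 2 * C) (by positivity), ENNReal.mul_rpow_of_nonneg _ _ he0.le,
            ENNReal.ofReal_mul (p := 2 * C) (by positivity)]
          refine mul_le_mul' ?_ ?_
          · have h5 : (1 : ℝ≥0∞) ≤ ENNReal.ofReal (2 * C) := by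
              rw [← ENNReal.ofReal_one]; exact ENNReal.ofReal_le_ofReal (by linarith)
            calc ENNReal.ofReal (2 * C) ^ e ≤ ENNReal.ofReal (2 * C) ^ (1 : ℝ) :=
                  ENNReal.rpow_le_rpow_of_exponent_le h5 he1
              _ = _ := ENNReal.rpow_one _
          · rw [ENNReal.ofReal_rpow_of_pos (by positivity)]
            refine le_of_eq ?_
            congr 1
            rw [← Real.rpow_natCast, ← Real.rpow_natCast, ← Real.rpow_mul hs0.le,
              ← Real.rpow_mul hs0.le, mul_comm]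
        calc ENNReal.ofReal (2 * C * Real.sqrt (1 / 2) ^ l) ^ e *
              (C0 ^ (1 / q) * ENNReal.ofReal κ ^ (q0 / q))
            ≤ ENNReal.ofReal (2 * C * (Real.sqrt (1 / 2) ^ e) ^ l) *
              (C0 ^ (1 / q) * ENNReal.ofReal κ) := by gcongr
          _ = ENNReal.ofReal ((C0 ^ (1 / q)).toReal * (2 * C * C) *
              (((l : ℝ) + 1) ^ m * (Real.sqrt (1 / 2) ^ e) ^ l)) := by
              have h6 : C0 ^ (1 / q) = ENNReal.ofReal ((C0 ^ (1 / q)).toReal) :=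
                (ENNReal.ofReal_toReal (ENNReal.rpow_ne_top_of_nonneg (by positivity) hC0)).symm
              nth_rw 1 [h6]
              rw [← ENNReal.ofReal_mul ENNReal.toReal_nonneg, ← ENNReal.ofReal_mul (by positivity)]
              congr 1
              rw [hκ]
              ring

/-- **estimate with bounded weights** -/
theorem restr (q : ℝ) (hq : 3 < q) (m : ℕ) (C : ℝ) : ∃ K : ℝ≥0∞, K ≠ ∞ ∧
    ∀ (F : ℝ × ℝ → ℂ) (G : ℕ → ℝ × ℝ → ℂ), Lad m C F G → ∀ (ι : Type) [Fintype ι]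
    (A B : Set ℝ) (h k : ι → ℝ → ℂ), MeasurableSet A → A ⊆ Ib → MeasurableSet B → B ⊆ Ib →
    Vec A h → Vec B k →
    eLpNorm (Ef fun p => Wf h k p * F p) (ENNReal.ofReal q) volume ≤
      K * (volume A * volume B) ^ ((q - 1) / (2 * q)) := by
  by_cases hC : 1 ≤ C
  swap
  · exact ⟨0, ENNReal.zero_ne_top, fun F G hL => absurd hL.one hC⟩
  obtain ⟨C1, hC1, hE⟩ := facEst' q hq
  obtain ⟨K, r, hK, hr0, hr1, hS⟩ := step_lp q hq m C hC
  have hsum : Summable fun l : ℕ => K * (((l : ℝ) + 1) ^ m * r ^ l) := by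
    refine Summable.mul_left K ?_
    have h1 : Summable fun l : ℕ => (l : ℝ) ^ m * r ^ l :=
      summable_pow_mul_geometric_of_norm_lt_one m (by rwa [Real.norm_of_nonneg hr0])
    rcases hr0.eq_or_lt with h0 | h0
    · refine summable_of_ne_finset_zero (s := {0}) fun l hl => ?_
      rw [← h0, zero_pow (by simpa using hl), mul_zero]
    · have h2 := (summable_nat_add_iff 1).2 h1
      have h3 := h2.mul_left (r⁻¹)
      refine h3.congr fun l => ?_
      push_cast
      rw [pow_succ]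
      field_simp
  have hqp : 0 < q := by linarith
  refine ⟨C1 ^ (1 / q) * ENNReal.ofReal C + ∑' l : ℕ, ENNReal.ofReal (K * (((l : ℝ) + 1) ^ m * r ^ l)),
    ENNReal.add_ne_top.2 ⟨ENNReal.mul_ne_top (ENNReal.rpow_ne_top_of_nonneg (by positivity) hC1)
      ENNReal.ofReal_ne_top, hsum.tsum_ofReal_ne_top⟩, ?_⟩
  intro F G hL ι _ A B h k hA hA1 hB hB1 hh hk
  set V := volume A * volume B with hV
  set V' := V ^ ((q - 1) / (2 * q)) with hV'
  set s : ℕ → ℝ≥0∞ := fun l => ENNReal.ofReal (K * (((l : ℝ) + 1) ^ m * r ^ l)) with hs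
  have hWm := Wf_meas hh.meas hk.meas
  have hGi : ∀ n, Integrable fun p => Wf h k p * G n p := fun n =>
    W_int hA hA1 hB hB1 hh hk (hL.meas n) C (hL.bd n)
  have hFi : Integrable fun p => Wf h k p * F p :=
    W_int hA hA1 hB hB1 hh hk hL.measF C hL.bdF
  have hEm : ∀ n, Measurable (Ef fun p => Wf h k p * G n p) := fun n =>
    Ef_meas _ (hWm.mul (hL.meas n))
  have hCp : 0 < C := by linarith
  have hind : ∀ n, eLpNorm (Ef fun p => Wf h k p * G n p) (ENNReal.ofReal q) volume ≤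
      (C1 ^ (1 / q) * ENNReal.ofReal C + ∑ l ∈ Finset.range n, s l) * V' := by
    intro n
    induction n with
    | zero =>
      rw [Finset.range_zero, Finset.sum_empty, add_zero, lp_eq q hq]
      have h1 := hE ι A B h k C (G 0) hCp hA hA1 hB hB1 hh hk hL.fac0
      refine (ENNReal.rpow_le_rpow h1 (by positivity : 0 ≤ 1 / q)).trans (le_of_eq ?_)
      rw [ENNReal.mul_rpow_of_nonneg _ _ (by positivity), ENNReal.mul_rpow_of_nonneg _ _
        (by positivity), ← ENNReal.rpow_mul, ← ENNReal.rpow_mul]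
      rw [mul_one_div_cancel hqp.ne', ENNReal.rpow_one]
      congr 2
      field_simp
    | succ n ih =>
      have e1 : (Ef fun p => Wf h k p * G (n + 1) p) = (Ef fun p => Wf h k p * G n p) +
          Ef fun p => Wf h k p * (G (n + 1) p - G n p) := by
        ext ω
        rw [Pi.add_apply, ← Ef_add (hGi n) (by
          have := (hGi (n + 1)).sub (hGi n)
          refine this.congr (Eventually.of_forall fun p => ?_)
          simp only [Pi.sub_apply]
          ring)]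
        congr 1
        ext p
        ring
      rw [e1]
      refine (eLpNorm_add_le (hEm n).aestronglyMeasurable (Ef_meas _ (hWm.mul
        ((hL.meas _).sub (hL.meas _)))).aestronglyMeasurable (one_le_q q hq)).trans ?_
      have h2 := hS F G hL ι A B h k hA hA1 hB hB1 hh hk n
      refine (add_le_add ih h2).trans (le_of_eq ?_)
      rw [Finset.sum_range_succ, ← add_assoc]
      simp only [hs]
      ring
  have hlim : ∀ ω, Tendsto (fun n => Ef (fun p => Wf h k p * G n p) ω) atTop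
      (𝓝 (Ef (fun p => Wf h k p * F p) ω)) := by
    intro ω
    rw [tendsto_iff_edist_tendsto_0]
    have hb : ∀ n, edist (Ef (fun p => Wf h k p * G n p) ω) (Ef (fun p => Wf h k p * F p) ω) ≤
        (V ^ (1 / 2 : ℝ)) * ENNReal.ofReal (C ^ 2 * (1 / 2) ^ n) ^ (1 / 2 : ℝ) := by
      intro n
      rw [edist_comm, edist_eq_enorm_sub, ← Ef_sub hFi (hGi n)]
      refine (Ef_le _ ω).trans ?_
      have e2 : (fun p => Wf h k p * F p - Wf h k p * G n p) =
          fun p => Wf h k p * (F p - G n p) := by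
        ext p; ring
      rw [show (∫⁻ p, ‖Wf h k p * F p - Wf h k p * G n p‖ₑ) =
        ∫⁻ p, ‖Wf h k p * (F p - G n p)‖ₑ from lintegral_congr fun p => by rw [← mul_sub]]
      refine (W_L1 hA hA1 hB hB1 hh hk (hL.measF.sub (hL.meas n))).trans ?_
      exact mul_le_mul_right (ENNReal.rpow_le_rpow (hL.err n) (by norm_num)) _
    have hVt : V ^ (1 / 2 : ℝ) ≠ ∞ := by
      refine ENNReal.rpow_ne_top_of_nonneg (by norm_num) ?_
      exact ENNReal.mul_ne_top (ne_top_of_le_ne_top ENNReal.one_ne_top (volA hA1))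
        (ne_top_of_le_ne_top ENNReal.one_ne_top (volA hB1))
    have h0 : Tendsto (fun n : ℕ => (V ^ (1 / 2 : ℝ)) *
        ENNReal.ofReal (C ^ 2 * (1 / 2) ^ n) ^ (1 / 2 : ℝ)) atTop (𝓝 0) := by
      have h1 : Tendsto (fun n : ℕ => C ^ 2 * (1 / 2 : ℝ) ^ n) atTop (𝓝 (C ^ 2 * 0)) :=
        (tendsto_pow_atTop_nhds_zero_of_lt_one (by norm_num) (by norm_num)).const_mul _
      rw [mul_zero] at h1
      have h2 := ENNReal.tendsto_ofReal h1
      rw [ENNReal.ofReal_zero] at h2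
      have h3 := (ENNReal.continuous_rpow_const (y := (1 / 2 : ℝ))).tendsto 0 |>.comp h2
      rw [ENNReal.zero_rpow_of_pos (by norm_num)] at h3
      have h4 := ENNReal.Tendsto.const_mul (a := V ^ (1 / 2 : ℝ)) h3 (Or.inr hVt)
      rw [mul_zero] at h4
      exact h4
    exact tendsto_of_tendsto_of_tendsto_of_le_of_le tendsto_const_nhds h0 (fun _ => zero_le) hb
  refine (Lp.eLpNorm_lim_le_liminf_eLpNorm (fun n => (hEm n).aestronglyMeasurable) _
    (Eventually.of_forall hlim)).trans ?_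
  refine liminf_le_of_frequently_le' (Frequently.of_forall fun n => (hind n).trans ?_)
  gcongr
  exact ENNReal.sum_le_tsum _

end Pool.Agent.K4H66.RV
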