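import Mathlib
import Pool.Agent.K4H66.RV.A8
set_option autoImplicit false

/-! The estimate with weights in `L^q`. -/

namespace Pool.Agent.K4H66.RV

open MeasureTheory Complex Set Filter Topology
open scoped ENNReal RealInnerProductSpace ComplexConjugate
open Pool.Agent.R412.RT (ee ee_norm ee_add ee_conj ee_meas ee_cont)

variable {ι : Type} [Fintype ι]

/-- the length of a vector of functions -/
noncomputable def nr (h : ι → ℝ → ℂ) (x : ℝ) : ℝ := Real.sqrt (∑ i, ‖h i x‖ ^ 2)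

theorem nr_nonneg (h : ι → ℝ → ℂ) (x : ℝ) : 0 ≤ nr h x := Real.sqrt_nonneg _

theorem nr_sq (h : ι → ℝ → ℂ) (x : ℝ) : nr h x ^ 2 = ∑ i, ‖h i x‖ ^ 2 :=
  Real.sq_sqrt (Finset.sum_nonneg fun i _ => by positivity)

theorem nr_meas {h : ι → ℝ → ℂ} (hh : ∀ i, Measurable (h i)) : Measurable (nr h) := by
  unfold nr
  exact (Finset.measurable_sum _ fun i _ => (hh i).norm.pow_const 2).sqrt

/-- lower ends of the levels -/
noncomputable def lo (j : ℕ) : ℝ := if j = 0 then -1 else 2 ^ (j - 1)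

/-- level sets -/
def Sl (h : ι → ℝ → ℂ) (j : ℕ) : Set ℝ := {x | x ∈ Ib ∧ lo j < nr h x ∧ nr h x ≤ 2 ^ j}

/-- sublevel sets -/
def Ul (h : ι → ℝ → ℂ) (n : ℕ) : Set ℝ := {x | x ∈ Ib ∧ nr h x ≤ 2 ^ n}

theorem Sl_meas {h : ι → ℝ → ℂ} (hh : ∀ i, Measurable (h i)) (j : ℕ) : MeasurableSet (Sl h j) :=
  Ib_meas.inter (((nr_meas hh) measurableSet_Ioi).inter ((nr_meas hh) measurableSet_Iic))

theorem Ul_meas {h : ι → ℝ → ℂ} (hh : ∀ i, Measurable (h i)) (j : ℕ) : MeasurableSet (Ul h j) :=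
  Ib_meas.inter ((nr_meas hh) measurableSet_Iic)

theorem Ul_ind (h : ι → ℝ → ℂ) (g : ℝ → ℂ) (n : ℕ) (x : ℝ) :
    (Ul h n).indicator g x = ∑ j ∈ Finset.range (n + 1), (Sl h j).indicator g x := by
  induction n with
  | zero =>
    rw [zero_add, Finset.sum_range_one]
    congr 1
    ext y
    unfold Ul Sl lo
    simp only [if_true, pow_zero]
    constructor
    · rintro ⟨h1, h2⟩
      exact ⟨h1, by linarith [nr_nonneg h y], h2⟩
    · rintro ⟨h1, -, h2⟩
      exact ⟨h1, h2⟩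
  | succ n ih =>
    rw [Finset.sum_range_succ, ← ih]
    have h1 : Ul h (n + 1) = Ul h n ∪ Sl h (n + 1) := by
      ext y
      unfold Ul Sl lo
      simp only [Nat.add_eq_zero_iff, one_ne_zero, and_false, if_false, Nat.add_sub_cancel]
      constructor
      · rintro ⟨h1, h2⟩
        rcases le_or_gt (nr h y) (2 ^ n) with h3 | h3
        · exact Or.inl ⟨h1, h3⟩
        · exact Or.inr ⟨h1, h3, h2⟩
      · rintro (⟨h1, h2⟩ | ⟨h1, h2, h3⟩)
        · exact ⟨h1, h2.trans (pow_le_pow_right₀ (by norm_num) (Nat.le_succ n))⟩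
        · exact ⟨h1, h3⟩
    have h2 : Disjoint (Ul h n) (Sl h (n + 1)) := by
      rw [Set.disjoint_left]
      rintro y hy hy'
      have h3 := hy.2
      have h4 := hy'.2.1
      unfold lo at h4
      simp only [Nat.add_eq_zero_iff, one_ne_zero, and_false, if_false, Nat.add_sub_cancel] at h4
      linarith
    rw [h1, indicator_union_of_disjoint h2]

/-- the normalized levels -/
noncomputable def hl (h : ι → ℝ → ℂ) (j : ℕ) (i : ι) (x : ℝ) : ℂ :=
  ((2 : ℂ) ^ j)⁻¹ * (Sl h j).indicator (h i) x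

theorem hl_vec {h : ι → ℝ → ℂ} (hh : ∀ i, Measurable (h i)) (j : ℕ) : Vec (Sl h j) (hl h j) := by
  refine ⟨?_, ?_, ?_⟩
  · intro i
    exact ((hh i).indicator (Sl_meas hh j)).const_mul _
  · intro x
    unfold hl
    by_cases hx : x ∈ Sl h j
    · have h1 : ∀ i, ‖((2 : ℂ) ^ j)⁻¹ * (Sl h j).indicator (h i) x‖ ^ 2 =
          (((2 : ℝ) ^ j) ^ 2)⁻¹ * ‖h i x‖ ^ 2 := by
        intro i
        rw [indicator_of_mem hx, norm_mul, mul_pow, norm_inv, norm_pow, Complex.norm_ofNat, inv_pow]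
      simp_rw [h1]
      rw [← Finset.mul_sum, ← nr_sq]
      have h2 : nr h x ^ 2 ≤ (2 ^ j) ^ 2 := pow_le_pow_left₀ (nr_nonneg h x) hx.2.2 2
      rw [inv_mul_le_iff₀ (by positivity), mul_one]
      exact h2
    · have h1 : ∀ i, ‖((2 : ℂ) ^ j)⁻¹ * (Sl h j).indicator (h i) x‖ ^ 2 = 0 := by
        intro i
        rw [indicator_of_notMem hx, mul_zero, norm_zero]
        norm_num
      simp_rw [h1]
      simp
  · intro i x hx
    by_contra hne
    unfold hl at hx
    rw [indicator_of_notMem hne, mul_zero] at hx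
    exact hx rfl

theorem hl_sum (h : ι → ℝ → ℂ) (n : ℕ) (i : ι) (x : ℝ) :
    (Ul h n).indicator (h i) x = ∑ j ∈ Finset.range (n + 1), (2 : ℂ) ^ j * hl h j i x := by
  rw [Ul_ind]
  refine Finset.sum_congr rfl fun j _ => ?_
  unfold hl
  rw [← mul_assoc, mul_inv_cancel₀ (pow_ne_zero _ two_ne_zero), one_mul]

theorem Sl_sub (h : ι → ℝ → ℂ) (j : ℕ) : Sl h j ⊆ Ib := fun _ hx => hx.1

/-- Chebyshev -/
theorem Sl_vol {h : ι → ℝ → ℂ} (hh : ∀ i, Measurable (h i)) (q : ℝ) (hq : 3 < q)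
    (h1 : ∫⁻ x, ENNReal.ofReal (nr h x) ^ q ≤ 1) (j : ℕ) :
    volume (Sl h (j + 1)) ≤ ENNReal.ofReal ((2 ^ j : ℝ) ^ (-q)) := by
  have h2 := mul_meas_ge_le_lintegral (μ := volume)
    ((nr_meas hh).ennreal_ofReal.pow_const q) (ENNReal.ofReal (2 ^ j) ^ q)
  have h3 : Sl h (j + 1) ⊆ {x | ENNReal.ofReal (2 ^ j) ^ q ≤ ENNReal.ofReal (nr h x) ^ q} := by
    intro x hx
    have h4 := hx.2.1
    unfold lo at h4
    simp only [Nat.add_eq_zero_iff, one_ne_zero, and_false, if_false, Nat.add_sub_cancel] at h4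
    exact ENNReal.rpow_le_rpow (ENNReal.ofReal_le_ofReal h4.le) (by linarith)
  have h5 := (h2.trans h1)
  have h6 : (0 : ℝ) < 2 ^ j := by positivity
  have h7 : ENNReal.ofReal (2 ^ j) ^ q = ENNReal.ofReal ((2 ^ j : ℝ) ^ q) :=
    ENNReal.ofReal_rpow_of_pos h6
  have h8 : ENNReal.ofReal ((2 ^ j : ℝ) ^ (-q)) * ENNReal.ofReal ((2 ^ j : ℝ) ^ q) = 1 := by
    rw [← ENNReal.ofReal_mul (by positivity), ← Real.rpow_add h6, neg_add_cancel, Real.rpow_zero,
      ENNReal.ofReal_one]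
  calc volume (Sl h (j + 1))
      ≤ volume {x | ENNReal.ofReal (2 ^ j) ^ q ≤ ENNReal.ofReal (nr h x) ^ q} := measure_mono h3
    _ = ENNReal.ofReal ((2 ^ j : ℝ) ^ (-q)) * (ENNReal.ofReal (2 ^ j) ^ q *
        volume {x | ENNReal.ofReal (2 ^ j) ^ q ≤ ENNReal.ofReal (nr h x) ^ q}) := by
        rw [← mul_assoc, h7, h8, one_mul]
    _ ≤ ENNReal.ofReal ((2 ^ j : ℝ) ^ (-q)) * 1 := mul_le_mul_right h5 _
    _ = _ := mul_one _

/-- the ratio -/
noncomputable def rt (q : ℝ) : ℝ := (2 : ℝ) ^ (-((q - 3) / 2))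

theorem rt_pos (q : ℝ) : 0 < rt q := Real.rpow_pos_of_pos (by norm_num) _

theorem rt_lt (q : ℝ) (hq : 3 < q) : rt q < 1 :=
  Real.rpow_lt_one_of_one_lt_of_neg (by norm_num) (by linarith)

/-- bound of the level coefficients -/
noncomputable def lc (q : ℝ) (j : ℕ) : ℝ := if j = 0 then 1 else 2 * rt q ^ (j - 1)

theorem lc_nonneg (q : ℝ) (j : ℕ) : 0 ≤ lc q j := by
  unfold lc
  have := rt_pos q
  split_ifs <;> positivity

theorem lc_sum (q : ℝ) (hq : 3 < q) : ∑' j, ENNReal.ofReal (lc q j) ≠ ∞ := by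
  refine Summable.tsum_ofReal_ne_top ?_
  refine (summable_nat_add_iff 1).1 ?_
  have h1 : Summable fun j : ℕ => 2 * rt q ^ j :=
    (summable_geometric_of_lt_one (rt_pos q).le (rt_lt q hq)).mul_left 2
  refine h1.congr fun j => ?_
  unfold lc
  rw [if_neg (by omega), Nat.add_sub_cancel]

theorem lev_le {h : ι → ℝ → ℂ} (hh : ∀ i, Measurable (h i)) (q : ℝ) (hq : 3 < q)
    (h1 : ∫⁻ x, ENNReal.ofReal (nr h x) ^ q ≤ 1) (j : ℕ) :
    ENNReal.ofReal (2 ^ j) * volume (Sl h j) ^ ((q - 1) / (2 * q)) ≤ ENNReal.ofReal (lc q j) := by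
  have he : 0 < (q - 1) / (2 * q) := div_pos (by linarith) (by linarith)
  rcases Nat.eq_zero_or_pos j with h0 | h0
  · subst h0
    unfold lc
    rw [if_pos rfl, pow_zero, ENNReal.ofReal_one, one_mul]
    calc volume (Sl h 0) ^ ((q - 1) / (2 * q)) ≤ 1 ^ ((q - 1) / (2 * q)) :=
          ENNReal.rpow_le_rpow (volA (Sl_sub h 0)) he.le
      _ = 1 := ENNReal.one_rpow _
  · obtain ⟨l, rfl⟩ : ∃ l, j = l + 1 := ⟨j - 1, by omega⟩
    unfold lc
    rw [if_neg (by omega), Nat.add_sub_cancel]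
    have h2 := ENNReal.rpow_le_rpow (Sl_vol hh q hq h1 l) he.le
    have h6 : (0 : ℝ) < 2 ^ l := by positivity
    rw [ENNReal.ofReal_rpow_of_pos (by positivity)] at h2
    refine (mul_le_mul_right h2 _).trans ?_
    rw [← ENNReal.ofReal_mul (by positivity)]
    refine ENNReal.ofReal_le_ofReal (le_of_eq ?_)
    have h3 : ((2 ^ l : ℝ) ^ (-q)) ^ ((q - 1) / (2 * q)) = (2 : ℝ) ^ (-((l : ℝ) * ((q - 1) / 2))) := by
      rw [← Real.rpow_natCast, ← Real.rpow_mul (by norm_num), ← Real.rpow_mul (by norm_num)]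
      congr 1
      field_simp
    have h4 : rt q ^ l = (2 : ℝ) ^ (-((l : ℝ) * ((q - 3) / 2))) := by
      unfold rt
      rw [← Real.rpow_natCast, ← Real.rpow_mul (by norm_num)]
      congr 1
      ring
    rw [h3, h4, pow_succ, mul_comm ((2 : ℝ) ^ l) 2, mul_assoc]
    congr 1
    rw [← Real.rpow_natCast, ← Real.rpow_add (by norm_num)]
    congr 1
    ring

theorem Ef_sum {κ : Type*} (s : Finset κ) (X : κ → ℝ × ℝ → ℂ) (hX : ∀ i ∈ s, Integrable (X i))
    (ω : ℝ × (ℝ × ℝ)) : Ef (fun p => ∑ i ∈ s, X i p) ω = ∑ i ∈ s, Ef (X i) ω := by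
  unfold Ef
  simp_rw [Finset.mul_sum]
  exact integral_finsetSum _ fun i hi => pph_int _ (hX i hi) ω

/-- the normalized strong estimate -/
theorem strong1 (q : ℝ) (hq : 3 < q) (m : ℕ) (C : ℝ) : ∃ K : ℝ≥0∞, K ≠ ∞ ∧
    ∀ (F : ℝ × ℝ → ℂ) (G : ℕ → ℝ × ℝ → ℂ), Lad m C F G → ∀ (ι : Type) [Fintype ι]
    (h k : ι → ℝ → ℂ), (∀ i, Measurable (h i)) → (∀ i, Measurable (k i)) →
    (∀ i x, h i x ≠ 0 → x ∈ Ib) → (∀ i x, k i x ≠ 0 → x ∈ Ib) →
    ∫⁻ x, ENNReal.ofReal (nr h x) ^ q ≤ 1 → ∫⁻ x, ENNReal.ofReal (nr k x) ^ q ≤ 1 →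
    eLpNorm (Ef fun p => Wf h k p * F p) (ENNReal.ofReal q) volume ≤ K := by
  obtain ⟨K, hK, hR⟩ := restr q hq m C
  set T := ∑' j, ENNReal.ofReal (lc q j) with hT
  have hTt : T ≠ ∞ := lc_sum q hq
  refine ⟨K * (T * T), ENNReal.mul_ne_top hK (ENNReal.mul_ne_top hTt hTt), ?_⟩
  intro F G hL ι _ h k hh hk hhs hks hh1 hk1
  have hC1 := hL.one
  set X : ℕ → ℝ × ℝ → ℂ := fun n p =>
    Wf (fun i => (Ul h n).indicator (h i)) (fun i => (Ul k n).indicator (k i)) p * F p with hX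
  -- expansion into levels
  have hexp : ∀ n p, X n p = ∑ a ∈ Finset.range (n + 1) ×ˢ Finset.range (n + 1),
      ((2 : ℂ) ^ a.1 * 2 ^ a.2) * (Wf (hl h a.1) (hl k a.2) p * F p) := by
    intro n p
    simp only [hX]
    unfold Wf
    simp_rw [hl_sum, Finset.sum_mul_sum]
    rw [Finset.sum_product, Finset.sum_comm, Finset.sum_mul]
    refine Finset.sum_congr rfl fun j _ => ?_
    rw [Finset.sum_comm, Finset.sum_mul]
    refine Finset.sum_congr rfl fun l _ => ?_
    simp only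
    rw [Finset.sum_mul, Finset.sum_mul, Finset.mul_sum]
    refine Finset.sum_congr rfl fun i _ => ?_
    ring
  have hint : ∀ a : ℕ × ℕ, Integrable fun p =>
      ((2 : ℂ) ^ a.1 * 2 ^ a.2) * (Wf (hl h a.1) (hl k a.2) p * F p) := fun a =>
    (W_int (Sl_meas hh a.1) (Sl_sub h a.1) (Sl_meas hk a.2) (Sl_sub k a.2) (hl_vec hh a.1)
      (hl_vec hk a.2) hL.measF C hL.bdF).const_mul _
  have hEm : ∀ a : ℕ × ℕ, Measurable (Ef fun p => Wf (hl h a.1) (hl k a.2) p * F p) := fun a =>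
    Ef_meas _ ((Wf_meas (hl_vec hh a.1).meas (hl_vec hk a.2).meas).mul hL.measF)
  have hEX : ∀ n, Ef (X n) = ∑ a ∈ Finset.range (n + 1) ×ˢ Finset.range (n + 1),
      fun ω => ((2 : ℂ) ^ a.1 * 2 ^ a.2) * Ef (fun p => Wf (hl h a.1) (hl k a.2) p * F p) ω := by
    intro n
    ext ω
    have e1 : X n = fun p => ∑ a ∈ Finset.range (n + 1) ×ˢ Finset.range (n + 1),
      ((2 : ℂ) ^ a.1 * 2 ^ a.2) * (Wf (hl h a.1) (hl k a.2) p * F p) := by
      ext p; exact hexp n p
    rw [e1, Ef_sum _ _ (fun a _ => hint a), Finset.sum_apply]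
    refine Finset.sum_congr rfl fun a _ => ?_
    exact Ef_smul _ _ ω
  have hbound : ∀ n, eLpNorm (Ef (X n)) (ENNReal.ofReal q) volume ≤ K * (T * T) := by
    intro n
    rw [hEX]
    refine (eLpNorm_sum_le (fun a _ => ((hEm a).const_mul _).aestronglyMeasurable)
      (one_le_q q hq)).trans ?_
    have h1 : ∀ a : ℕ × ℕ, eLpNorm (fun ω => ((2 : ℂ) ^ a.1 * 2 ^ a.2) *
        Ef (fun p => Wf (hl h a.1) (hl k a.2) p * F p) ω) (ENNReal.ofReal q) volume ≤
        K * (ENNReal.ofReal (lc q a.1) * ENNReal.ofReal (lc q a.2)) := by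
      intro a
      have h2 := eLpNorm_const_smul ((2 : ℂ) ^ a.1 * 2 ^ a.2)
        (Ef fun p => Wf (hl h a.1) (hl k a.2) p * F p) (ENNReal.ofReal q) volume
      have h3 : (((2 : ℂ) ^ a.1 * 2 ^ a.2) • (Ef fun p => Wf (hl h a.1) (hl k a.2) p * F p)) =
          fun ω => ((2 : ℂ) ^ a.1 * 2 ^ a.2) *
            Ef (fun p => Wf (hl h a.1) (hl k a.2) p * F p) ω := rfl
      rw [h3] at h2
      rw [h2]
      have h4 := hR F G hL ι _ _ _ _ (Sl_meas hh a.1) (Sl_sub h a.1) (Sl_meas hk a.2)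
        (Sl_sub k a.2) (hl_vec hh a.1) (hl_vec hk a.2)
      have h5 : ‖((2 : ℂ) ^ a.1 * 2 ^ a.2)‖ₑ = ENNReal.ofReal (2 ^ a.1) * ENNReal.ofReal (2 ^ a.2) := by
        rw [← ofReal_norm, norm_mul, norm_pow, norm_pow, Complex.norm_ofNat,
          ENNReal.ofReal_mul (by positivity)]
      rw [h5]
      have he : 0 ≤ (q - 1) / (2 * q) := div_nonneg (by linarith) (by linarith)
      calc ENNReal.ofReal (2 ^ a.1) * ENNReal.ofReal (2 ^ a.2) *
            eLpNorm (Ef fun p => Wf (hl h a.1) (hl k a.2) p * F p) (ENNReal.ofReal q) volume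
          ≤ ENNReal.ofReal (2 ^ a.1) * ENNReal.ofReal (2 ^ a.2) *
            (K * (volume (Sl h a.1) * volume (Sl k a.2)) ^ ((q - 1) / (2 * q))) :=
            mul_le_mul_right h4 _
        _ = K * ((ENNReal.ofReal (2 ^ a.1) * volume (Sl h a.1) ^ ((q - 1) / (2 * q))) *
            (ENNReal.ofReal (2 ^ a.2) * volume (Sl k a.2) ^ ((q - 1) / (2 * q)))) := by
            rw [ENNReal.mul_rpow_of_nonneg _ _ he]
            ring
        _ ≤ _ := by
            gcongr
            · exact lev_le hh q hq hh1 a.1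
            · exact lev_le hk q hq hk1 a.2
    calc ∑ a ∈ Finset.range (n + 1) ×ˢ Finset.range (n + 1), eLpNorm (fun ω =>
          ((2 : ℂ) ^ a.1 * 2 ^ a.2) * Ef (fun p => Wf (hl h a.1) (hl k a.2) p * F p) ω)
          (ENNReal.ofReal q) volume
        ≤ ∑ a ∈ Finset.range (n + 1) ×ˢ Finset.range (n + 1),
          K * (ENNReal.ofReal (lc q a.1) * ENNReal.ofReal (lc q a.2)) :=
          Finset.sum_le_sum fun a _ => h1 a
      _ = K * ((∑ j ∈ Finset.range (n + 1), ENNReal.ofReal (lc q j)) *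
          ∑ j ∈ Finset.range (n + 1), ENNReal.ofReal (lc q j)) := by
          rw [← Finset.mul_sum, Finset.sum_mul_sum, Finset.sum_product]
      _ ≤ _ := by
          gcongr
          · exact ENNReal.sum_le_tsum _
          · exact ENNReal.sum_le_tsum _
  -- the limit
  have hnr : ∀ (g : ι → ℝ → ℂ) (hg : ∀ i, Measurable (g i)) (hgs : ∀ i x, g i x ≠ 0 → x ∈ Ib),
      ∫⁻ x, ENNReal.ofReal (nr g x) ^ q ≤ 1 → Integrable (nr g) := by
    intro g hg hgs hg1
    refine ⟨(nr_meas hg).aestronglyMeasurable, ?_⟩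
    have h1 : ∀ x, ‖nr g x‖ₑ ≤ Ib.indicator 1 x + ENNReal.ofReal (nr g x) ^ q := by
      intro x
      rw [← ofReal_norm, Real.norm_of_nonneg (nr_nonneg g x)]
      rcases le_or_gt (nr g x) 1 with h2 | h2
      · by_cases hx : x ∈ Ib
        · rw [indicator_of_mem hx, Pi.one_apply]
          refine le_trans ?_ le_self_add
          rw [← ENNReal.ofReal_one]
          exact ENNReal.ofReal_le_ofReal h2
        · have h3 : nr g x = 0 := by
            unfold nr
            rw [Finset.sum_eq_zero, Real.sqrt_zero]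
            intro i _
            have : g i x = 0 := by
              by_contra hne
              exact hx (hgs i x hne)
            rw [this]; simp
          rw [h3, ENNReal.ofReal_zero]
          exact zero_le
      · refine le_trans ?_ le_add_self
        have h4 : (1 : ℝ≥0∞) ≤ ENNReal.ofReal (nr g x) := by
          rw [← ENNReal.ofReal_one]; exact ENNReal.ofReal_le_ofReal h2.le
        calc ENNReal.ofReal (nr g x) = ENNReal.ofReal (nr g x) ^ (1 : ℝ) :=
              (ENNReal.rpow_one _).symm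
          _ ≤ _ := ENNReal.rpow_le_rpow_of_exponent_le h4 (by linarith)
    rw [hasFiniteIntegral_iff_enorm]
    calc ∫⁻ x, ‖nr g x‖ₑ ≤ ∫⁻ x, (Ib.indicator 1 x + ENNReal.ofReal (nr g x) ^ q) :=
          lintegral_mono h1
      _ = (∫⁻ x, Ib.indicator 1 x) + ∫⁻ x, ENNReal.ofReal (nr g x) ^ q :=
          lintegral_add_left (measurable_one.indicator Ib_meas) _
      _ ≤ 1 + 1 := by
          rw [lintegral_indicator_one Ib_meas, Ib_vol]
          gcongr
      _ < ∞ := by norm_num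
  have hdom : Integrable fun p : ℝ × ℝ => C * (nr h p.1 * nr k p.2) := by
    rw [Measure.volume_eq_prod]
    exact ((hnr h hh hhs hh1).mul_prod (hnr k hk hks hk1)).const_mul C
  have hle : ∀ n p, ‖X n p‖ ≤ C * (nr h p.1 * nr k p.2) := by
    intro n p
    simp only [hX]
    rw [norm_mul, mul_comm]
    refine mul_le_mul (hL.bdF p) ?_ (norm_nonneg _) (by linarith)
    have h1 := cs_norm (fun i => (Ul h n).indicator (h i) p.1) (fun i => (Ul k n).indicator (k i) p.2)
    have h2 : ∀ (g : ι → ℝ → ℂ) (x : ℝ), ∑ i, ‖(Ul g n).indicator (g i) x‖ ^ 2 ≤ nr g x ^ 2 := by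
      intro g x
      rw [nr_sq]
      refine Finset.sum_le_sum fun i _ => ?_
      exact pow_le_pow_left₀ (norm_nonneg _) (norm_indicator_le_norm_self _ _) 2
    have h3 : ‖Wf (fun i => (Ul h n).indicator (h i)) (fun i => (Ul k n).indicator (k i)) p‖ ^ 2 ≤
        (nr h p.1 * nr k p.2) ^ 2 := by
      rw [mul_pow]
      exact h1.trans (mul_le_mul (h2 h p.1) (h2 k p.2) (Finset.sum_nonneg fun i _ => by positivity)
        (by positivity))
    exact (pow_le_pow_iff_left₀ (norm_nonneg _) (mul_nonneg (nr_nonneg _ _) (nr_nonneg _ _))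
      (by norm_num)).1 h3
  have hptw : ∀ p, Tendsto (fun n => X n p) atTop (𝓝 (Wf h k p * F p)) := by
    intro p
    obtain ⟨N, hN⟩ := pow_unbounded_of_one_lt (max (nr h p.1) (nr k p.2)) (one_lt_two (α := ℝ))
    refine tendsto_const_nhds.congr' ?_
    filter_upwards [eventually_ge_atTop N] with n hn
    simp only [hX]
    congr 1
    unfold Wf
    refine Finset.sum_congr rfl fun i _ => ?_
    have hpow : (2 : ℝ) ^ N ≤ 2 ^ n := pow_le_pow_right₀ (by norm_num) hn
    have key : ∀ (g : ι → ℝ → ℂ) (x : ℝ), (∀ i x, g i x ≠ 0 → x ∈ Ib) → nr g x ≤ 2 ^ n →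
        (Ul g n).indicator (g i) x = g i x := by
      intro g x hgs hgx
      by_cases hx : x ∈ Ul g n
      · exact indicator_of_mem hx _
      · rw [indicator_of_notMem hx]
        by_contra hne
        exact hx ⟨hgs i x (Ne.symm hne), hgx⟩
    simp only
    rw [key h p.1 hhs ((le_max_left _ _).trans (hN.le.trans hpow)),
      key k p.2 hks ((le_max_right _ _).trans (hN.le.trans hpow))]
  have hXm : ∀ n, Measurable (X n) := fun n =>
    (Wf_meas (fun i => (hh i).indicator (Ul_meas hh n)) (fun i => (hk i).indicator (Ul_meas hk n))).mul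
      hL.measF
  have hlim : ∀ ω, Tendsto (fun n => Ef (X n) ω) atTop (𝓝 (Ef (fun p => Wf h k p * F p) ω)) := by
    intro ω
    unfold Ef
    refine tendsto_integral_of_dominated_convergence (fun p => C * (nr h p.1 * nr k p.2)) ?_ hdom ?_ ?_
    · intro n
      refine (Measurable.mul (ee_meas.comp ?_) (hXm n)).aestronglyMeasurable
      unfold pph
      fun_prop
    · intro n
      refine Eventually.of_forall fun p => ?_
      rw [norm_mul, ee_norm, one_mul]
      exact hle n p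
    · exact Eventually.of_forall fun p => (hptw p).const_mul _
  refine (Lp.eLpNorm_lim_le_liminf_eLpNorm (fun n => (Ef_meas _ (hXm n)).aestronglyMeasurable) _
    (Eventually.of_forall hlim)).trans ?_
  exact liminf_le_of_frequently_le' (Frequently.of_forall fun n => hbound n)

end Pool.Agent.K4H66.RV
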