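import Mathlib
import Pool.Agent.K4H66.RV.A9
import Pool.Agent.R412.RT.Z
set_option autoImplicit false

/-! Transfer to `E 2`, `E 3` and the normalisation `e^{-i Φ(x)·ξ}`. -/

namespace Pool.Agent.K4H66.RV

open MeasureTheory Complex Set Filter Topology Metric
open scoped ENNReal NNReal RealInnerProductSpace ComplexConjugate
open Pool.Agent.R412.RT (E ee ee_norm ee_add ee_conj ee_meas ee_cont inner_eq Ex)
open Pool.Agent.R412.RZ (cs cs_ne ext ext_eq Phi)

/-- `E 3` and `ℝ × (ℝ × ℝ)`, the vertical coordinate first -/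
noncomputable def T3 (η : E 3) : ℝ × (ℝ × ℝ) := (η 2, (η 0, η 1))

theorem T3_mp : MeasurePreserving T3 volume volume := by
  have h1 := volume_preserving_piFinSuccAbove (fun _ : Fin 3 => ℝ) (Fin.last 2)
  have h2 := (MeasurePreserving.id (volume : Measure ℝ)).prod (volume_preserving_finTwoArrow ℝ)
  have h3 := (h2.comp h1).comp (PiLp.volume_preserving_ofLp (Fin 3))
  exact h3

theorem Ex_Ef (g : E 2 → ℂ) (F : ℝ × ℝ → ℂ) (hgF : ∀ x, g x = F (T2 x)) (η : E 3) :
    Ex g η = Ef F (T3 η) := by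
  unfold Ex Ef
  rw [← T2_mp.integral_comp T2.measurableEmbedding]
  refine integral_congr_ae (Eventually.of_forall fun x => ?_)
  simp only
  rw [hgF]
  congr 2
  rw [inner_eq, Fin.sum_univ_castSucc, Fin.sum_univ_two, Pool.Agent.R412.RT.Phi_last,
    Fin.sum_univ_two, Pool.Agent.R412.RT.Phi_cast, Pool.Agent.R412.RT.Phi_cast]
  rfl

/-- the L^q norm after scaling -/
theorem ext_norm (q : ℝ) (hq : 3 < q) (U : Set (E 2)) (hU : MeasurableSet U) (f : E 2 → ℂ)
    (F : ℝ × ℝ → ℂ) (hF : Measurable F) (hfF : ∀ x, U.indicator f x = F (T2 x)) :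
    eLpNorm (ext U f) (ENNReal.ofReal q) volume ≤
      ENNReal.ofReal ((2 * Real.pi) ^ 3) ^ (1 / q) * eLpNorm (Ef F) (ENNReal.ofReal q) volume := by
  have hqp : 0 < q := by linarith
  have h0 : cs⁻¹ ≠ 0 := inv_ne_zero cs_ne
  have hme : MeasurableEmbedding fun ξ : E 3 => cs⁻¹ • ξ :=
    (Homeomorph.smulOfNeZero cs⁻¹ h0).toMeasurableEquiv.measurableEmbedding
  have h5 := Measure.map_addHaar_smul (volume : Measure (E 3)) h0
  have hE : Measurable (Ef F) := Ef_meas F hF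
  rw [lp_eq q hq, eLpNorm_eq_lintegral_rpow_enorm_toReal (by simp; linarith)
    ENNReal.ofReal_ne_top, ENNReal.toReal_ofReal (by linarith),
    ← ENNReal.mul_rpow_of_nonneg _ _ (by positivity)]
  refine ENNReal.rpow_le_rpow (le_of_eq ?_) (by positivity)
  have h6 : ∫⁻ η : E 3, ‖Ef F (T3 η)‖ₑ ^ q = ∫⁻ ω, ‖Ef F ω‖ₑ ^ q :=
    T3_mp.lintegral_comp (hE.enorm.pow_const q)
  rw [← h6]
  have h7 : ∫⁻ ξ : E 3, ‖Ef F (T3 ξ)‖ₑ ^ q ∂(Measure.map (cs⁻¹ • ·) (volume : Measure (E 3))) =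
      ∫⁻ ξ : E 3, ‖ext U f ξ‖ₑ ^ q := by
    rw [hme.lintegral_map]
    refine lintegral_congr fun ξ => ?_
    rw [ext_eq U hU, Ex_Ef _ F hfF]
  rw [← h7, h5, lintegral_smul_measure, smul_eq_mul]
  congr 2
  rw [finrank_euclideanSpace, Fintype.card_fin, ← inv_pow, inv_inv, abs_pow]
  unfold cs
  rw [abs_neg, abs_of_pos (by positivity)]

/-- restriction of a vector valued function to the base interval -/
noncomputable def rs {N : ℕ} (h : ℝ → EuclideanSpace ℂ (Fin N)) (i : Fin N) (x : ℝ) : ℂ :=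
  Ib.indicator (fun x => h x i) x

theorem rs_meas {N : ℕ} {h : ℝ → EuclideanSpace ℂ (Fin N)} (hh : Measurable h) (i : Fin N) :
    Measurable (rs h i) := by
  unfold rs
  have h1 : Measurable fun x => h x i :=
    ((EuclideanSpace.proj (𝕜 := ℂ) i).continuous.measurable).comp hh
  exact h1.indicator Ib_meas

theorem rs_nr {N : ℕ} (h : ℝ → EuclideanSpace ℂ (Fin N)) (x : ℝ) : nr (rs h) x ≤ ‖h x‖ := by
  unfold nr
  rw [EuclideanSpace.norm_eq]
  refine Real.sqrt_le_sqrt (Finset.sum_le_sum fun i _ => ?_)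
  exact pow_le_pow_left₀ (norm_nonneg _) (norm_indicator_le_norm_self _ _) 2

theorem rs_smul {N : ℕ} (c : ℝ) (h : ℝ → EuclideanSpace ℂ (Fin N)) (i : Fin N) (x : ℝ) :
    rs (fun x => (c : ℂ) • h x) i x = c * rs h i x := by
  unfold rs
  by_cases hx : x ∈ Ib
  · rw [indicator_of_mem hx, indicator_of_mem hx]
    rfl
  · rw [indicator_of_notMem hx, indicator_of_notMem hx, mul_zero]

theorem Wf_rs_smul {N : ℕ} (a b : ℝ) (h k : ℝ → EuclideanSpace ℂ (Fin N)) (p : ℝ × ℝ) :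
    Wf (rs fun x => (a : ℂ) • h x) (rs fun x => (b : ℂ) • k x) p =
      ((a * b : ℝ) : ℂ) * Wf (rs h) (rs k) p := by
  unfold Wf
  rw [Finset.mul_sum]
  refine Finset.sum_congr rfl fun i _ => ?_
  rw [rs_smul, rs_smul]
  push_cast
  ring

theorem rs_lint {N : ℕ} (q : ℝ) (hq : 3 < q) (h : ℝ → EuclideanSpace ℂ (Fin N))
    (hn : eLpNorm h (ENNReal.ofReal q) volume ≤ 1) :
    ∫⁻ x, ENNReal.ofReal (nr (rs h) x) ^ q ≤ 1 := by
  have hqp : 0 < q := by linarith
  rw [eLpNorm_eq_lintegral_rpow_enorm_toReal (by simp; linarith) ENNReal.ofReal_ne_top,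
    ENNReal.toReal_ofReal (by linarith)] at hn
  have h1 := ENNReal.rpow_le_rpow hn hqp.le
  rw [← ENNReal.rpow_mul, one_div_mul_cancel hqp.ne', ENNReal.rpow_one, ENNReal.one_rpow] at h1
  refine le_trans (lintegral_mono fun x => ?_) h1
  rw [← ofReal_norm]
  exact ENNReal.rpow_le_rpow (ENNReal.ofReal_le_ofReal (rs_nr h x)) hqp.le

/-- the estimate on `ℝ × ℝ` -/
theorem strong2 (q : ℝ) (hq : 3 < q) (m : ℕ) : ∃ K : ℝ≥0∞, K ≠ ∞ ∧ ∀ (N : ℕ)
    (h k : ℝ → EuclideanSpace ℂ (Fin N)) (F : Fin m → ℝ × ℝ → ℂ), Measurable h → Measurable k →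
    (∀ j, IsChain (F j) ∨ IsChain fun p => F j p.swap) →
    eLpNorm (Ef fun p => Wf (rs h) (rs k) p * ∏ j, F j p) (ENNReal.ofReal q) volume ≤
      K * eLpNorm h (ENNReal.ofReal q) volume * eLpNorm k (ENNReal.ofReal q) volume := by
  obtain ⟨C, hC⟩ := prod_lad m
  obtain ⟨K, hK, hS⟩ := strong1 q hq m C
  refine ⟨K + 1, ENNReal.add_ne_top.2 ⟨hK, ENNReal.one_ne_top⟩, ?_⟩
  intro N h k F hh hk hF
  obtain ⟨G, hG⟩ := hC F hF
  have hq0 : ENNReal.ofReal q ≠ 0 := by simp; linarith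
  set a := eLpNorm h (ENNReal.ofReal q) volume with ha
  set b := eLpNorm k (ENNReal.ofReal q) volume with hb
  have hzero : (∀ᵐ p : ℝ × ℝ, Wf (rs h) (rs k) p = 0) →
      eLpNorm (Ef fun p => Wf (rs h) (rs k) p * ∏ j, F j p) (ENNReal.ofReal q) volume = 0 := by
    intro hz
    have h1 : (Ef fun p => Wf (rs h) (rs k) p * ∏ j, F j p) = fun _ => 0 := by
      ext ω
      unfold Ef
      refine integral_eq_zero_of_ae ?_
      filter_upwards [hz] with p hp
      rw [hp, zero_mul, mul_zero]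
      rfl
    rw [h1]
    exact eLpNorm_zero
  by_cases ha0 : a = 0
  · have h1 : h =ᵐ[volume] 0 := (eLpNorm_eq_zero_iff hh.aestronglyMeasurable hq0).1 ha0
    have h2 : ∀ᵐ p : ℝ × ℝ, h p.1 = 0 := by
      rw [Measure.volume_eq_prod]
      exact Measure.quasiMeasurePreserving_fst.ae h1
    rw [hzero]
    · exact zero_le
    · filter_upwards [h2] with p hp
      unfold Wf
      refine Finset.sum_eq_zero fun i _ => ?_
      have : rs h i p.1 = 0 := by
        unfold rs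
        by_cases hx : p.1 ∈ Ib
        · rw [indicator_of_mem hx, hp]; rfl
        · rw [indicator_of_notMem hx]
      rw [this, zero_mul]
  by_cases hb0 : b = 0
  · have h1 : k =ᵐ[volume] 0 := (eLpNorm_eq_zero_iff hk.aestronglyMeasurable hq0).1 hb0
    have h2 : ∀ᵐ p : ℝ × ℝ, k p.2 = 0 := by
      rw [Measure.volume_eq_prod]
      exact Measure.quasiMeasurePreserving_snd.ae h1
    rw [hzero]
    · exact zero_le
    · filter_upwards [h2] with p hp
      unfold Wf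
      refine Finset.sum_eq_zero fun i _ => ?_
      have : rs k i p.2 = 0 := by
        unfold rs
        by_cases hx : p.2 ∈ Ib
        · rw [indicator_of_mem hx, hp]; rfl
        · rw [indicator_of_notMem hx]
      rw [this, mul_zero]
  by_cases hat : a = ∞
  · have : (K + 1) * a * b = ∞ := by
      rw [hat, ENNReal.mul_top (by simp), ENNReal.top_mul hb0]
    rw [this]
    exact le_top
  by_cases hbt : b = ∞
  · have : (K + 1) * a * b = ∞ := by
      rw [hbt, ENNReal.mul_top]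
      exact mul_ne_zero (by simp) ha0
    rw [this]
    exact le_top
  -- the main case
  have har : 0 < a.toReal := ENNReal.toReal_pos ha0 hat
  have hbr : 0 < b.toReal := ENNReal.toReal_pos hb0 hbt
  have hnorm : ∀ (g : ℝ → EuclideanSpace ℂ (Fin N)) (c : ℝ≥0∞), c ≠ 0 → c ≠ ∞ →
      eLpNorm g (ENNReal.ofReal q) volume = c →
      eLpNorm (fun x => ((c.toReal⁻¹ : ℝ) : ℂ) • g x) (ENNReal.ofReal q) volume ≤ 1 := by
    intro g c hc0 hct hg
    have h1 := eLpNorm_const_smul ((c.toReal⁻¹ : ℝ) : ℂ) g (ENNReal.ofReal q) volume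
    have h2 : (((c.toReal⁻¹ : ℝ) : ℂ) • g) = fun x => ((c.toReal⁻¹ : ℝ) : ℂ) • g x := rfl
    rw [h2] at h1
    rw [h1, hg, ← ofReal_norm, Complex.norm_real, Real.norm_of_nonneg (inv_nonneg.2
      ENNReal.toReal_nonneg), ENNReal.ofReal_inv_of_pos (ENNReal.toReal_pos hc0 hct),
      ENNReal.ofReal_toReal hct, ENNReal.inv_mul_cancel hc0 hct]
  have hhm : Measurable fun x => ((a.toReal⁻¹ : ℝ) : ℂ) • h x :=
    Measurable.const_smul (g := h) hh ((a.toReal⁻¹ : ℝ) : ℂ)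
  have hkm : Measurable fun x => ((b.toReal⁻¹ : ℝ) : ℂ) • k x :=
    Measurable.const_smul (g := k) hk ((b.toReal⁻¹ : ℝ) : ℂ)
  have h3 := hS (fun p => ∏ j, F j p) G hG (Fin N)
    (rs fun x => ((a.toReal⁻¹ : ℝ) : ℂ) • h x) (rs fun x => ((b.toReal⁻¹ : ℝ) : ℂ) • k x)
    (fun i => rs_meas hhm i) (fun i => rs_meas hkm i)
    (fun i x hx => by
      by_contra hne
      exact hx (indicator_of_notMem hne _))
    (fun i x hx => by
      by_contra hne
      exact hx (indicator_of_notMem hne _))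
    (rs_lint q hq _ (hnorm h a ha0 hat rfl)) (rs_lint q hq _ (hnorm k b hb0 hbt rfl))
  have h4 : (Ef fun p => Wf (rs h) (rs k) p * ∏ j, F j p) =
      ((a.toReal * b.toReal : ℝ) : ℂ) • (Ef fun p => Wf
        (rs fun x => ((a.toReal⁻¹ : ℝ) : ℂ) • h x) (rs fun x => ((b.toReal⁻¹ : ℝ) : ℂ) • k x) p *
          ∏ j, F j p) := by
    ext ω
    rw [Pi.smul_apply, smul_eq_mul, ← Ef_smul]
    congr 1
    ext p
    rw [Wf_rs_smul, ← mul_assoc, ← mul_assoc, ← Complex.ofReal_mul]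
    have h5 : a.toReal * b.toReal * (a.toReal⁻¹ * b.toReal⁻¹) = 1 := by
      field_simp
    rw [h5, Complex.ofReal_one, one_mul]
  rw [h4, eLpNorm_const_smul]
  have h6 : ‖((a.toReal * b.toReal : ℝ) : ℂ)‖ₑ = a * b := by
    rw [← ofReal_norm, Complex.norm_real, Real.norm_of_nonneg (by positivity),
      ENNReal.ofReal_mul (by positivity), ENNReal.ofReal_toReal hat, ENNReal.ofReal_toReal hbt]
  rw [h6]
  calc a * b * eLpNorm (Ef fun p => Wf
        (rs fun x => ((a.toReal⁻¹ : ℝ) : ℂ) • h x) (rs fun x => ((b.toReal⁻¹ : ℝ) : ℂ) • k x) p *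
          ∏ j, F j p) (ENNReal.ofReal q) volume ≤ a * b * K := mul_le_mul_right h3 _
    _ ≤ a * b * (K + 1) := mul_le_mul_right le_self_add _
    _ = _ := by ring

/-- the final estimate -/
theorem final (q : ℝ) (hq : 3 < q) (m : ℕ) : ∃ K : ℝ≥0, ∀ (N : ℕ)
    (h k : ℝ → EuclideanSpace ℂ (Fin N)) (G : Fin m → ℝ → ℝ → ℂ) (U : Set (E 2)) (f : E 2 → ℂ),
    Measurable h → Measurable k →
    (∀ j, IsChain (fun p => G j p.1 p.2) ∨ IsChain fun p => G j p.2 p.1) →
    MeasurableSet U → U ⊆ ball 0 (1 / 2) →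
    (∀ x ∈ U, f x = (∑ i, h (x 0) i * k (x 1) i) * ∏ j, G j (x 0) (x 1)) →
    (∀ x ∉ U, (∑ i, h (x 0) i * k (x 1) i) * ∏ j, G j (x 0) (x 1) = 0) →
    eLpNorm (ext U f) (ENNReal.ofReal q) volume ≤
      K * eLpNorm h (ENNReal.ofReal q) volume * eLpNorm k (ENNReal.ofReal q) volume := by
  obtain ⟨K, hK, hS⟩ := strong2 q hq m
  set c : ℝ≥0∞ := ENNReal.ofReal ((2 * Real.pi) ^ 3) ^ (1 / q) with hc
  have hct : c ≠ ∞ := ENNReal.rpow_ne_top_of_nonneg (by
    have : 0 < q := by linarith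
    positivity) ENNReal.ofReal_ne_top
  refine ⟨(c * K).toNNReal, ?_⟩
  rw [ENNReal.coe_toNNReal (ENNReal.mul_ne_top hct hK)]
  intro N h k G U f hh hk hG hU hUb hfU hfn
  have hF : ∀ j, IsChain (fun p : ℝ × ℝ => G j p.1 p.2) ∨
      IsChain fun p : ℝ × ℝ => (fun p : ℝ × ℝ => G j p.1 p.2) p.swap := hG
  have h1 := hS N h k (fun j p => G j p.1 p.2) hh hk hF
  have hGm : ∀ j, Measurable fun p : ℝ × ℝ => G j p.1 p.2 := by
    intro j
    rcases hG j with h2 | h2
    · obtain ⟨_, hL⟩ := chain_lad _ h2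
      exact hL.measF
    · obtain ⟨_, hL⟩ := chain_lad _ h2
      exact hL.measF.comp measurable_swap
  have hFm : Measurable fun p : ℝ × ℝ => Wf (rs h) (rs k) p * ∏ j, G j p.1 p.2 :=
    (Wf_meas (rs_meas hh) (rs_meas hk)).mul (Finset.measurable_prod _ fun j _ => hGm j)
  have h2 := ext_norm q hq U hU f _ hFm (by
    intro x
    rw [T2_apply]
    have hW : (x 0 ∈ Ib ∧ x 1 ∈ Ib) → Wf (rs h) (rs k) (x 0, x 1) = ∑ i, h (x 0) i * k (x 1) i := by
      rintro ⟨h3, h4⟩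
      unfold Wf rs
      refine Finset.sum_congr rfl fun i _ => ?_
      simp only
      rw [indicator_of_mem h3, indicator_of_mem h4]
    have hW0 : ¬ (x 0 ∈ Ib ∧ x 1 ∈ Ib) → Wf (rs h) (rs k) (x 0, x 1) = 0 := by
      intro h3
      unfold Wf rs
      refine Finset.sum_eq_zero fun i _ => ?_
      simp only
      by_cases h4 : x 0 ∈ Ib
      · have h5 : x 1 ∉ Ib := fun h6 => h3 ⟨h4, h6⟩
        rw [indicator_of_notMem h5, mul_zero]
      · rw [indicator_of_notMem h4, zero_mul]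
    by_cases hx : x ∈ U
    · have hb := hUb hx
      rw [mem_ball_zero_iff] at hb
      have hi : ∀ i, x i ∈ Ib := by
        intro i
        have h3 := PiLp.norm_apply_le x i
        rw [Real.norm_eq_abs] at h3
        have h4 := abs_le.1 (h3.trans hb.le)
        exact ⟨h4.1, h4.2⟩
      rw [indicator_of_mem hx, hW ⟨hi 0, hi 1⟩]
      exact hfU x hx
    · rw [indicator_of_notMem hx]
      by_cases h3 : x 0 ∈ Ib ∧ x 1 ∈ Ib
      · rw [hW h3]
        exact (hfn x hx).symm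
      · rw [hW0 h3, zero_mul])
  refine h2.trans ?_
  calc c * eLpNorm (Ef fun p => Wf (rs h) (rs k) p * ∏ j, G j p.1 p.2) (ENNReal.ofReal q) volume
      ≤ c * (K * eLpNorm h (ENNReal.ofReal q) volume * eLpNorm k (ENNReal.ofReal q) volume) :=
        mul_le_mul_right h1 _
    _ = _ := by ring

end Pool.Agent.K4H66.RV
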